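import Mathlib

/-! Calculus of circle averages in logarithmic coordinates. -/

open MeasureTheory Set Filter Topology Complex
open scoped ComplexConjugate

namespace Pool.Agent.V113.KR

set_option linter.unusedSectionVars false

/-- the point of the circle of radius `e^t` -/
noncomputable def pt (t θ : ℝ) : ℂ := exp ((t : ℂ) + θ * I)

/-- average over the circle of radius `e^t` -/
noncomputable def avg {E : Type*} [NormedAddCommGroup E] [NormedSpace ℝ E] (v : ℂ → E) (t : ℝ) : E :=
  (2 * Real.pi)⁻¹ • ∫ θ in (0:ℝ)..(2 * Real.pi), v (pt t θ)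

/-- the disc -/
abbrev DD : Set ℂ := Metric.ball 0 1

lemma norm_pt (t θ : ℝ) : ‖pt t θ‖ = Real.exp t := by
  unfold pt
  rw [Complex.norm_exp]
  simp

lemma pt_mem {t : ℝ} (ht : t < 0) (θ : ℝ) : pt t θ ∈ DD := by
  rw [Metric.mem_ball, dist_zero_right, norm_pt]
  rw [← Real.exp_zero]
  exact Real.exp_lt_exp.mpr ht

lemma pt_cont : Continuous fun w : ℝ × ℝ => pt w.1 w.2 := by
  unfold pt
  fun_prop

lemma pt_cont1 (t : ℝ) : Continuous fun θ => pt t θ := by
  unfold pt
  fun_prop

section
variable {E : Type*} [NormedAddCommGroup E] [NormedSpace ℝ E]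

lemma cont_circ {v : ℂ → E} (hv : ContinuousOn v DD) {t : ℝ} (ht : t < 0) :
    Continuous fun θ => v (pt t θ) :=
  hv.comp_continuous (pt_cont1 t) fun θ => pt_mem ht θ

lemma ii {v : ℂ → E} (hv : ContinuousOn v DD) {t : ℝ} (ht : t < 0) (a b : ℝ) :
    IntervalIntegrable (fun θ => v (pt t θ)) volume a b :=
  (cont_circ hv ht).intervalIntegrable a b

lemma avg_add {v w : ℂ → E} (hv : ContinuousOn v DD) (hw : ContinuousOn w DD) {t : ℝ}
    (ht : t < 0) : avg (fun z => v z + w z) t = avg v t + avg w t := by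
  unfold avg
  rw [intervalIntegral.integral_add (ii hv ht _ _) (ii hw ht _ _), smul_add]

lemma avg_sub {v w : ℂ → E} (hv : ContinuousOn v DD) (hw : ContinuousOn w DD) {t : ℝ}
    (ht : t < 0) : avg (fun z => v z - w z) t = avg v t - avg w t := by
  unfold avg
  rw [intervalIntegral.integral_sub (ii hv ht _ _) (ii hw ht _ _), smul_sub]

lemma avg_norm_le (v : ℂ → E) (t : ℝ) : ‖avg v t‖ ≤ avg (fun z => ‖v z‖) t := by
  unfold avg
  rw [norm_smul, norm_inv, Real.norm_of_nonneg (by positivity), smul_eq_mul]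
  gcongr
  exact intervalIntegral.norm_integral_le_integral_norm (by positivity)

lemma avg_congr {v w : ℂ → E} {t : ℝ} (ht : t < 0) (h : ∀ z ∈ DD, v z = w z) :
    avg v t = avg w t := by
  unfold avg
  congr 1
  apply intervalIntegral.integral_congr
  intro θ _
  exact h _ (pt_mem ht θ)

lemma avg_const (c : E) (t : ℝ) [CompleteSpace E] : avg (fun _ => c) t = c := by
  unfold avg
  rw [intervalIntegral.integral_const, sub_zero, smul_smul, inv_mul_cancel₀ (by positivity), one_smul]

end

lemma avg_mono {v w : ℂ → ℝ} (hv : ContinuousOn v DD) (hw : ContinuousOn w DD) {t : ℝ}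
    (ht : t < 0) (h : ∀ z ∈ DD, v z ≤ w z) : avg v t ≤ avg w t := by
  unfold avg
  simp only [smul_eq_mul]
  gcongr
  apply intervalIntegral.integral_mono (by positivity) (ii hv ht _ _) (ii hw ht _ _)
  intro θ
  exact h _ (pt_mem ht θ)

lemma avg_nonneg {v : ℂ → ℝ} {t : ℝ} (ht : t < 0) (h : ∀ z ∈ DD, 0 ≤ v z) : 0 ≤ avg v t := by
  unfold avg
  simp only [smul_eq_mul]
  apply mul_nonneg (by positivity)
  apply intervalIntegral.integral_nonneg (by positivity)
  intro θ _
  exact h _ (pt_mem ht θ)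

lemma avg_cmul (c : ℂ) (v : ℂ → ℂ) (t : ℝ) : avg (fun z => c * v z) t = c * avg v t := by
  unfold avg
  rw [intervalIntegral.integral_const_mul]
  simp only [Complex.real_smul]
  ring

lemma avg_rmul (c : ℝ) (v : ℂ → ℝ) (t : ℝ) : avg (fun z => c * v z) t = c * avg v t := by
  unfold avg
  rw [intervalIntegral.integral_const_mul]
  simp only [smul_eq_mul]
  ring

lemma avg_ofReal (v : ℂ → ℝ) (t : ℝ) : avg (fun z => (v z : ℂ)) t = ((avg v t : ℝ) : ℂ) := by
  unfold avg
  rw [intervalIntegral.integral_ofReal]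
  simp

/-- Wirtinger calculus in logarithmic coordinates -/
structure HW (v p q : ℂ → ℂ) : Prop where
  d : ∀ z ∈ DD, ∀ c : ℂ, HasDerivAt (fun s : ℝ => v (z * exp (s * c))) (p z * c + q z * conj c) 0
  cv : ContinuousOn v DD
  cp : ContinuousOn p DD
  cq : ContinuousOn q DD

lemma HW.analytic {F : ℂ → ℂ} (hF : DifferentiableOn ℂ F DD) :
    HW F (fun z => z * deriv F z) (fun _ => 0) where
  d := by
    intro z hz c
    have h1 : HasDerivAt F (deriv F z) z := (hF.differentiableAt (Metric.isOpen_ball.mem_nhds hz)).hasDerivAt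
    have h2 : HasDerivAt (fun s : ℝ => z * exp (s * c)) (z * c) 0 := by
      have h3 : HasDerivAt (fun s : ℝ => ((s : ℂ) * c)) (1 * c) 0 :=
        (Complex.ofRealCLM.hasDerivAt (x := (0:ℝ))).mul_const c
      have h4 := (h3.cexp).const_mul z
      simpa using h4
    have h5 : HasDerivAt F (deriv F z) (z * exp (((0:ℝ) : ℂ) * c)) := by simpa using h1
    have h6 := h5.comp_of_eq (0:ℝ) h2 rfl
    have h7 : HasDerivAt (fun s : ℝ => F (z * exp (s * c))) (deriv F z * (z * c)) 0 := h6
    convert h7 using 1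
    ring
  cv := hF.continuousOn
  cp := continuousOn_id.mul (hF.deriv Metric.isOpen_ball).continuousOn
  cq := continuousOn_const

lemma HW.conj {v p q : ℂ → ℂ} (h : HW v p q) :
    HW (fun z => conj (v z)) (fun z => conj (q z)) (fun z => conj (p z)) where
  d := by
    intro z hz c
    have h1 := (h.d z hz c).star
    have h2 : star (p z * c + q z * starRingEnd ℂ c) =
        starRingEnd ℂ (q z) * c + starRingEnd ℂ (p z) * starRingEnd ℂ c := by
      change starRingEnd ℂ (p z * c + q z * starRingEnd ℂ c) = _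
      simp only [map_add, map_mul, Complex.conj_conj]
      ring
    rw [h2] at h1
    exact h1
  cv := Complex.continuous_conj.comp_continuousOn h.cv
  cp := Complex.continuous_conj.comp_continuousOn h.cq
  cq := Complex.continuous_conj.comp_continuousOn h.cp

lemma HW.mul {v p q v' p' q' : ℂ → ℂ} (h : HW v p q) (h' : HW v' p' q') :
    HW (fun z => v z * v' z) (fun z => p z * v' z + v z * p' z)
      (fun z => q z * v' z + v z * q' z) where
  d := by
    intro z hz c
    have h1 := (h.d z hz c).mul (h'.d z hz c)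
    simp only [Complex.ofReal_zero, zero_mul, Complex.exp_zero, mul_one] at h1
    exact h1.congr_deriv (by ring)
  cv := h.cv.mul h'.cv
  cp := (h.cp.mul h'.cv).add (h.cv.mul h'.cp)
  cq := (h.cq.mul h'.cv).add (h.cv.mul h'.cq)

lemma HW.add {v p q v' p' q' : ℂ → ℂ} (h : HW v p q) (h' : HW v' p' q') :
    HW (fun z => v z + v' z) (fun z => p z + p' z) (fun z => q z + q' z) where
  d := by
    intro z hz c
    have h1 := (h.d z hz c).add (h'.d z hz c)
    exact h1.congr_deriv (by ring)
  cv := h.cv.add h'.cv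
  cp := h.cp.add h'.cp
  cq := h.cq.add h'.cq

lemma HW.cmul {v p q : ℂ → ℂ} (a : ℂ) (h : HW v p q) :
    HW (fun z => a * v z) (fun z => a * p z) (fun z => a * q z) where
  d := by
    intro z hz c
    have h1 := (h.d z hz c).const_mul a
    exact h1.congr_deriv (by ring)
  cv := h.cv.const_smul a
  cp := h.cp.const_smul a
  cq := h.cq.const_smul a

lemma HW.const (a : ℂ) : HW (fun _ => a) (fun _ => 0) (fun _ => 0) where
  d := by
    intro z hz c
    simpa using hasDerivAt_const (0:ℝ) a
  cv := continuousOn_const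
  cp := continuousOn_const
  cq := continuousOn_const

lemma HW.congr {v p q p' q' : ℂ → ℂ} (h : HW v p q) (hp : ∀ z ∈ DD, p z = p' z)
    (hq : ∀ z ∈ DD, q z = q' z) : HW v p' q' where
  d := by
    intro z hz c
    rw [← hp z hz, ← hq z hz]
    exact h.d z hz c
  cv := h.cv
  cp := h.cp.congr fun z hz => (hp z hz).symm
  cq := h.cq.congr fun z hz => (hq z hz).symm

lemma HW.rpow {w : ℂ → ℝ} {p q : ℂ → ℂ} (h : HW (fun z => (w z : ℂ)) p q) (hw : ∀ z, 0 < w z)
    (α : ℝ) : HW (fun z => ((w z ^ α : ℝ) : ℂ)) (fun z => (α * w z ^ (α - 1) : ℝ) * p z)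
      (fun z => (α * w z ^ (α - 1) : ℝ) * q z) := by
  have hcw : ContinuousOn w DD := by
    have := Complex.continuous_re.comp_continuousOn h.cv
    exact this
  have hc : ∀ β : ℝ, ContinuousOn (fun z => ((w z ^ β : ℝ) : ℂ)) DD := fun β =>
    Complex.continuous_ofReal.comp_continuousOn
      (hcw.rpow_const fun z _ => Or.inl (hw z).ne')
  have hc' : ContinuousOn (fun z => ((α * w z ^ (α - 1) : ℝ) : ℂ)) DD :=
    Complex.continuous_ofReal.comp_continuousOn
      ((hcw.rpow_const fun z _ => Or.inl (hw z).ne').const_smul α)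
  refine ⟨?_, hc α, hc'.mul h.cp, hc'.mul h.cq⟩
  intro z hz c
  have h1 := h.d z hz c
  have h2 : HasDerivAt (fun s : ℝ => w (z * exp (s * c))) ((p z * c + q z * conj c).re) 0 := by
    have := Complex.reCLM.hasFDerivAt.comp_hasDerivAt (0:ℝ) h1
    exact this
  have h3 : ((((p z * c + q z * conj c).re : ℝ)) : ℂ) = p z * c + q z * conj c :=
    (h2.ofReal_comp).unique h1
  have h4 := h2.rpow_const (p := α) (Or.inl (hw _).ne')
  have h5 := h4.ofReal_comp
  refine h5.congr_deriv ?_
  simp only [Complex.ofReal_zero, zero_mul, Complex.exp_zero, mul_one]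
  rw [Complex.ofReal_mul, Complex.ofReal_mul, h3]
  push_cast
  ring

lemma pt_exp (t θ s : ℝ) (c : ℂ) : pt t θ * exp (s * c) = exp ((t : ℂ) + θ * I + s * c) := by
  unfold pt
  rw [← Complex.exp_add]

lemma HW.dt {v p q : ℂ → ℂ} (h : HW v p q) {t : ℝ} (ht : t < 0) (θ : ℝ) :
    HasDerivAt (fun t : ℝ => v (pt t θ)) (p (pt t θ) + q (pt t θ)) t := by
  have h1 := h.d _ (pt_mem ht θ) 1
  simp only [mul_one, map_one] at h1
  have h2 : HasDerivAt (fun s : ℝ => s - t) 1 t := by
    simpa using (hasDerivAt_id t).sub_const t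
  have h3 : HasDerivAt (fun s : ℝ => v (pt t θ * exp (s : ℂ))) (p (pt t θ) + q (pt t θ)) (t - t) := by
    simpa using h1
  have h4 := h3.scomp_of_eq t h2 rfl
  rw [one_smul] at h4
  have h5 : (fun t : ℝ => v (pt t θ)) =
      (fun s : ℝ => v (pt t θ * exp (s : ℂ))) ∘ fun s : ℝ => s - t := by
    funext s
    simp only [Function.comp_apply, pt]
    rw [← Complex.exp_add]
    congr 2
    push_cast
    ring
  rw [h5]
  exact h4

lemma HW.dθ {v p q : ℂ → ℂ} (h : HW v p q) {t : ℝ} (ht : t < 0) (θ : ℝ) :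
    HasDerivAt (fun θ : ℝ => v (pt t θ)) ((p (pt t θ) - q (pt t θ)) * I) θ := by
  have h1 := h.d _ (pt_mem ht θ) I
  simp only [Complex.conj_I] at h1
  have h2 : HasDerivAt (fun s : ℝ => s - θ) 1 θ := by
    simpa using (hasDerivAt_id θ).sub_const θ
  have h3 : HasDerivAt (fun s : ℝ => v (pt t θ * exp (s * I)))
      (p (pt t θ) * I + q (pt t θ) * -I) (θ - θ) := by
    simpa using h1
  have h4 := h3.scomp_of_eq θ h2 rfl
  rw [one_smul] at h4
  have h5 : (fun θ : ℝ => v (pt t θ)) =
      (fun s : ℝ => v (pt t θ * exp (s * I))) ∘ fun s : ℝ => s - θ := by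
    funext s
    simp only [Function.comp_apply, pt]
    rw [← Complex.exp_add]
    congr 2
    push_cast
    ring
  rw [h5]
  exact h4.congr_deriv (by ring)

lemma HW.avg_eq {v p q : ℂ → ℂ} (h : HW v p q) {t : ℝ} (ht : t < 0) : avg p t = avg q t := by
  have h1 : ∫ θ in (0:ℝ)..(2 * Real.pi), (p (pt t θ) - q (pt t θ)) * I =
      v (pt t (2 * Real.pi)) - v (pt t 0) := by
    apply intervalIntegral.integral_eq_sub_of_hasDerivAt (f := fun θ => v (pt t θ))
    · intro θ _
      exact h.dθ ht θ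
    · exact (((cont_circ h.cp ht).sub (cont_circ h.cq ht)).mul continuous_const).intervalIntegrable _ _
  have h2 : pt t (2 * Real.pi) = pt t 0 := by
    unfold pt
    rw [Complex.exp_add, Complex.exp_add]
    push_cast
    rw [Complex.exp_two_pi_mul_I]
    simp
  rw [h2, sub_self, intervalIntegral.integral_mul_const,
    intervalIntegral.integral_sub (ii h.cp ht _ _) (ii h.cq ht _ _)] at h1
  have h3 := (mul_eq_zero.mp h1).resolve_right Complex.I_ne_zero
  unfold avg
  rw [sub_eq_zero.mp h3]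

lemma HW.avg_d {v p q : ℂ → ℂ} (h : HW v p q) {t : ℝ} (ht : t < 0) :
    HasDerivAt (avg v) (avg p t + avg q t) t := by
  have hs : Set.Icc (t - 1) (t / 2) ∈ 𝓝 t := Icc_mem_nhds (by linarith) (by linarith)
  have hcpq : ContinuousOn (fun z => p z + q z) DD := h.cp.add h.cq
  have hK : IsCompact (Metric.closedBall (0:ℂ) (Real.exp (t / 2))) := isCompact_closedBall _ _
  have hKs : Metric.closedBall (0:ℂ) (Real.exp (t / 2)) ⊆ DD :=
    Metric.closedBall_subset_ball (by rw [← Real.exp_zero]; exact Real.exp_lt_exp.mpr (by linarith))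
  obtain ⟨C, hC⟩ := hK.exists_bound_of_continuousOn (hcpq.mono hKs)
  have key := intervalIntegral.hasDerivAt_integral_of_dominated_loc_of_deriv_le
    (μ := volume) (a := 0) (b := 2 * Real.pi) (F := fun t θ => v (pt t θ))
    (F' := fun t θ => p (pt t θ) + q (pt t θ)) (x₀ := t) (bound := fun _ => C) hs
    (by
      filter_upwards [Iio_mem_nhds ht] with x hx
      exact (cont_circ h.cv hx).aestronglyMeasurable)
    (ii h.cv ht _ _)
    (cont_circ hcpq ht).aestronglyMeasurable
    (ae_of_all _ fun θ _ x hx => by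
      apply hC
      rw [mem_closedBall_zero_iff, norm_pt]
      exact Real.exp_le_exp.mpr hx.2)
    intervalIntegrable_const
    (ae_of_all _ fun θ _ x hx => h.dt (by linarith [hx.2]) θ)
  have h2 := key.2.const_smul (2 * Real.pi)⁻¹
  rw [intervalIntegral.integral_add (ii h.cp ht _ _) (ii h.cq ht _ _), smul_add] at h2
  exact h2

lemma HW.avg_dp {v p q : ℂ → ℂ} (h : HW v p q) {t : ℝ} (ht : t < 0) :
    HasDerivAt (avg v) (avg (fun z => 2 * p z) t) t := by
  have h1 := h.avg_d ht
  rw [← h.avg_eq ht, ← two_mul] at h1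
  rwa [avg_cmul]

lemma HW.avg_dq {v p q : ℂ → ℂ} (h : HW v p q) {t : ℝ} (ht : t < 0) :
    HasDerivAt (avg v) (avg (fun z => 2 * q z) t) t := by
  have h1 := h.avg_d ht
  rw [h.avg_eq ht, ← two_mul] at h1
  rwa [avg_cmul]

lemma avg_tendsto {E : Type*} [NormedAddCommGroup E] [NormedSpace ℝ E] [CompleteSpace E]
    {v : ℂ → E} (hv : ContinuousOn v DD) :
    Tendsto (avg v) atBot (𝓝 (v 0)) := by
  rw [Metric.tendsto_nhds]
  intro ε hε
  have h0 : ContinuousAt v 0 := hv.continuousAt (Metric.ball_mem_nhds 0 one_pos)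
  obtain ⟨δ, hδ, h1⟩ := Metric.continuousAt_iff.mp h0 (ε / 2) (by positivity)
  have h2 : ∀ᶠ t in atBot, Real.exp t < δ := Real.tendsto_exp_atBot.eventually_lt_const hδ
  filter_upwards [h2, Iio_mem_atBot (0:ℝ)] with t ht ht0
  have ht0' : t < 0 := ht0
  have h3 : avg v t - v 0 = avg (fun z => v z - v 0) t := by
    rw [avg_sub hv continuousOn_const ht0', avg_const]
  rw [dist_eq_norm, h3]
  unfold avg
  rw [norm_smul, norm_inv, Real.norm_of_nonneg (by positivity)]
  have h4 : ‖∫ θ in (0:ℝ)..(2 * Real.pi), v (pt t θ) - v 0‖ ≤ ε / 2 * |2 * Real.pi - 0| := by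
    apply intervalIntegral.norm_integral_le_of_norm_le_const
    intro θ _
    rw [← dist_eq_norm]
    apply le_of_lt
    apply h1
    rw [dist_zero_right, norm_pt]
    exact ht
  rw [sub_zero, abs_of_pos (by positivity)] at h4
  calc (2 * Real.pi)⁻¹ * _ ≤ (2 * Real.pi)⁻¹ * (ε / 2 * (2 * Real.pi)) := by gcongr
    _ = ε / 2 := by field_simp
    _ < ε := by linarith

end Pool.Agent.V113.KR
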