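import Mathlib

/-! The pointwise inequality between Laplacians. -/

namespace Pool.Agent.V113.KR

/-- the Laplacian of `W^α Y^β` with `W = x + ε`, `Y = y + 1`, `x = |f|²`, `y = |g|²`, `X = |f'|²`,
`Z = |g'|²` and `ρ = Re (f conj f' conj g g')` -/
noncomputable def Lp (α β ε x y X Z ρ : ℝ) : ℝ :=
  4 * (x + ε) ^ (α - 2) * (y + 1) ^ (β - 2) *
    (α * (y + 1) ^ 2 * X * (α * x + ε) + β * (x + ε) ^ 2 * Z * (β * y + 1) +
      2 * α * β * (x + ε) * (y + 1) * ρ)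

lemma lp_nonneg {α β ε x y X Z ρ : ℝ} (hα : 0 ≤ α) (hβ : 0 ≤ β) (hε : 0 < ε) (hx : 0 ≤ x)
    (hy : 0 ≤ y) (hX : 0 ≤ X) (hZ : 0 ≤ Z) (hρ : ρ ^ 2 ≤ x * X * (y * Z)) :
    0 ≤ Lp α β ε x y X Z ρ := by
  unfold Lp
  apply mul_nonneg (by positivity)
  set s1 := α * (y + 1) ^ 2 * X * (α * x + ε) with hs1
  set s2 := β * (x + ε) ^ 2 * Z * (β * y + 1) with hs2
  have h1 : 0 ≤ s1 := by positivity
  have h2 : 0 ≤ s2 := by positivity
  have h3 : (2 * α * β * (x + ε) * (y + 1) * ρ) ^ 2 ≤ 4 * (s1 * s2) := by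
    have e1 : α * (y + 1) ^ 2 * X * (α * x) ≤ s1 := by
      rw [hs1]
      gcongr
      linarith
    have e2 : β * (x + ε) ^ 2 * Z * (β * y) ≤ s2 := by
      rw [hs2]
      gcongr
      linarith
    have e3 := mul_le_mul e1 e2 (by positivity) h1
    have e4 : (2 * α * β * (x + ε) * (y + 1)) ^ 2 * ρ ^ 2 ≤
        (2 * α * β * (x + ε) * (y + 1)) ^ 2 * (x * X * (y * Z)) := by gcongr
    nlinarith
  have h4 : |2 * α * β * (x + ε) * (y + 1) * ρ| ≤ s1 + s2 := by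
    apply abs_le_of_sq_le_sq _ (by positivity)
    nlinarith [sq_nonneg (s1 - s2)]
  linarith [(abs_le.mp h4).1]

/-- the inequality -/
lemma key_pt {a q₁ p₁ ε x y X Z ρ : ℝ} (ha : 0 < a) (hq : 1 < q₁) (hp : p₁ = q₁ / (q₁ - 1))
    (hε : 0 < ε) (hx : 0 ≤ x) (hy : 0 ≤ y) (hX : 0 ≤ X) (hZ : 0 ≤ Z)
    (hρ : ρ ^ 2 ≤ x * X * (y * Z)) :
    (y + 1) ^ (1 / 2 : ℝ) * (4 * a * (x + ε) ^ (a - 2) * X * (a * x + ε)) ≤
      4 * (Lp a (1 / 2) ε x y X Z ρ + Lp (a * q₁) 0 ε x y X Z ρ + Lp 0 (p₁ / 2) ε x y X Z ρ) := by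
  have hW : 0 < x + ε := by linarith
  have hY : 0 < y + 1 := by linarith
  have hp1 : 1 < p₁ := by
    rw [hp, lt_div_iff₀ (by linarith)]
    linarith
  have n1 : 0 ≤ Lp a (1 / 2) ε x y X Z ρ := lp_nonneg ha.le (by norm_num) hε hx hy hX hZ hρ
  have n2 : 0 ≤ Lp (a * q₁) 0 ε x y X Z ρ := lp_nonneg (by positivity) le_rfl hε hx hy hX hZ hρ
  have n3 : 0 ≤ Lp 0 (p₁ / 2) ε x y X Z ρ := lp_nonneg le_rfl (by positivity) hε hx hy hX hZ hρ
  set P := 4 * a * (x + ε) ^ (a - 2) * X * (a * x + ε) with hP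
  set G := (y + 1) ^ (1 / 2 : ℝ) with hG
  set U := (x + ε) ^ a with hU
  set Q := 2 * (y + 1) ^ (-(3 / 2) : ℝ) * Z * (y / 2 + 1) with hQ
  have hG0 : 0 < G := Real.rpow_pos_of_pos hY _
  have hU0 : 0 < U := Real.rpow_pos_of_pos hW _
  have hP0 : 0 ≤ P := by positivity
  have hQ0 : 0 ≤ Q := by positivity
  -- the two comparison terms
  have c2 : U ^ (q₁ - 1) * P ≤ Lp (a * q₁) 0 ε x y X Z ρ := by
    have e1 : U ^ (q₁ - 1) * (x + ε) ^ (a - 2) = (x + ε) ^ (a * q₁ - 2) := by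
      rw [hU, ← Real.rpow_mul hW.le, ← Real.rpow_add hW]
      congr 1
      ring
    have e2 : (y + 1) ^ ((0:ℝ) - 2) * (y + 1) ^ 2 = 1 := by
      rw [← Real.rpow_natCast, ← Real.rpow_add hY]
      norm_num
    have e3 : Lp (a * q₁) 0 ε x y X Z ρ =
        4 * (x + ε) ^ (a * q₁ - 2) * ((a * q₁) * X * (a * q₁ * x + ε)) := by
      unfold Lp
      linear_combination (4 * (x + ε) ^ (a * q₁ - 2) * ((a * q₁) * X * (a * q₁ * x + ε))) * e2
    have e4 : U ^ (q₁ - 1) * P = 4 * (x + ε) ^ (a * q₁ - 2) * (a * X * (a * x + ε)) := by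
      rw [hP, ← e1]
      ring
    rw [e3, e4]
    have e5 : a ≤ a * q₁ := by nlinarith
    gcongr
  have c3 : G ^ (p₁ - 1) * Q ≤ Lp 0 (p₁ / 2) ε x y X Z ρ := by
    have e1 : G ^ (p₁ - 1) * (y + 1) ^ (-(3 / 2) : ℝ) = (y + 1) ^ (p₁ / 2 - 2) := by
      rw [hG, ← Real.rpow_mul hY.le, ← Real.rpow_add hY]
      congr 1
      ring
    have e2 : (x + ε) ^ ((0:ℝ) - 2) * (x + ε) ^ 2 = 1 := by
      rw [← Real.rpow_natCast, ← Real.rpow_add hW]
      norm_num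
    have e3 : Lp 0 (p₁ / 2) ε x y X Z ρ =
        4 * (y + 1) ^ (p₁ / 2 - 2) * ((p₁ / 2) * Z * (p₁ / 2 * y + 1)) := by
      unfold Lp
      linear_combination (4 * (y + 1) ^ (p₁ / 2 - 2) * ((p₁ / 2) * Z * (p₁ / 2 * y + 1))) * e2
    have e4 : G ^ (p₁ - 1) * Q = 4 * (y + 1) ^ (p₁ / 2 - 2) * ((1 / 2) * Z * (1 / 2 * y + 1)) := by
      rw [hQ, ← e1]
      ring
    rw [e3, e4]
    have e5 : (1:ℝ) / 2 ≤ p₁ / 2 := by linarith
    gcongr
  by_cases h1 : U * Q ≤ G * P / 4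
  · -- first case
    set c := 4 * (x + ε) ^ (a - 2) * (y + 1) ^ ((1:ℝ) / 2 - 2) with hc
    set s1 := a * (y + 1) ^ 2 * X * (a * x + ε) with hs1
    set s2 := 1 / 2 * (x + ε) ^ 2 * Z * (1 / 2 * y + 1) with hs2
    have hc0 : 0 < c := by positivity
    have k1 : 0 ≤ s1 := by positivity
    have k2 : 0 ≤ s2 := by positivity
    have f1 : G * P = c * s1 := by
      have e : (y + 1) ^ ((1:ℝ) / 2) = (y + 1) ^ ((1:ℝ) / 2 - 2) * (y + 1) ^ 2 := by
        rw [← Real.rpow_natCast, ← Real.rpow_add hY]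
        norm_num
      rw [hG, hP, hc, hs1, e]
      ring
    have f2 : U * Q = c * s2 := by
      have e : (x + ε) ^ a = (x + ε) ^ (a - 2) * (x + ε) ^ 2 := by
        rw [← Real.rpow_natCast, ← Real.rpow_add hW]
        norm_num
      have e' : (y + 1) ^ (-(3 / 2) : ℝ) = (y + 1) ^ ((1:ℝ) / 2 - 2) := by norm_num
      rw [hU, hQ, hc, hs2, e, e']
      ring
    have f3 : Lp a (1 / 2) ε x y X Z ρ = c * (s1 + s2 + 2 * a * (1 / 2) * (x + ε) * (y + 1) * ρ) := by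
      rw [hc, hs1, hs2]
      unfold Lp
      ring
    have f4 : s2 ≤ s1 / 4 := by
      rw [f1, f2] at h1
      have : c * s2 ≤ c * (s1 / 4) := by linarith
      exact le_of_mul_le_mul_left this hc0
    have f5 : (2 * a * (1 / 2) * (x + ε) * (y + 1) * ρ) ^ 2 ≤ 4 * (s1 * s2) := by
      have e1 : a * (y + 1) ^ 2 * X * (a * x) ≤ s1 := by
        rw [hs1]
        gcongr
        linarith
      have e2 : 1 / 2 * (x + ε) ^ 2 * Z * (1 / 2 * y) ≤ s2 := by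
        rw [hs2]
        gcongr
        linarith
      have e3 := mul_le_mul e1 e2 (by positivity) k1
      have e4 : (2 * a * (1 / 2) * (x + ε) * (y + 1)) ^ 2 * ρ ^ 2 ≤
          (2 * a * (1 / 2) * (x + ε) * (y + 1)) ^ 2 * (x * X * (y * Z)) := by gcongr
      nlinarith
    have f6 : |2 * a * (1 / 2) * (x + ε) * (y + 1) * ρ| ≤ 3 / 4 * s1 + s2 := by
      apply abs_le_of_sq_le_sq _ (by positivity)
      have g1 : 0 ≤ (s1 / 4 - s2) * (9 / 4 * s1 - s2) :=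
        mul_nonneg (by linarith) (by linarith)
      nlinarith
    have f7 := (abs_le.mp f6).1
    have f8 : c * (s1 / 4) ≤ Lp a (1 / 2) ε x y X Z ρ := by
      rw [f3]
      gcongr
      linarith
    rw [f1]
    linarith
  · push Not at h1
    by_cases h2 : G ≤ U ^ (q₁ - 1)
    · have : G * P ≤ U ^ (q₁ - 1) * P := by gcongr
      have h0 : 0 ≤ U ^ (q₁ - 1) * P := by positivity
      linarith
    · push Not at h2
      have h3 : U ≤ G ^ (p₁ - 1) := by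
        have e1 : (U ^ (q₁ - 1)) ^ (p₁ - 1) = U := by
          rw [← Real.rpow_mul hU0.le]
          have : (q₁ - 1) * (p₁ - 1) = 1 := by
            rw [hp]
            have : q₁ - 1 ≠ 0 := by linarith
            field_simp
            ring
          rw [this, Real.rpow_one]
        rw [← e1]
        apply Real.rpow_le_rpow (by positivity) h2.le (by linarith)
      have h4 : U * Q ≤ G ^ (p₁ - 1) * Q := by gcongr
      linarith

end Pool.Agent.V113.KR
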