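import Pool.Agent.V113.KR.A
import Pool.Agent.V113.KR.B

/-! The Laplacians of the auxiliary functions. -/

open MeasureTheory Set Filter Topology Complex
open scoped ComplexConjugate

namespace Pool.Agent.V113.KR

/-- `z F'(z)` -/
noncomputable def D1 (F : ℂ → ℂ) (z : ℂ) : ℂ := z * deriv F z

lemma D1_diff {F : ℂ → ℂ} (hF : DifferentiableOn ℂ F DD) : DifferentiableOn ℂ (D1 F) DD :=
  differentiableOn_id.mul (hF.deriv Metric.isOpen_ball)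

lemma HW_W {F : ℂ → ℂ} (hF : DifferentiableOn ℂ F DD) (ε : ℝ) :
    HW (fun z => ((‖F z‖ ^ 2 + ε : ℝ) : ℂ)) (fun z => D1 F z * conj (F z))
      (fun z => F z * conj (D1 F z)) := by
  have h1 := ((HW.analytic hF).mul (HW.analytic hF).conj).add (HW.const (ε : ℂ))
  have h2 : (fun z => ((‖F z‖ ^ 2 + ε : ℝ) : ℂ)) = fun z => F z * conj (F z) + (ε : ℂ) := by
    funext z
    rw [Complex.mul_conj']
    push_cast
    rfl
  rw [h2]
  refine h1.congr (fun z _ => ?_) fun z _ => ?_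
  · unfold D1
    simp
  · unfold D1
    simp

section
variable (F g : ℂ → ℂ) (ε : ℝ)

/-- `W = |F|² + ε` -/
noncomputable def WW (z : ℂ) : ℝ := ‖F z‖ ^ 2 + ε

/-- the Laplacian of `W^α Y^β` -/
noncomputable def Lap (α β : ℝ) (z : ℂ) : ℝ :=
  Lp α β ε (‖F z‖ ^ 2) (‖g z‖ ^ 2) (‖D1 F z‖ ^ 2) (‖D1 g z‖ ^ 2)
    ((F z * conj (D1 F z) * (conj (g z) * D1 g z)).re)

/-- the function `W^α Y^β` -/
noncomputable def VV (α β : ℝ) (z : ℂ) : ℝ := WW F ε z ^ α * WW g 1 z ^ β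

/-- twice its `∂̄` derivative -/
noncomputable def QQ (α β : ℝ) (z : ℂ) : ℂ :=
  2 * (((α * WW F ε z ^ (α - 1) : ℝ) * (F z * conj (D1 F z))) * ((WW g 1 z ^ β : ℝ) : ℂ) +
    ((WW F ε z ^ α : ℝ) : ℂ) * ((β * WW g 1 z ^ (β - 1) : ℝ) * (g z * conj (D1 g z))))

end

variable {F g : ℂ → ℂ} {ε : ℝ}

lemma WW_pos (hε : 0 < ε) (z : ℂ) : 0 < WW F ε z := by
  unfold WW
  positivity

lemma HW_V (hF : DifferentiableOn ℂ F DD) (hg : DifferentiableOn ℂ g DD) (hε : 0 < ε) (α β : ℝ) :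
    ∃ p, HW (fun z => ((VV F g ε α β z : ℝ) : ℂ)) p (fun z => QQ F g ε α β z / 2) := by
  have h1 := (HW.rpow (HW_W hF ε) (WW_pos (F := F) hε) α).mul
    (HW.rpow (HW_W hg 1) (WW_pos (F := g) one_pos) β)
  have h2 : (fun z => ((VV F g ε α β z : ℝ) : ℂ)) =
      fun z => (((‖F z‖ ^ 2 + ε) ^ α : ℝ) : ℂ) * (((‖g z‖ ^ 2 + 1) ^ β : ℝ) : ℂ) := by
    funext z
    unfold VV WW
    push_cast
    rfl
  rw [h2]
  refine ⟨_, h1.congr (fun z _ => rfl) fun z _ => ?_⟩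
  unfold QQ WW
  ring

lemma HW_Q (hF : DifferentiableOn ℂ F DD) (hg : DifferentiableOn ℂ g DD) (hε : 0 < ε) (α β : ℝ) :
    ∃ q, HW (QQ F g ε α β) (fun z => ((Lap F g ε α β z : ℝ) : ℂ) / 2) q := by
  have hW := fun γ => HW.rpow (HW_W hF ε) (WW_pos (F := F) hε) γ
  have hY := fun γ => HW.rpow (HW_W hg 1) (WW_pos (F := g) one_pos) γ
  have hf := (HW.analytic hF).mul (HW.analytic (D1_diff hF)).conj
  have hgg := (HW.analytic hg).mul (HW.analytic (D1_diff hg)).conj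
  have h1 := ((((hW (α - 1)).cmul (α : ℂ)).mul hf).mul (hY β)).add
    ((hW α).mul (((hY (β - 1)).cmul (β : ℂ)).mul hgg)) |>.cmul 2
  have h2 : QQ F g ε α β = fun z => 2 * (
      ((α : ℂ) * (((‖F z‖ ^ 2 + ε) ^ (α - 1) : ℝ) : ℂ)) * (F z * conj (D1 F z)) *
        (((‖g z‖ ^ 2 + 1) ^ β : ℝ) : ℂ) + (((‖F z‖ ^ 2 + ε) ^ α : ℝ) : ℂ) *
        (((β : ℂ) * (((‖g z‖ ^ 2 + 1) ^ (β - 1) : ℝ) : ℂ)) * (g z * conj (D1 g z)))) := by
    funext z
    unfold QQ WW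
    push_cast
    rfl
  rw [h2]
  refine ⟨_, h1.congr (fun z _ => ?_) fun z _ => rfl⟩
  have hWp : 0 < ‖F z‖ ^ 2 + ε := by positivity
  have hYp : 0 < ‖g z‖ ^ 2 + 1 := by positivity
  have hx : ((‖F z‖ ^ 2 : ℝ) : ℂ) = F z * conj (F z) := by rw [Complex.mul_conj']; push_cast; rfl
  have hy : ((‖g z‖ ^ 2 : ℝ) : ℂ) = g z * conj (g z) := by rw [Complex.mul_conj']; push_cast; rfl
  have hX : ((‖D1 F z‖ ^ 2 : ℝ) : ℂ) = D1 F z * conj (D1 F z) := by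
    rw [Complex.mul_conj']; push_cast; rfl
  have hZ : ((‖D1 g z‖ ^ 2 : ℝ) : ℂ) = D1 g z * conj (D1 g z) := by
    rw [Complex.mul_conj']; push_cast; rfl
  have hρ : (((F z * conj (D1 F z) * (conj (g z) * D1 g z)).re : ℝ) : ℂ) =
      (F z * conj (D1 F z) * (conj (g z) * D1 g z) +
        conj (F z) * D1 F z * (g z * conj (D1 g z))) / 2 := by
    rw [Complex.re_eq_add_conj]
    simp only [map_mul, Complex.conj_conj]
  have r1 : ∀ (w : ℝ), 0 < w → ∀ γ : ℝ, w ^ γ = w ^ (γ - 2) * w ^ 2 := by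
    intro w hw γ
    rw [← Real.rpow_natCast w 2, ← Real.rpow_add hw]
    norm_num
  have r2 : ∀ (w : ℝ), 0 < w → ∀ γ : ℝ, w ^ (γ - 1) = w ^ (γ - 2) * w := by
    intro w hw γ
    conv_rhs => rw [← Real.rpow_one w, ← Real.rpow_mul hw.le, mul_comm (1:ℝ), mul_one]
    rw [← Real.rpow_add hw]
    congr 1
    ring
  have r3 : ∀ γ : ℝ, γ - 1 - 1 = γ - 2 := fun γ => by ring
  have eL : ((Lap F g ε α β z : ℝ) : ℂ) = 4 * (((‖F z‖ ^ 2 + ε) ^ (α - 2) : ℝ) : ℂ) *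
      (((‖g z‖ ^ 2 + 1) ^ (β - 2) : ℝ) : ℂ) *
      (α * (g z * conj (g z) + 1) ^ 2 * (D1 F z * conj (D1 F z)) * (α * (F z * conj (F z)) + ε) +
        β * (F z * conj (F z) + ε) ^ 2 * (D1 g z * conj (D1 g z)) * (β * (g z * conj (g z)) + 1) +
        2 * α * β * (F z * conj (F z) + ε) * (g z * conj (g z) + 1) *
        ((F z * conj (D1 F z) * (conj (g z) * D1 g z) +
        conj (F z) * D1 F z * (g z * conj (D1 g z))) / 2)) := by
    rw [← hρ, ← hx, ← hy, ← hX, ← hZ]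
    unfold Lap Lp
    push_cast
    rfl
  rw [eL]
  simp only [r3, mul_zero, map_zero, add_zero, zero_add]
  rw [r1 _ hWp α, r1 _ hYp β, r2 _ hWp α, r2 _ hYp β]
  have hw : ((‖F z‖ ^ 2 + ε : ℝ) : ℂ) = F z * conj (F z) + ε := by rw [Complex.ofReal_add, hx]
  have hyy : ((‖g z‖ ^ 2 + 1 : ℝ) : ℂ) = g z * conj (g z) + 1 := by
    rw [Complex.ofReal_add, hy, Complex.ofReal_one]
  simp only [Complex.ofReal_mul, Complex.ofReal_pow, hw, hyy, Complex.ofReal_sub,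
    Complex.ofReal_one]
  unfold D1
  ring

end Pool.Agent.V113.KR
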