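import Pool.Agent.V113.KR.C

/-! The one dimensional inequality. -/

open MeasureTheory Set Filter Topology Complex
open scoped ComplexConjugate

namespace Pool.Agent.V113.KR

variable {F g : ℂ → ℂ} {ε : ℝ}

/-- the conjugate of `|F|^(p-2) F`, regularised -/
noncomputable def Ub (F : ℂ → ℂ) (ε b : ℝ) (z : ℂ) : ℂ := ((WW F ε z ^ b : ℝ) : ℂ) * conj (F z)

/-- twice the holomorphic derivative of `Ub` times `g` -/
noncomputable def V2 (F g : ℂ → ℂ) (ε b : ℝ) (z : ℂ) : ℂ :=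
  2 * b * (g z * D1 F z * ((WW F ε z ^ (b - 1) : ℝ) * (conj (F z) * conj (F z))))

/-- the Laplacian term -/
noncomputable def EE (F g : ℂ → ℂ) (ε b : ℝ) (z : ℂ) : ℂ :=
  4 * b * (g z * D1 F z * (((((b - 1) * WW F ε z ^ (b - 2) : ℝ) : ℂ) * (F z * conj (D1 F z))) *
    (conj (F z) * conj (F z)) + (WW F ε z ^ (b - 1) : ℝ) * (2 * (conj (F z) * conj (D1 F z)))))

lemma HW_Ub (hF : DifferentiableOn ℂ F DD) (hε : 0 < ε) (b : ℝ) :
    HW (Ub F ε b) (fun z => ((b * WW F ε z ^ (b - 1) : ℝ) * (D1 F z * conj (F z))) * conj (F z))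
      (fun z => ((b * WW F ε z ^ (b - 1) : ℝ) * (F z * conj (D1 F z))) * conj (F z) +
        ((WW F ε z ^ b : ℝ) : ℂ) * conj (D1 F z)) := by
  have h1 := (HW.rpow (HW_W hF ε) (WW_pos (F := F) hε) b).mul (HW.analytic hF).conj
  refine h1.congr (fun z _ => ?_) fun z _ => ?_
  · simp only [WW, map_zero, mul_zero, add_zero]
  · simp only [WW, D1]

lemma HW_V1 (hF : DifferentiableOn ℂ F DD) (hg : DifferentiableOn ℂ g DD) (hε : 0 < ε) (b : ℝ) :
    ∃ q, HW (fun z => g z * Ub F ε b z) (fun z => D1 g z * Ub F ε b z + V2 F g ε b z / 2) q := by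
  have h1 := (HW.analytic hg).mul (HW_Ub hF hε b)
  refine ⟨_, h1.congr (fun z _ => ?_) fun z _ => rfl⟩
  simp only [V2, D1]
  push_cast
  ring

lemma HW_V2 (hF : DifferentiableOn ℂ F DD) (hg : DifferentiableOn ℂ g DD) (hε : 0 < ε) (b : ℝ) :
    ∃ p, HW (V2 F g ε b) p (fun z => EE F g ε b z / 2) := by
  have hc := (HW.analytic hF).conj
  have h1 := (((HW.analytic hg).mul (HW.analytic (D1_diff hF))).mul
    ((HW.rpow (HW_W hF ε) (WW_pos (F := F) hε) (b - 1)).mul (hc.mul hc))).cmul (2 * b)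
  refine ⟨_, h1.congr (fun z _ => rfl) fun z _ => ?_⟩
  simp only [EE, WW, D1, map_zero, mul_zero, zero_mul, zero_add]
  have r3 : b - 1 - 1 = b - 2 := by ring
  rw [r3]
  push_cast
  ring

/-- the sum of the three Laplacians -/
noncomputable def LL (F g : ℂ → ℂ) (ε a q₁ p₁ : ℝ) (z : ℂ) : ℝ :=
  Lap F g ε a (1 / 2) z + Lap F g ε (a * q₁) 0 z + Lap F g ε 0 (p₁ / 2) z

/-- the sum of the three functions -/
noncomputable def HH (F g : ℂ → ℂ) (ε a q₁ p₁ : ℝ) (z : ℂ) : ℝ :=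
  VV F g ε a (1 / 2) z + VV F g ε (a * q₁) 0 z + VV F g ε 0 (p₁ / 2) z

lemma EE_le {a q₁ p₁ b : ℝ} (ha : 0 < a) (hb : b = a - 1 / 2) (hq : 1 < q₁)
    (hp : p₁ = q₁ / (q₁ - 1)) (hε : 0 < ε) (z : ℂ) :
    ‖EE F g ε b z‖ ≤ 4 * |b| * (|b| + 3) / (min a 1 * a) * LL F g ε a q₁ p₁ z := by
  have hκ : 0 < min a 1 := lt_min ha one_pos
  set W := WW F ε z with hW
  have hWp : 0 < W := WW_pos hε z
  set x := ‖F z‖ ^ 2 with hx
  set y := ‖g z‖ ^ 2 with hy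
  set X := ‖D1 F z‖ ^ 2 with hX
  have hWx : W = x + ε := rfl
  have key := key_pt (a := a) (q₁ := q₁) (p₁ := p₁) (ε := ε) (x := x) (y := y) (X := X)
    (Z := ‖D1 g z‖ ^ 2) (ρ := (F z * conj (D1 F z) * (conj (g z) * D1 g z)).re) ha hq hp hε
    (by positivity) (by positivity) (by positivity) (by positivity) (by
      have h1 := Complex.abs_re_le_norm (F z * conj (D1 F z) * (conj (g z) * D1 g z))
      have h2 := pow_le_pow_left₀ (abs_nonneg _) h1 2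
      rw [sq_abs] at h2
      refine h2.trans (le_of_eq ?_)
      simp only [norm_mul, RCLike.norm_conj]
      rw [hx, hX, hy]
      ring)
  have key' : (y + 1) ^ (1 / 2 : ℝ) * (4 * a * W ^ (a - 2) * X * (a * x + ε)) ≤
      4 * LL F g ε a q₁ p₁ z := key
  -- the bound of EE
  have e1 : ‖EE F g ε b z‖ ≤ 4 * |b| * (‖g z‖ * ‖D1 F z‖ * ((|b| + 3) * W ^ (b - 1) *
      (‖F z‖ * ‖D1 F z‖))) := by
    unfold EE
    rw [norm_mul, norm_mul, norm_mul, norm_mul]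
    have e0 : ‖(4:ℂ)‖ = 4 := by norm_num
    rw [e0, Complex.norm_real, Real.norm_eq_abs]
    gcongr
    refine (norm_add_le _ _).trans ?_
    simp only [norm_mul, RCLike.norm_conj, Complex.norm_real, Real.norm_eq_abs]
    rw [← hW, abs_of_pos (Real.rpow_pos_of_pos hWp (b - 2)), abs_of_pos (Real.rpow_pos_of_pos hWp (b - 1))]
    have e2 : ‖(2:ℂ)‖ = 2 := by norm_num
    rw [e2]
    have e3 : W ^ (b - 1) = W ^ (b - 2) * W := by
      conv_rhs => rw [← Real.rpow_one W, ← Real.rpow_mul hWp.le, mul_comm (1:ℝ), mul_one]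
      rw [← Real.rpow_add hWp]
      congr 1
      ring
    have e4 : W ^ (b - 2) * (‖F z‖ * ‖F z‖) ≤ W ^ (b - 1) := by
      rw [e3]
      gcongr
      rw [hWx, hx]
      nlinarith
    have e5 : |b - 1| ≤ |b| + 1 := by
      refine (abs_sub _ _).trans ?_
      rw [abs_one]
    have e6 : |b - 1| * (W ^ (b - 2) * (‖F z‖ * ‖F z‖)) ≤ (|b| + 1) * W ^ (b - 1) := by gcongr
    have e7 : 0 ≤ ‖F z‖ * ‖D1 F z‖ := by positivity
    have e8 := mul_le_mul_of_nonneg_right e6 e7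
    nlinarith
  have e2 : ‖F z‖ ≤ W ^ (1 / 2 : ℝ) := by
    rw [← Real.sqrt_eq_rpow]
    apply Real.le_sqrt_of_sq_le
    rw [hWx, hx]
    linarith
  have e3 : ‖g z‖ ≤ (y + 1) ^ (1 / 2 : ℝ) := by
    rw [← Real.sqrt_eq_rpow]
    apply Real.le_sqrt_of_sq_le
    rw [hy]
    linarith
  have e4 : W ^ (b - 1) * W ^ (1 / 2 : ℝ) = W ^ (a - 2) * W := by
    conv_rhs => rw [← Real.rpow_one W, ← Real.rpow_mul hWp.le, mul_comm (1:ℝ), mul_one]
    rw [← Real.rpow_add hWp, ← Real.rpow_add hWp]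
    congr 1
    rw [hb]
    ring
  have e5 : min a 1 * W ≤ a * x + ε := by
    rw [hWx, mul_add]
    have : min a 1 * x ≤ a * x := by gcongr; exact min_le_left _ _
    have : min a 1 * ε ≤ 1 * ε := by gcongr; exact min_le_right _ _
    linarith
  have e6 : ‖EE F g ε b z‖ ≤ 4 * |b| * (|b| + 3) * ((y + 1) ^ (1 / 2 : ℝ) * (X * (W ^ (a - 2) * W))) := by
    refine e1.trans ?_
    rw [← e4]
    have : ‖g z‖ * ‖D1 F z‖ * ((|b| + 3) * W ^ (b - 1) * (‖F z‖ * ‖D1 F z‖)) ≤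
        (y + 1) ^ (1 / 2 : ℝ) * ‖D1 F z‖ * ((|b| + 3) * W ^ (b - 1) * (W ^ (1 / 2 : ℝ) * ‖D1 F z‖)) := by
      gcongr
    calc _ ≤ 4 * |b| * ((y + 1) ^ (1 / 2 : ℝ) * ‖D1 F z‖ * ((|b| + 3) * W ^ (b - 1) *
          (W ^ (1 / 2 : ℝ) * ‖D1 F z‖))) := by gcongr
      _ = _ := by rw [hX]; ring
  have e7 : W ≤ (a * x + ε) / min a 1 := by
    rw [le_div_iff₀ hκ]
    linarith
  have e8 : (y + 1) ^ (1 / 2 : ℝ) * (X * (W ^ (a - 2) * W)) ≤
      LL F g ε a q₁ p₁ z / (min a 1 * a) := by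
    rw [le_div_iff₀ (by positivity)]
    have : (y + 1) ^ (1 / 2 : ℝ) * (X * (W ^ (a - 2) * W)) ≤
        (y + 1) ^ (1 / 2 : ℝ) * (X * (W ^ (a - 2) * ((a * x + ε) / min a 1))) := by gcongr
    calc _ ≤ (y + 1) ^ (1 / 2 : ℝ) * (X * (W ^ (a - 2) * ((a * x + ε) / min a 1))) * (min a 1 * a) := by
          gcongr
      _ = ((y + 1) ^ (1 / 2 : ℝ) * (4 * a * W ^ (a - 2) * X * (a * x + ε))) / 4 := by
          field_simp
      _ ≤ _ := by linarith
  calc ‖EE F g ε b z‖ ≤ 4 * |b| * (|b| + 3) * (LL F g ε a q₁ p₁ z / (min a 1 * a)) := by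
        refine e6.trans ?_
        gcongr
    _ = _ := by ring

end Pool.Agent.V113.KR
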