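import Pool.Agent.V113.KR.D
import Pool.Agent.H758R2.Besov.Polar

/-! The inequality for balls. -/

open MeasureTheory Set Filter Topology Complex
open scoped ComplexConjugate

namespace Pool.Agent.V113.KR

lemma avg_contOn {E : Type*} [NormedAddCommGroup E] [NormedSpace ℝ E] {v : ℂ → E}
    (hv : ContinuousOn v DD) : ContinuousOn (avg v) (Iio 0) := by
  intro t ht
  have ht' : t < 0 := ht
  apply ContinuousAt.continuousWithinAt
  have hs : Set.Icc (t - 1) (t / 2) ∈ 𝓝 t := Icc_mem_nhds (by linarith) (by linarith)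
  have hK : IsCompact (Metric.closedBall (0:ℂ) (Real.exp (t / 2))) := isCompact_closedBall _ _
  have hKs : Metric.closedBall (0:ℂ) (Real.exp (t / 2)) ⊆ DD :=
    Metric.closedBall_subset_ball (by rw [← Real.exp_zero]; exact Real.exp_lt_exp.mpr (by linarith))
  obtain ⟨C, hC⟩ := hK.exists_bound_of_continuousOn (hv.mono hKs)
  have h1 : ContinuousAt (fun t => ∫ θ in (0:ℝ)..(2 * Real.pi), v (pt t θ)) t := by
    apply intervalIntegral.continuousAt_of_dominated_interval (bound := fun _ => C)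
    · filter_upwards [Iio_mem_nhds ht'] with x hx
      exact (cont_circ hv hx).aestronglyMeasurable
    · filter_upwards [hs] with x hx
      refine ae_of_all _ fun θ _ => ?_
      apply hC
      rw [mem_closedBall_zero_iff, norm_pt]
      exact Real.exp_le_exp.mpr hx.2
    · exact intervalIntegrable_const
    · refine ae_of_all _ fun θ _ => ?_
      have h2 : ContinuousAt v (pt t θ) := hv.continuousAt (Metric.isOpen_ball.mem_nhds (pt_mem ht' θ))
      have h3 : ContinuousAt (fun x : ℝ => pt x θ) t := by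
        unfold pt
        fun_prop
      exact ContinuousAt.comp (f := fun x : ℝ => pt x θ) h2 h3
  exact h1.const_smul _

lemma int_real {A J L : ℝ → ℝ} (hA : ∀ t < 0, HasDerivAt A (J t) t)
    (hJ : ∀ t < 0, HasDerivAt J (L t) t) (hL : ContinuousOn L (Iio 0)) (hA0 : ∀ t < 0, 0 ≤ A t)
    {T1 T0 : ℝ} (h : T1 ≤ T0) (h0 : T0 < 0) :
    ∫ t in T1..T0, (Real.exp (2 * T0) - Real.exp (2 * t)) * L t ≤
      2 * Real.exp (2 * T0) * A T0 -
        ((Real.exp (2 * T0) - Real.exp (2 * T1)) * J T1 + 2 * Real.exp (2 * T1) * A T1) := by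
  have hsub : uIcc T1 T0 ⊆ Iio 0 := by
    rw [uIcc_of_le h]
    intro x hx
    exact lt_of_le_of_lt hx.2 h0
  have hex : ∀ t : ℝ, HasDerivAt (fun t => Real.exp (2 * t)) (2 * Real.exp (2 * t)) t := by
    intro t
    have := ((hasDerivAt_id t).const_mul 2).exp
    simpa [mul_comm] using this
  have hd : ∀ t ∈ uIcc T1 T0, HasDerivAt
      (fun t => (Real.exp (2 * T0) - Real.exp (2 * t)) * J t + 2 * Real.exp (2 * t) * A t)
      ((Real.exp (2 * T0) - Real.exp (2 * t)) * L t + 4 * Real.exp (2 * t) * A t) t := by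
    intro t ht
    have ht0 : t < 0 := hsub ht
    have h1 := (((hex t).const_sub (Real.exp (2 * T0))).mul (hJ t ht0)).add
      (((hex t).const_mul 2).mul (hA t ht0))
    exact h1.congr_deriv (by ring)
  have hcA : ContinuousOn A (Iio 0) := fun t ht => (hA t ht).continuousAt.continuousWithinAt
  have hc1 : ContinuousOn (fun t => (Real.exp (2 * T0) - Real.exp (2 * t)) * L t) (uIcc T1 T0) := by
    apply ContinuousOn.mul (by fun_prop) (hL.mono hsub)
  have hc2 : ContinuousOn (fun t => 4 * Real.exp (2 * t) * A t) (uIcc T1 T0) := by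
    apply ContinuousOn.mul (by fun_prop) (hcA.mono hsub)
  have h2 := intervalIntegral.integral_eq_sub_of_hasDerivAt hd
    (hc1.add hc2).intervalIntegrable
  have h3 : ∫ t in T1..T0, (Real.exp (2 * T0) - Real.exp (2 * t)) * L t ≤
      ∫ t in T1..T0, ((Real.exp (2 * T0) - Real.exp (2 * t)) * L t + 4 * Real.exp (2 * t) * A t) := by
    apply intervalIntegral.integral_mono_on h hc1.intervalIntegrable (hc1.add hc2).intervalIntegrable
    intro t ht
    have : 0 ≤ A t := hA0 t (lt_of_le_of_lt ht.2 h0)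
    have : 0 ≤ 4 * Real.exp (2 * t) * A t := by positivity
    change (Real.exp (2 * T0) - Real.exp (2 * t)) * L t ≤
      (Real.exp (2 * T0) - Real.exp (2 * t)) * L t + 4 * Real.exp (2 * t) * A t
    linarith
  rw [h2] at h3
  simp only [sub_self, zero_mul, zero_add] at h3
  exact h3

lemma int_cx {A n J E : ℝ → ℂ} (hA : ∀ t < 0, HasDerivAt A (2 * n t + J t) t)
    (hJ : ∀ t < 0, HasDerivAt J (E t) t) (hn : ContinuousOn n (Iio 0)) (hE : ContinuousOn E (Iio 0))
    {T1 T0 : ℝ} (h : T1 ≤ T0) (h0 : T0 < 0) :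
    ∫ t in T1..T0, (2 * Real.exp (2 * t) : ℝ) • (A t + n t) =
      (Real.exp (2 * T0) : ℝ) • A T0 - ((Real.exp (2 * T1) : ℝ) • A T1 +
        ((Real.exp (2 * T0) - Real.exp (2 * T1)) / 2 : ℝ) • J T1) -
      ∫ t in T1..T0, ((Real.exp (2 * T0) - Real.exp (2 * t)) / 2 : ℝ) • E t := by
  have hsub : uIcc T1 T0 ⊆ Iio 0 := by
    rw [uIcc_of_le h]
    intro x hx
    exact lt_of_le_of_lt hx.2 h0
  have hex : ∀ t : ℝ, HasDerivAt (fun t => Real.exp (2 * t)) (2 * Real.exp (2 * t)) t := by
    intro t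
    have := ((hasDerivAt_id t).const_mul 2).exp
    simpa [mul_comm] using this
  have hd : ∀ t ∈ uIcc T1 T0, HasDerivAt
      (fun t => (Real.exp (2 * t)) • A t + ((Real.exp (2 * T0) - Real.exp (2 * t)) / 2 : ℝ) • J t)
      ((2 * Real.exp (2 * t) : ℝ) • (A t + n t) +
        ((Real.exp (2 * T0) - Real.exp (2 * t)) / 2 : ℝ) • E t) t := by
    intro t ht
    have ht0 : t < 0 := hsub ht
    have h1 := ((hex t).smul (hA t ht0)).add
      ((((hex t).const_sub (Real.exp (2 * T0))).div_const 2).smul (hJ t ht0))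
    refine h1.congr_deriv ?_
    simp only [Complex.real_smul]
    push_cast
    ring
  have hcA : ContinuousOn A (Iio 0) := fun t ht => (hA t ht).continuousAt.continuousWithinAt
  have hce : ContinuousOn (fun t : ℝ => 2 * Real.exp (2 * t)) (uIcc T1 T0) := by fun_prop
  have hce' : ContinuousOn (fun t : ℝ => (Real.exp (2 * T0) - Real.exp (2 * t)) / 2)
      (uIcc T1 T0) := by fun_prop
  have hc1 : ContinuousOn (fun t => (2 * Real.exp (2 * t) : ℝ) • (A t + n t)) (uIcc T1 T0) :=
    hce.smul ((hcA.mono hsub).add (hn.mono hsub))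
  have hc2 : ContinuousOn (fun t => ((Real.exp (2 * T0) - Real.exp (2 * t)) / 2 : ℝ) • E t)
      (uIcc T1 T0) := hce'.smul (hE.mono hsub)
  have h2 := intervalIntegral.integral_eq_sub_of_hasDerivAt hd
    (hc1.add hc2).intervalIntegrable
  rw [intervalIntegral.integral_add hc1.intervalIntegrable hc2.intervalIntegrable] at h2
  rw [eq_sub_iff_add_eq, h2]
  simp only [sub_self, zero_div, zero_smul, add_zero]

/-- the combination -/
lemma comb {A n J E : ℝ → ℂ} {AH JH LH : ℝ → ℝ} {C : ℝ} (hC : 0 ≤ C)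
    (hA : ∀ t < 0, HasDerivAt A (2 * n t + J t) t)
    (hJ : ∀ t < 0, HasDerivAt J (E t) t) (hn : ContinuousOn n (Iio 0)) (hE : ContinuousOn E (Iio 0))
    (hAH : ∀ t < 0, HasDerivAt AH (JH t) t)
    (hJH : ∀ t < 0, HasDerivAt JH (LH t) t) (hL : ContinuousOn LH (Iio 0))
    (hA0 : ∀ t < 0, 0 ≤ AH t) (hEL : ∀ t < 0, ‖E t‖ ≤ C * LH t)
    {T1 T0 : ℝ} (h : T1 ≤ T0) (h0 : T0 < 0) :
    ‖∫ t in T1..T0, (2 * Real.exp (2 * t) : ℝ) • (A t + n t)‖ ≤
      ‖A T0‖ + C * AH T0 + (Real.exp (2 * T1) * ‖A T1‖ + ‖J T1‖ + C * |JH T1|) := by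
  have hsub : uIcc T1 T0 ⊆ Iio 0 := by
    rw [uIcc_of_le h]
    intro x hx
    exact lt_of_le_of_lt hx.2 h0
  have e0 : Real.exp (2 * T0) ≤ 1 := by
    rw [← Real.exp_zero]
    exact Real.exp_le_exp.mpr (by linarith)
  have e1 : Real.exp (2 * T1) ≤ Real.exp (2 * T0) := Real.exp_le_exp.mpr (by linarith)
  have p1 := Real.exp_pos (2 * T1)
  have p0 := Real.exp_pos (2 * T0)
  rw [int_cx hA hJ hn hE h h0]
  have k1 : ‖∫ t in T1..T0, ((Real.exp (2 * T0) - Real.exp (2 * t)) / 2 : ℝ) • E t‖ ≤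
      C / 2 * ∫ t in T1..T0, (Real.exp (2 * T0) - Real.exp (2 * t)) * LH t := by
    rw [← intervalIntegral.integral_const_mul]
    refine (intervalIntegral.norm_integral_le_integral_norm h).trans ?_
    have hce' : ContinuousOn (fun t : ℝ => (Real.exp (2 * T0) - Real.exp (2 * t)) / 2)
      (uIcc T1 T0) := by fun_prop
    have hc1 : ContinuousOn (fun t => ‖((Real.exp (2 * T0) - Real.exp (2 * t)) / 2 : ℝ) • E t‖)
      (uIcc T1 T0) := (hce'.smul (hE.mono hsub)).norm
    have hc2 : ContinuousOn (fun t => C / 2 * ((Real.exp (2 * T0) - Real.exp (2 * t)) * LH t))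
      (uIcc T1 T0) := continuousOn_const.mul (ContinuousOn.mul (by fun_prop) (hL.mono hsub))
    apply intervalIntegral.integral_mono_on h hc1.intervalIntegrable hc2.intervalIntegrable
    intro t ht
    have ht0 : t < 0 := lt_of_le_of_lt ht.2 h0
    have e2 : Real.exp (2 * t) ≤ Real.exp (2 * T0) := Real.exp_le_exp.mpr (by linarith [ht.2])
    rw [norm_smul, Real.norm_of_nonneg (by linarith)]
    have := hEL t ht0
    calc (Real.exp (2 * T0) - Real.exp (2 * t)) / 2 * ‖E t‖ ≤
          (Real.exp (2 * T0) - Real.exp (2 * t)) / 2 * (C * LH t) := by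
            apply mul_le_mul_of_nonneg_left this (by linarith)
      _ = _ := by ring
  have k2 := int_real hAH hJH hL hA0 h h0
  have k3 : C / 2 * ∫ t in T1..T0, (Real.exp (2 * T0) - Real.exp (2 * t)) * LH t ≤
      C * AH T0 + C * |JH T1| := by
    have a1 := hA0 T1 (by linarith)
    have a0 := hA0 T0 h0
    have b1 : -|JH T1| ≤ JH T1 := neg_abs_le _
    have b2 : -((Real.exp (2 * T0) - Real.exp (2 * T1)) * JH T1) ≤ |JH T1| := by
      have : (Real.exp (2 * T0) - Real.exp (2 * T1)) * |JH T1| ≤ 1 * |JH T1| := by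
        apply mul_le_mul_of_nonneg_right (by linarith) (abs_nonneg _)
      nlinarith
    have b3 : 2 * Real.exp (2 * T0) * AH T0 ≤ 2 * AH T0 := by nlinarith
    have b4 : 0 ≤ 2 * Real.exp (2 * T1) * AH T1 := by positivity
    have b5 : ∫ t in T1..T0, (Real.exp (2 * T0) - Real.exp (2 * t)) * LH t ≤
        2 * AH T0 + 2 * |JH T1| := by
      have := abs_nonneg (JH T1)
      linarith
    calc _ ≤ C / 2 * (2 * AH T0 + 2 * |JH T1|) := by gcongr
      _ = _ := by ring
  have k4 : ‖(Real.exp (2 * T0) : ℝ) • A T0‖ ≤ ‖A T0‖ := by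
    rw [norm_smul, Real.norm_of_nonneg p0.le]
    nlinarith [norm_nonneg (A T0)]
  have k5 : ‖(Real.exp (2 * T1) : ℝ) • A T1 +
        ((Real.exp (2 * T0) - Real.exp (2 * T1)) / 2 : ℝ) • J T1‖ ≤
        Real.exp (2 * T1) * ‖A T1‖ + ‖J T1‖ := by
    refine (norm_add_le _ _).trans ?_
    rw [norm_smul, norm_smul, Real.norm_of_nonneg p1.le, Real.norm_of_nonneg (by linarith)]
    nlinarith [norm_nonneg (J T1)]
  calc _ ≤ ‖(Real.exp (2 * T0) : ℝ) • A T0 - ((Real.exp (2 * T1) : ℝ) • A T1 +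
        ((Real.exp (2 * T0) - Real.exp (2 * T1)) / 2 : ℝ) • J T1)‖ + _ := norm_sub_le _ _
    _ ≤ _ := by
      have := norm_sub_le ((Real.exp (2 * T0) : ℝ) • A T0) ((Real.exp (2 * T1) : ℝ) • A T1 +
        ((Real.exp (2 * T0) - Real.exp (2 * T1)) / 2 : ℝ) • J T1)
      linarith

/-- the integral over a ball as a limit -/
lemma ball_lim {h : ℂ → ℂ} (hh : ContinuousOn h DD) {T : ℝ} (hT : T < 0) :
    Tendsto (fun T1 => ∫ t in T1..T, (2 * Real.exp (2 * t) : ℝ) • avg h t) atBot
      (𝓝 ((Real.pi)⁻¹ • ∫ z in Metric.ball (0:ℂ) (Real.exp T), h z)) := by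
  have hR : 0 < Real.exp T := Real.exp_pos T
  have hR1 : Real.exp T < 1 := by rw [← Real.exp_zero]; exact Real.exp_lt_exp.mpr hT
  have hc : ContinuousOn h (Metric.closedBall 0 (Real.exp T)) :=
    hh.mono (Metric.closedBall_subset_ball hR1)
  set χ : ℝ → ℂ := fun r => ∫ θ in (-Real.pi)..Real.pi, r • h (circleMap 0 r θ) with hχ
  have e1 := Pool.Agent.H758R2.Besov.polar_ball h hR hc
  have e2 := Pool.Agent.H758R2.Besov.polar_intervalIntegrable h hR hc
  have hχexp : ∀ t : ℝ, χ (Real.exp t) = (2 * Real.pi * Real.exp t) • avg h t := by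
    intro t
    rw [hχ]
    simp only
    rw [intervalIntegral.integral_smul]
    have hper : Function.Periodic (fun θ => h (circleMap 0 (Real.exp t) θ)) (2 * Real.pi) := by
      intro θ
      simp only [periodic_circleMap 0 (Real.exp t) θ]
    have h1 := hper.intervalIntegral_add_eq (-Real.pi) 0
    rw [zero_add, show -Real.pi + 2 * Real.pi = Real.pi by ring] at h1
    rw [h1]
    unfold avg
    rw [smul_smul]
    have h2 : 2 * Real.pi * Real.exp t * (2 * Real.pi)⁻¹ = Real.exp t := by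
      field_simp
    rw [h2]
    congr 1
    apply intervalIntegral.integral_congr
    intro θ _
    simp only [circleMap, pt, zero_add]
    rw [Complex.exp_add, Complex.ofReal_exp]
  have hint : IntegrableOn χ (uIcc 0 (Real.exp T)) := by
    rw [uIcc_of_le hR.le]
    rw [intervalIntegrable_iff_integrableOn_Icc_of_le hR.le] at e2
    exact e2
  have h3 := intervalIntegral.continuousOn_primitive_interval_left hint
  have h4 : Tendsto (fun x => ∫ r in x..Real.exp T, χ r) (𝓝[uIcc 0 (Real.exp T)] 0)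
      (𝓝 (∫ r in (0:ℝ)..Real.exp T, χ r)) := h3 0 left_mem_uIcc
  have h5 : Tendsto (fun T1 : ℝ => Real.exp T1) atBot (𝓝[uIcc 0 (Real.exp T)] 0) := by
    rw [tendsto_nhdsWithin_iff]
    refine ⟨Real.tendsto_exp_atBot, ?_⟩
    filter_upwards [Iic_mem_atBot T] with x hx
    rw [uIcc_of_le hR.le]
    exact ⟨(Real.exp_pos x).le, Real.exp_le_exp.mpr hx⟩
  have h6 := h4.comp h5
  rw [← e1] at h6
  have h7 := h6.const_smul (Real.pi)⁻¹
  refine h7.congr' ?_
  filter_upwards [Iic_mem_atBot T] with T1 hT1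
  have hT1' : T1 ≤ T := hT1
  simp only [Function.comp_apply]
  have hsub : uIcc T1 T ⊆ Iio 0 := by
    rw [uIcc_of_le hT1']
    intro x hx
    exact lt_of_le_of_lt hx.2 hT
  have h8 : ∫ t in T1..T, Real.exp t • (χ ∘ Real.exp) t = ∫ r in Real.exp T1..Real.exp T, χ r := by
    apply intervalIntegral.integral_deriv_smul_comp'
    · intro x _
      exact Real.hasDerivAt_exp x
    · exact Real.continuous_exp.continuousOn
    · have : ContinuousOn (fun r => (2 * Real.pi * r) • avg h (Real.log r)) (Real.exp '' uIcc T1 T) := by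
        have g1 : ContinuousOn (fun r : ℝ => 2 * Real.pi * r) (Real.exp '' uIcc T1 T) := by
          fun_prop
        have g2 : ContinuousOn (fun r : ℝ => avg h (Real.log r)) (Real.exp '' uIcc T1 T) := by
          apply (avg_contOn hh).comp
          · apply Real.continuousOn_log.mono
            rintro _ ⟨x, _, rfl⟩
            exact (Real.exp_pos x).ne'
          · rintro _ ⟨x, hx, rfl⟩
            rw [Real.log_exp]
            exact hsub hx
        exact g1.smul g2
      refine this.congr ?_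
      rintro _ ⟨x, hx, rfl⟩
      change χ (Real.exp x) = (2 * Real.pi * Real.exp x) • avg h (Real.log (Real.exp x))
      rw [hχexp, Real.log_exp]
  rw [← h8, ← intervalIntegral.integral_smul]
  apply intervalIntegral.integral_congr
  intro t _
  simp only [Function.comp_apply, hχexp, smul_smul]
  congr 1
  rw [show 2 * t = t + t by ring, Real.exp_add]
  field_simp

end Pool.Agent.V113.KR
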