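import Pool.Agent.V113.KR.E

/-! The inequality for balls, continued. -/

open MeasureTheory Set Filter Topology Complex
open scoped ComplexConjugate

namespace Pool.Agent.V113.KR

variable {F g : ℂ → ℂ} {ε : ℝ}

/-- the sum of the three `∂̄` derivatives -/
noncomputable def QS (F g : ℂ → ℂ) (ε a q₁ p₁ : ℝ) (z : ℂ) : ℂ :=
  QQ F g ε a (1 / 2) z + QQ F g ε (a * q₁) 0 z + QQ F g ε 0 (p₁ / 2) z

lemma HW_HH (hF : DifferentiableOn ℂ F DD) (hg : DifferentiableOn ℂ g DD) (hε : 0 < ε)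
    (a q₁ p₁ : ℝ) :
    ∃ p, HW (fun z => ((HH F g ε a q₁ p₁ z : ℝ) : ℂ)) p (fun z => QS F g ε a q₁ p₁ z / 2) := by
  obtain ⟨x1, h1⟩ := HW_V hF hg hε a (1 / 2)
  obtain ⟨x2, h2⟩ := HW_V hF hg hε (a * q₁) 0
  obtain ⟨x3, h3⟩ := HW_V hF hg hε 0 (p₁ / 2)
  have h4 := (h1.add h2).add h3
  have h5 : (fun z => ((HH F g ε a q₁ p₁ z : ℝ) : ℂ)) = fun z =>
      ((VV F g ε a (1 / 2) z : ℝ) : ℂ) + ((VV F g ε (a * q₁) 0 z : ℝ) : ℂ) +
        ((VV F g ε 0 (p₁ / 2) z : ℝ) : ℂ) := by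
    funext z
    unfold HH
    push_cast
    rfl
  rw [h5]
  refine ⟨_, h4.congr (fun z _ => rfl) fun z _ => ?_⟩
  unfold QS
  ring

lemma HW_QS (hF : DifferentiableOn ℂ F DD) (hg : DifferentiableOn ℂ g DD) (hε : 0 < ε)
    (a q₁ p₁ : ℝ) :
    ∃ q, HW (QS F g ε a q₁ p₁) (fun z => ((LL F g ε a q₁ p₁ z : ℝ) : ℂ) / 2) q := by
  obtain ⟨x1, h1⟩ := HW_Q hF hg hε a (1 / 2)
  obtain ⟨x2, h2⟩ := HW_Q hF hg hε (a * q₁) 0
  obtain ⟨x3, h3⟩ := HW_Q hF hg hε 0 (p₁ / 2)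
  have h4 := (h1.add h2).add h3
  refine ⟨_, h4.congr (fun z _ => ?_) fun z _ => rfl⟩
  unfold LL
  push_cast
  ring

lemma HH_nonneg (hε : 0 < ε) (a q₁ p₁ : ℝ) (z : ℂ) : 0 ≤ HH F g ε a q₁ p₁ z := by
  have h1 := WW_pos (F := F) hε z
  have h2 := WW_pos (F := g) one_pos z
  unfold HH VV
  positivity

theorem ball_bound (hF : DifferentiableOn ℂ F DD) (hg : DifferentiableOn ℂ g DD) (hε : 0 < ε)
    {a b q₁ p₁ : ℝ} (ha : 0 < a) (hb : b = a - 1 / 2) (hq : 1 < q₁)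
    (hp : p₁ = q₁ / (q₁ - 1)) {T : ℝ} (hT : T < 0) :
    ‖∫ z in Metric.ball (0:ℂ) (Real.exp T), (g z + D1 g z) * Ub F ε b z‖ ≤
      Real.pi * (‖avg (fun z => g z * Ub F ε b z) T‖ +
        4 * |b| * (|b| + 3) / (min a 1 * a) * avg (HH F g ε a q₁ p₁) T) := by
  have hκ : 0 < min a 1 := lt_min ha one_pos
  set C := 4 * |b| * (|b| + 3) / (min a 1 * a) with hCdef
  have hC : 0 ≤ C := by positivity
  obtain ⟨_, hV1⟩ := HW_V1 hF hg hε b
  obtain ⟨_, hV2⟩ := HW_V2 hF hg hε b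
  obtain ⟨_, hH⟩ := HW_HH hF hg hε a q₁ p₁
  obtain ⟨_, hQ⟩ := HW_QS hF hg hε a q₁ p₁
  have cU : ContinuousOn (Ub F ε b) DD := (HW_Ub hF hε b).cv
  have cn : ContinuousOn (fun z => D1 g z * Ub F ε b z) DD := (D1_diff hg).continuousOn.mul cU
  have cA : ContinuousOn (fun z => g z * Ub F ε b z) DD := hg.continuousOn.mul cU
  have cE : ContinuousOn (EE F g ε b) DD := by
    have := hV2.cq.const_smul (2:ℂ)
    refine this.congr fun z _ => ?_
    simp only [smul_eq_mul, Pi.smul_apply]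
    ring
  have cL : ContinuousOn (LL F g ε a q₁ p₁) DD := by
    have := (Complex.continuous_re.comp_continuousOn hQ.cp).const_smul (2:ℝ)
    refine this.congr fun z _ => ?_
    simp only [smul_eq_mul, Pi.smul_apply, Function.comp_apply]
    rw [show ((LL F g ε a q₁ p₁ z : ℝ) : ℂ) / 2 = ((LL F g ε a q₁ p₁ z / 2 : ℝ) : ℂ) by push_cast; rfl,
      Complex.ofReal_re]
    ring
  have hA : ∀ t < 0, HasDerivAt (avg fun z => g z * Ub F ε b z)
      (2 * avg (fun z => D1 g z * Ub F ε b z) t + avg (V2 F g ε b) t) t := by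
    intro t ht
    refine (hV1.avg_dp ht).congr_deriv ?_
    have e1 : avg (fun z => 2 * (D1 g z * Ub F ε b z + V2 F g ε b z / 2)) t =
        avg (fun z => 2 * (D1 g z * Ub F ε b z) + V2 F g ε b z) t :=
      avg_congr ht fun z _ => by ring
    rw [e1, avg_add (v := fun z => 2 * (D1 g z * Ub F ε b z)) (cn.const_smul (2:ℂ)) hV2.cv ht, avg_cmul]
  have hJ : ∀ t < 0, HasDerivAt (avg (V2 F g ε b)) (avg (EE F g ε b) t) t := by
    intro t ht
    refine (hV2.avg_dq ht).congr_deriv ?_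
    exact avg_congr ht fun z _ => by ring
  have hAH : ∀ t < 0, HasDerivAt (avg (HH F g ε a q₁ p₁)) ((avg (QS F g ε a q₁ p₁) t).re) t := by
    intro t ht
    have h1 := hH.avg_dq ht
    have e1 : avg (fun z => 2 * (QS F g ε a q₁ p₁ z / 2)) t = avg (QS F g ε a q₁ p₁) t :=
      avg_congr ht fun z _ => by ring
    rw [e1] at h1
    have h2 := Complex.reCLM.hasFDerivAt.comp_hasDerivAt t h1
    have e2 : (avg (HH F g ε a q₁ p₁)) =
        (Complex.reCLM ∘ avg (fun z => ((HH F g ε a q₁ p₁ z : ℝ) : ℂ))) := by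
      funext t
      simp only [Function.comp_apply, Complex.reCLM_apply]
      rw [avg_ofReal, Complex.ofReal_re]
    rw [e2]
    exact h2
  have hJH : ∀ t < 0, HasDerivAt (fun t => (avg (QS F g ε a q₁ p₁) t).re)
      (avg (LL F g ε a q₁ p₁) t) t := by
    intro t ht
    have h1 := hQ.avg_dp ht
    have e1 : avg (fun z => 2 * (((LL F g ε a q₁ p₁ z : ℝ) : ℂ) / 2)) t =
        ((avg (LL F g ε a q₁ p₁) t : ℝ) : ℂ) := by
      rw [← avg_ofReal]
      exact avg_congr ht fun z _ => by ring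
    rw [e1] at h1
    have h2 := Complex.reCLM.hasFDerivAt.comp_hasDerivAt t h1
    exact h2
  have hEL : ∀ t < 0, ‖avg (EE F g ε b) t‖ ≤ C * avg (LL F g ε a q₁ p₁) t := by
    intro t ht
    refine (avg_norm_le _ _).trans ?_
    rw [← avg_rmul]
    exact avg_mono cE.norm (cL.const_smul C) ht fun z _ => EE_le ha hb hq hp hε z
  have key : ∀ T1 ≤ T, ‖∫ t in T1..T, (2 * Real.exp (2 * t) : ℝ) •
      avg (fun z => (g z + D1 g z) * Ub F ε b z) t‖ ≤
      ‖avg (fun z => g z * Ub F ε b z) T‖ + C * avg (HH F g ε a q₁ p₁) T +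
      (Real.exp (2 * T1) * ‖avg (fun z => g z * Ub F ε b z) T1‖ + ‖avg (V2 F g ε b) T1‖ +
        C * |(avg (QS F g ε a q₁ p₁) T1).re|) := by
    intro T1 hT1
    have h1 := comb hC hA hJ (avg_contOn cn) (avg_contOn cE) hAH hJH (avg_contOn cL)
      (fun t ht => avg_nonneg ht fun z _ => HH_nonneg hε a q₁ p₁ z) hEL hT1 hT
    refine le_trans (le_of_eq ?_) h1
    congr 1
    apply intervalIntegral.integral_congr
    intro t ht
    rw [uIcc_of_le hT1] at ht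
    have ht0 : t < 0 := lt_of_le_of_lt ht.2 hT
    simp only
    rw [← avg_add cA cn ht0]
    congr 1
    exact avg_congr ht0 fun z _ => by ring
  have hh : ContinuousOn (fun z => (g z + D1 g z) * Ub F ε b z) DD :=
    (hg.continuousOn.add (D1_diff hg).continuousOn).mul cU
  have lim1 := (ball_lim hh hT).norm
  have z1 : V2 F g ε b 0 = 0 := by simp [V2, D1]
  have z2 : QS F g ε a q₁ p₁ 0 = 0 := by simp [QS, QQ, D1]
  have lim2 : Tendsto (fun T1 => ‖avg (V2 F g ε b) T1‖) atBot (𝓝 0) := by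
    have := (avg_tendsto hV2.cv).norm
    rwa [z1, norm_zero] at this
  have lim3 : Tendsto (fun T1 => C * |(avg (QS F g ε a q₁ p₁) T1).re|) atBot (𝓝 0) := by
    have h1 := avg_tendsto hQ.cv
    rw [z2] at h1
    have h2 := ((Complex.continuous_re.tendsto 0).comp h1).abs.const_mul C
    simpa using h2
  have lim4 : Tendsto (fun T1 => Real.exp (2 * T1) * ‖avg (fun z => g z * Ub F ε b z) T1‖) atBot
      (𝓝 0) := by
    have h1 := (avg_tendsto cA).norm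
    have h2 : Tendsto (fun T1 : ℝ => Real.exp (2 * T1)) atBot (𝓝 0) :=
      Real.tendsto_exp_atBot.comp (tendsto_id.const_mul_atBot (by norm_num : (0:ℝ) < 2))
    simpa using h2.mul h1
  have lim5 := ((lim4.add lim2).add lim3).const_add
    (‖avg (fun z => g z * Ub F ε b z) T‖ + C * avg (HH F g ε a q₁ p₁) T)
  have fin := le_of_tendsto_of_tendsto lim1 lim5 (by
    filter_upwards [Iic_mem_atBot T] with T1 hT1 using key T1 hT1)
  simp only [add_zero] at fin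
  rw [norm_smul, norm_inv, Real.norm_of_nonneg Real.pi_pos.le, inv_mul_le_iff₀ Real.pi_pos] at fin
  exact fin

lemma HH_le (hε : 0 < ε) (hε1 : ε ≤ 1) {a q₁ p₁ : ℝ} (ha : 0 < a) (hq : 1 < q₁)
    (hp : p₁ = q₁ / (q₁ - 1)) (z : ℂ) :
    HH F g ε a q₁ p₁ z ≤ 2 * (2 ^ (a * q₁) * (‖F z‖ ^ (2 * (a * q₁)) + 1) +
      2 ^ (p₁ / 2) * (‖g z‖ ^ (2 * (p₁ / 2)) + 1)) := by
  have hp1 : 1 < p₁ := by
    rw [hp, lt_div_iff₀ (by linarith)]
    linarith
  have gen : ∀ x : ℝ, 0 ≤ x → ∀ e : ℝ, 0 < e → e ≤ 1 → ∀ c : ℝ, 0 < c →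
      (x ^ 2 + e) ^ c ≤ 2 ^ c * (x ^ (2 * c) + 1) := by
    intro x hx e he he1 c hc
    have h1 : x ^ (2 * c) = (x ^ 2) ^ c := by
      rw [Real.rpow_mul hx]
      norm_num
    rcases le_total (x ^ 2) 1 with h | h
    · calc (x ^ 2 + e) ^ c ≤ 2 ^ c := Real.rpow_le_rpow (by positivity) (by linarith) hc.le
        _ ≤ 2 ^ c * (x ^ (2 * c) + 1) := by
          have : 0 ≤ x ^ (2 * c) := by positivity
          have h2 : (0:ℝ) < 2 ^ c := by positivity
          nlinarith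
    · calc (x ^ 2 + e) ^ c ≤ (2 * x ^ 2) ^ c := Real.rpow_le_rpow (by positivity) (by linarith) hc.le
        _ = 2 ^ c * x ^ (2 * c) := by rw [h1, Real.mul_rpow (by norm_num) (by positivity)]
        _ ≤ _ := by
          have h2 : (0:ℝ) < 2 ^ c := by positivity
          nlinarith
  have hW := WW_pos (F := F) hε z
  have hY := WW_pos (F := g) one_pos z
  have g1 := gen ‖F z‖ (norm_nonneg _) ε hε hε1 (a * q₁) (by positivity)
  have g2 := gen ‖g z‖ (norm_nonneg _) 1 one_pos le_rfl (p₁ / 2) (by positivity)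
  have g1' : WW F ε z ^ (a * q₁) ≤ 2 ^ (a * q₁) * (‖F z‖ ^ (2 * (a * q₁)) + 1) := g1
  have g2' : WW g 1 z ^ (p₁ / 2) ≤ 2 ^ (p₁ / 2) * (‖g z‖ ^ (2 * (p₁ / 2)) + 1) := g2
  have hY1 : WW F ε z ^ a * WW g 1 z ^ (1 / 2 : ℝ) ≤ WW F ε z ^ (a * q₁) + WW g 1 z ^ (p₁ / 2) := by
    have hc : q₁.HolderConjugate p₁ := by
      rw [Real.holderConjugate_iff]
      refine ⟨hq, ?_⟩
      rw [hp]
      have : q₁ ≠ 0 := by linarith
      have : q₁ - 1 ≠ 0 := by linarith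
      field_simp
      ring
    have h1 := Real.young_inequality_of_nonneg (Real.rpow_nonneg hW.le a)
      (Real.rpow_nonneg hY.le (1 / 2 : ℝ)) hc
    rw [← Real.rpow_mul hW.le, ← Real.rpow_mul hY.le] at h1
    have h2 : WW F ε z ^ (a * q₁) / q₁ ≤ WW F ε z ^ (a * q₁) :=
      div_le_self (Real.rpow_nonneg hW.le _) hq.le
    have h3 : WW g 1 z ^ ((1 / 2 : ℝ) * p₁) / p₁ ≤ WW g 1 z ^ ((1 / 2 : ℝ) * p₁) :=
      div_le_self (Real.rpow_nonneg hY.le _) hp1.le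
    have h4 : (1 / 2 : ℝ) * p₁ = p₁ / 2 := by ring
    rw [h4] at h1 h3
    linarith
  unfold HH VV
  rw [Real.rpow_zero, Real.rpow_zero, mul_one, one_mul]
  linarith

end Pool.Agent.V113.KR
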