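import Pool.Agent.V113.KR.F

/-! The inequality for the disc. -/

open MeasureTheory Set Filter Topology Complex
open scoped ComplexConjugate

namespace Pool.Agent.V113.KR

/-- the conjugate of `|F|^(p-2) F` -/
noncomputable def U0 (F : ℂ → ℂ) (p : ℝ) (z : ℂ) : ℂ := ((‖F z‖ ^ (p - 2) : ℝ) : ℂ) * conj (F z)

/-- the constant -/
noncomputable def Cst (p q₁ p₁ M M0 : ℝ) : ℝ :=
  Real.pi * ((1 + 4 * |(p - 2) / 2| * (|(p - 2) / 2| + 3) / (min ((p - 1) / 2) 1 * ((p - 1) / 2))) *
    (2 * (2 ^ ((p - 1) / 2 * q₁) * (M + 1) + 2 ^ (p₁ / 2) * (M0 + 1))))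

variable {F g : ℂ → ℂ}

lemma Ub_norm_le {ε a b : ℝ} (hε : 0 < ε) (hb : b = a - 1 / 2) (z : ℂ) :
    ‖Ub F ε b z‖ ≤ WW F ε z ^ a := by
  have hW := WW_pos (F := F) hε z
  unfold Ub
  rw [norm_mul, RCLike.norm_conj, Complex.norm_real, Real.norm_of_nonneg (by positivity)]
  have e2 : ‖F z‖ ≤ WW F ε z ^ (1 / 2 : ℝ) := by
    rw [← Real.sqrt_eq_rpow]
    apply Real.le_sqrt_of_sq_le
    unfold WW
    linarith
  calc _ ≤ WW F ε z ^ b * WW F ε z ^ (1 / 2 : ℝ) := by gcongr
    _ = WW F ε z ^ a := by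
      rw [← Real.rpow_add hW, hb]
      congr 1
      ring

lemma gen_le {x : ℝ} (hx : 0 ≤ x) {e : ℝ} (he : 0 < e) (he1 : e ≤ 1) {c : ℝ} (hc : 0 < c) :
    (x ^ 2 + e) ^ c ≤ 2 ^ c * (x ^ (2 * c) + 1) := by
  have h1 : x ^ (2 * c) = (x ^ 2) ^ c := by
    rw [Real.rpow_mul hx]
    norm_num
  have h2 : (0:ℝ) < 2 ^ c := by positivity
  have h3 : 0 ≤ x ^ (2 * c) := by positivity
  rcases le_total (x ^ 2) 1 with h | h
  · calc (x ^ 2 + e) ^ c ≤ 2 ^ c := Real.rpow_le_rpow (by positivity) (by linarith) hc.le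
      _ ≤ 2 ^ c * (x ^ (2 * c) + 1) := by nlinarith
  · calc (x ^ 2 + e) ^ c ≤ (2 * x ^ 2) ^ c := Real.rpow_le_rpow (by positivity) (by linarith) hc.le
      _ = 2 ^ c * x ^ (2 * c) := by rw [h1, Real.mul_rpow (by norm_num) (by positivity)]
      _ ≤ _ := by nlinarith

lemma U0_lim {p : ℝ} (z : ℂ) {e : ℕ → ℝ} (he : Tendsto e atTop (𝓝 0)) :
    Tendsto (fun n => Ub F (e n) ((p - 2) / 2) z) atTop (𝓝 (U0 F p z)) := by
  unfold Ub U0
  by_cases h0 : F z = 0
  · simp [h0]
  have hpos : 0 < ‖F z‖ := norm_pos_iff.mpr h0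
  apply Tendsto.mul _ tendsto_const_nhds
  apply (Complex.continuous_ofReal.tendsto _).comp
  have h1 : ‖F z‖ ^ (p - 2) = (‖F z‖ ^ 2 + 0) ^ ((p - 2) / 2) := by
    rw [add_zero, ← Real.rpow_natCast, ← Real.rpow_mul hpos.le]
    congr 1
    push_cast
    ring
  rw [h1]
  unfold WW
  apply Tendsto.rpow_const
  · exact tendsto_const_nhds.add he
  · left
    positivity

lemma avg_lin {f1 f2 : ℂ → ℝ} (h1 : ContinuousOn f1 DD) (h2 : ContinuousOn f2 DD) {t : ℝ}
    (ht : t < 0) (A1 A2 : ℝ) :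
    avg (fun z => 2 * (A1 * (f1 z + 1) + A2 * (f2 z + 1))) t =
      2 * (A1 * (avg f1 t + 1) + A2 * (avg f2 t + 1)) := by
  have c1 : ContinuousOn (fun z => f1 z + 1) DD := h1.add continuousOn_const
  have c2 : ContinuousOn (fun z => f2 z + 1) DD := h2.add continuousOn_const
  have c3 : ContinuousOn (fun z => A1 * (f1 z + 1)) DD := c1.const_smul A1
  have c4 : ContinuousOn (fun z => A2 * (f2 z + 1)) DD := c2.const_smul A2
  rw [avg_rmul, avg_add c3 c4 ht, avg_rmul, avg_rmul, avg_add h1 continuousOn_const ht,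
    avg_add h2 continuousOn_const ht, avg_const]

lemma avg_cont {v : ℂ → ℝ} (hv : Continuous v) : Continuous (avg v) := by
  have h1 : Continuous fun t => ∫ θ in (0:ℝ)..(2 * Real.pi), v (pt t θ) := by
    apply intervalIntegral.continuous_parametric_intervalIntegral_of_continuous'
    exact hv.comp pt_cont
  have h2 : Continuous fun t => (2 * Real.pi)⁻¹ * ∫ θ in (0:ℝ)..(2 * Real.pi), v (pt t θ) :=
    continuous_const.mul h1
  exact h2

theorem disc_bound (hF : DifferentiableOn ℂ F DD) (hg : Differentiable ℂ g)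
    {p q₁ p₁ M M0 : ℝ} (hp : 1 < p) (hq : 1 < q₁) (hp1 : p₁ = q₁ / (q₁ - 1))
    (hFp : IntegrableOn (fun z => ‖F z‖ ^ p) DD)
    (hM : ∀ t < 0, avg (fun z => ‖F z‖ ^ ((p - 1) * q₁)) t ≤ M)
    (hM0 : avg (fun z => ‖g z‖ ^ p₁) 0 ≤ M0) :
    ‖∫ z in DD, (g z + D1 g z) * U0 F p z‖ ≤ Cst p q₁ p₁ M M0 := by
  set a : ℝ := (p - 1) / 2 with ha
  set b : ℝ := (p - 2) / 2 with hb
  have ha0 : 0 < a := by rw [ha]; linarith
  have hba : b = a - 1 / 2 := by rw [ha, hb]; ring
  have hp10 : 1 < p₁ := by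
    rw [hp1, lt_div_iff₀ (by linarith)]
    linarith
  set C : ℝ := 4 * |b| * (|b| + 3) / (min a 1 * a) with hC
  have hκ : 0 < min a 1 := lt_min ha0 one_pos
  have hC0 : 0 ≤ C := by positivity
  set e : ℕ → ℝ := fun n => 1 / ((n : ℝ) + 1) with he
  have he0 : ∀ n, 0 < e n := fun n => by rw [he]; positivity
  have he1 : ∀ n, e n ≤ 1 := fun n => by
    rw [he]
    simp only
    rw [div_le_one (by positivity)]
    have : (0:ℝ) ≤ n := Nat.cast_nonneg n
    linarith
  have helim : Tendsto e atTop (𝓝 0) := tendsto_one_div_add_atTop_nhds_zero_nat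
  have hexp1 : ∀ n, Real.exp (-e n) < 1 := fun n => by
    rw [← Real.exp_zero]
    exact Real.exp_lt_exp.mpr (by linarith [he0 n])
  have hgD : DifferentiableOn ℂ g DD := hg.differentiableOn
  have cG : Continuous fun z => g z + D1 g z := by
    unfold D1
    exact hg.continuous.add (continuous_id.mul (hg.contDiff.continuous_deriv le_rfl : Continuous (deriv g)))
  obtain ⟨Cg, hCg⟩ := (isCompact_closedBall (0:ℂ) 1).exists_bound_of_continuousOn cG.continuousOn
  have hCg' : ∀ z ∈ DD, ‖g z + D1 g z‖ ≤ Cg := fun z hz => hCg z (Metric.ball_subset_closedBall hz)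
  have hCg0 : 0 ≤ Cg := (norm_nonneg _).trans (hCg' 0 (Metric.mem_ball_self one_pos))
  -- the limit of the integrals
  have lim1 : Tendsto (fun n => ∫ z in Metric.ball (0:ℂ) (Real.exp (-e n)),
      (g z + D1 g z) * Ub F (e n) b z) atTop (𝓝 (∫ z in DD, (g z + D1 g z) * U0 F p z)) := by
    have e1 : ∀ n, ∫ z in Metric.ball (0:ℂ) (Real.exp (-e n)), (g z + D1 g z) * Ub F (e n) b z =
        ∫ z in DD, (Metric.ball (0:ℂ) (Real.exp (-e n))).indicator
          (fun z => (g z + D1 g z) * Ub F (e n) b z) z := by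
      intro n
      rw [setIntegral_indicator Metric.isOpen_ball.measurableSet,
        inter_eq_self_of_subset_right (Metric.ball_subset_ball (hexp1 n).le)]
    simp only [e1]
    apply tendsto_integral_of_dominated_convergence
      (fun z => Cg * (2 ^ a * (‖F z‖ ^ (2 * a) + 1)))
    · intro n
      have hc : ContinuousOn (fun z => (g z + D1 g z) * Ub F (e n) b z) DD :=
        cG.continuousOn.mul (HW_Ub hF (he0 n) b).cv
      exact (hc.aestronglyMeasurable Metric.isOpen_ball.measurableSet).indicator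
        Metric.isOpen_ball.measurableSet
    · have hfin : IsFiniteMeasure (volume.restrict DD) := ⟨by
        rw [Measure.restrict_apply_univ]
        exact measure_ball_lt_top⟩
      have hi1 : Integrable (fun z => ‖F z‖ ^ (2 * a)) (volume.restrict DD) := by
        refine Integrable.mono' (hFp.integrable.add (integrable_const (1:ℝ))) ?_ ?_
        · have hc : ContinuousOn (fun z => ‖F z‖ ^ (2 * a)) DD :=
            hF.continuousOn.norm.rpow_const fun z _ => Or.inr (by positivity)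
          exact hc.aestronglyMeasurable Metric.isOpen_ball.measurableSet
        · refine ae_of_all _ fun z => ?_
          rw [Real.norm_of_nonneg (by positivity)]
          simp only [Pi.add_apply]
          rcases le_total ‖F z‖ 1 with h | h
          · have h2 : ‖F z‖ ^ (2 * a) ≤ 1 := Real.rpow_le_one (norm_nonneg _) h (by positivity)
            have h3 : 0 ≤ ‖F z‖ ^ p := by positivity
            linarith
          · have h2 : ‖F z‖ ^ (2 * a) ≤ ‖F z‖ ^ p :=
              Real.rpow_le_rpow_of_exponent_le h (by rw [ha]; linarith)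
            linarith
      exact ((hi1.add (integrable_const (1:ℝ))).const_mul (2 ^ a)).const_mul Cg
    · intro n
      filter_upwards [ae_restrict_mem Metric.isOpen_ball.measurableSet] with z hz
      have hb0 : ‖(g z + D1 g z) * Ub F (e n) b z‖ ≤ Cg * (2 ^ a * (‖F z‖ ^ (2 * a) + 1)) := by
        rw [norm_mul]
        have h1 := (Ub_norm_le (F := F) (he0 n) hba z).trans
          (gen_le (norm_nonneg (F z)) (he0 n) (he1 n) ha0)
        exact mul_le_mul (hCg' z hz) h1 (norm_nonneg _) hCg0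
      by_cases hzb : z ∈ Metric.ball (0:ℂ) (Real.exp (-e n))
      · rw [indicator_of_mem hzb]
        exact hb0
      · rw [indicator_of_notMem hzb, norm_zero]
        positivity
    · filter_upwards [ae_restrict_mem Metric.isOpen_ball.measurableSet] with z hz
      have hz1 : ‖z‖ < 1 := by simpa using hz
      have h1 : Tendsto (fun n => Real.exp (-e n)) atTop (𝓝 1) := by
        have := (Real.continuous_exp.tendsto _).comp helim.neg
        rw [neg_zero, Real.exp_zero] at this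
        exact this
      have h2 : ∀ᶠ n in atTop, ‖z‖ < Real.exp (-e n) := h1.eventually_const_lt hz1
      have h3 := (U0_lim (F := F) (p := p) z helim).const_mul (g z + D1 g z)
      refine h3.congr' ?_
      filter_upwards [h2] with n hn
      rw [indicator_of_mem (by simpa using hn)]
  have hbd : ∀ n, ‖∫ z in Metric.ball (0:ℂ) (Real.exp (-e n)),
      (g z + D1 g z) * Ub F (e n) b z‖ ≤ Cst p q₁ p₁ M (avg (fun z => ‖g z‖ ^ p₁) (-e n)) := by
    intro n
    have hTn : -e n < 0 := by linarith [he0 n]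
    have h1 := ball_bound hF hgD (he0 n) ha0 hba hq hp1 hTn
    have cH : ContinuousOn (HH F g (e n) a q₁ p₁) DD := by
      obtain ⟨_, hH⟩ := HW_HH hF hgD (he0 n) a q₁ p₁
      have := Complex.continuous_re.comp_continuousOn hH.cv
      exact this
    have c1 : ContinuousOn (fun z => ‖F z‖ ^ (2 * (a * q₁))) DD :=
      hF.continuousOn.norm.rpow_const fun z _ => Or.inr (by positivity)
    have c2 : ContinuousOn (fun z => ‖g z‖ ^ (2 * (p₁ / 2))) DD :=
      hgD.continuousOn.norm.rpow_const fun z _ => Or.inr (by positivity)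
    have h2 : avg (HH F g (e n) a q₁ p₁) (-e n) ≤
        2 * (2 ^ (a * q₁) * (avg (fun z => ‖F z‖ ^ (2 * (a * q₁))) (-e n) + 1) +
          2 ^ (p₁ / 2) * (avg (fun z => ‖g z‖ ^ (2 * (p₁ / 2))) (-e n) + 1)) := by
      rw [← avg_lin c1 c2 hTn]
      apply avg_mono cH _ hTn fun z _ => HH_le (he0 n) (he1 n) ha0 hq hp1 z
      exact (((c1.add continuousOn_const).const_smul ((2:ℝ) ^ (a * q₁))).add
        ((c2.add continuousOn_const).const_smul ((2:ℝ) ^ (p₁ / 2)))).const_smul (2:ℝ)
    have e2 : 2 * (a * q₁) = (p - 1) * q₁ := by rw [ha]; ring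
    have e3 : 2 * (p₁ / 2) = p₁ := by ring
    rw [e2, e3] at h2
    have h3 := hM _ hTn
    have h4 : ‖avg (fun z => g z * Ub F (e n) b z) (-e n)‖ ≤ avg (HH F g (e n) a q₁ p₁) (-e n) := by
      refine (avg_norm_le _ _).trans ?_
      refine avg_mono (hgD.continuousOn.mul (HW_Ub hF (he0 n) b).cv).norm cH hTn fun z _ => ?_
      change ‖g z * Ub F (e n) b z‖ ≤ _
      rw [norm_mul]
      have k1 := Ub_norm_le (F := F) (he0 n) hba z
      have k2 : ‖g z‖ ≤ WW g 1 z ^ (1 / 2 : ℝ) := by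
        rw [← Real.sqrt_eq_rpow]
        apply Real.le_sqrt_of_sq_le
        unfold WW
        linarith
      have hW := WW_pos (F := F) (he0 n) z
      have hY := WW_pos (F := g) one_pos z
      have k3 : ‖g z‖ * ‖Ub F (e n) b z‖ ≤ VV F g (e n) a (1 / 2) z := by
        unfold VV
        rw [mul_comm (WW F (e n) z ^ a)]
        gcongr
      refine k3.trans ?_
      unfold HH
      have k4 : 0 ≤ VV F g (e n) (a * q₁) 0 z := by unfold VV; positivity
      have k5 : 0 ≤ VV F g (e n) 0 (p₁ / 2) z := by unfold VV; positivity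
      linarith
    refine h1.trans ?_
    unfold Cst
    have h5 : 2 * (2 ^ (a * q₁) * (avg (fun z => ‖F z‖ ^ ((p - 1) * q₁)) (-e n) + 1) +
          2 ^ (p₁ / 2) * (avg (fun z => ‖g z‖ ^ p₁) (-e n) + 1)) ≤
        2 * (2 ^ (a * q₁) * (M + 1) + 2 ^ (p₁ / 2) * (avg (fun z => ‖g z‖ ^ p₁) (-e n) + 1)) := by
      gcongr
    have h6 := h2.trans h5
    set X := 2 * (2 ^ (a * q₁) * (M + 1) + 2 ^ (p₁ / 2) * (avg (fun z => ‖g z‖ ^ p₁) (-e n) + 1))
    rw [← hC]
    calc Real.pi * (‖avg (fun z => g z * Ub F (e n) b z) (-e n)‖ +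
          C * avg (HH F g (e n) a q₁ p₁) (-e n)) ≤ Real.pi * (X + C * X) := by
          gcongr
          exact h4.trans h6
      _ = Real.pi * ((1 + C) * X) := by ring
  have cg : Continuous fun z => ‖g z‖ ^ p₁ :=
    hg.continuous.norm.rpow_const fun z => Or.inr (by linarith)
  have lim2 : Tendsto (fun n => Cst p q₁ p₁ M (avg (fun z => ‖g z‖ ^ p₁) (-e n))) atTop
      (𝓝 (Cst p q₁ p₁ M (avg (fun z => ‖g z‖ ^ p₁) 0))) := by
    have h1 : Tendsto (fun n => avg (fun z => ‖g z‖ ^ p₁) (-e n)) atTop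
        (𝓝 (avg (fun z => ‖g z‖ ^ p₁) 0)) := by
      have h2 : Tendsto (fun n => -e n) atTop (𝓝 0) := by simpa using helim.neg
      exact ((avg_cont cg).tendsto 0).comp h2
    have h3 : Continuous fun x => Cst p q₁ p₁ M x := by
      unfold Cst
      fun_prop
    exact (h3.tendsto _).comp h1
  refine (le_of_tendsto_of_tendsto' lim1.norm lim2 hbd).trans ?_
  unfold Cst
  gcongr

end Pool.Agent.V113.KR
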