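import Mathlib
import Pool.Agent.V113.KR.G

/-! The extremal relation. -/

open MeasureTheory Set Filter Topology Complex
open scoped ComplexConjugate

namespace Pool.Agent.V113.KR

/-- normalised area measure -/
noncomputable def sg : Measure ℂ := (ENNReal.ofReal Real.pi)⁻¹ • volume.restrict DD

lemma sg_prob : IsProbabilityMeasure sg := by
  constructor
  unfold sg
  rw [Measure.smul_apply, Measure.restrict_apply_univ, Complex.volume_ball]
  simp only [one_pow, ENNReal.ofReal_one, one_mul, smul_eq_mul]
  have h1 : ENNReal.ofReal Real.pi = (NNReal.pi : ENNReal) := by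
    rw [ENNReal.ofReal_eq_coe_nnreal Real.pi_pos.le]
    rfl
  rw [h1]
  apply ENNReal.inv_mul_cancel
  · exact_mod_cast NNReal.pi_pos.ne'
  · exact ENNReal.coe_ne_top

instance : IsProbabilityMeasure sg := sg_prob

lemma sg_ae {P : ℂ → Prop} (h : ∀ z ∈ DD, P z) : ∀ᵐ z ∂sg, P z := by
  unfold sg
  apply Measure.ae_smul_measure
  filter_upwards [ae_restrict_mem Metric.isOpen_ball.measurableSet] with z hz using h z hz

lemma sg_meas {E : Type*} [NormedAddCommGroup E] {v : ℂ → E} (hv : ContinuousOn v DD) :
    AEStronglyMeasurable v sg := by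
  unfold sg
  exact (hv.aestronglyMeasurable Metric.isOpen_ball.measurableSet).smul_measure _

lemma sg_int {E : Type*} [NormedAddCommGroup E] [NormedSpace ℝ E] (v : ℂ → E) :
    ∫ z, v z ∂sg = (Real.pi)⁻¹ • ∫ z in DD, v z := by
  unfold sg
  rw [integral_smul_measure, ENNReal.toReal_inv, ENNReal.toReal_ofReal Real.pi_pos.le]

lemma sg_integrable {E : Type*} [NormedAddCommGroup E] {v : ℂ → E} :
    Integrable v sg ↔ IntegrableOn v DD := by
  unfold sg
  rw [integrable_smul_measure]
  · rfl
  · simp
  · simp [Real.pi_pos]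

section
variable {F : ℂ → ℂ} {p : ℝ}

/-- the derivative of `t ↦ |F + t g|^p` -/
lemma pt_deriv (hp : 1 < p) (u w : ℂ) (t : ℝ) :
    HasDerivAt (fun t : ℝ => ‖u + t * w‖ ^ p)
      (p * (‖u + t * w‖ ^ (p - 2) * (conj (u + t * w) * w).re)) t := by
  have h1 := hasFDerivAt_norm_rpow (u + t * w) hp
  have h2 : HasDerivAt (fun t : ℝ => u + t * w) w t := by
    have h3 : HasDerivAt (fun t : ℝ => (t : ℂ) * w) (1 * w) t :=
      (Complex.ofRealCLM.hasDerivAt (x := t)).mul_const w
    rw [one_mul] at h3
    exact h3.const_add u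
  have h4 := h1.comp_hasDerivAt t h2
  refine h4.congr_deriv ?_
  simp only [smul_apply, innerSL_apply_apply, smul_eq_mul]
  rw [Complex.inner, mul_assoc, mul_comm w]

/-- the extremal relation -/
theorem extremal_rel {F k : ℂ → ℂ} {p : ℝ} (hp : 1 < p) (hF : DifferentiableOn ℂ F DD)
    (hk : DifferentiableOn ℂ k DD)
    (hFp : Integrable (fun z => ‖F z‖ ^ p) sg) (hF1 : ∫ z, ‖F z‖ ^ p ∂sg = 1)
    (hkq : Integrable (fun z => ‖k z‖ ^ (p / (p - 1))) sg)
    (hext : ∀ g : ℂ → ℂ, DifferentiableOn ℂ g DD → Integrable (fun z => ‖g z‖ ^ p) sg →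
      ∫ z, ‖g z‖ ^ p ∂sg = 1 →
      (∫ z, g z * conj (k z) ∂sg).re ≤ (∫ z, F z * conj (k z) ∂sg).re)
    {g : ℂ → ℂ} (hg : DifferentiableOn ℂ g DD) {B : ℝ} (hB : ∀ z ∈ DD, ‖g z‖ ≤ B) :
    ∫ z, g z * conj (k z) ∂sg =
      ((∫ z, F z * conj (k z) ∂sg).re : ℂ) * ∫ z, g z * U0 F p z ∂sg := by
  have hp0 : 0 < p := by linarith
  have hB0 : 0 ≤ B := (norm_nonneg _).trans (hB 0 (Metric.mem_ball_self one_pos))
  set m : ℝ := (∫ z, F z * conj (k z) ∂sg).re with hm
  have hFm := sg_meas hF.continuousOn
  have hkm := sg_meas hk.continuousOn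
  have hkcm : AEStronglyMeasurable (fun z => conj (k z)) sg :=
    sg_meas (Complex.continuous_conj.comp_continuousOn hk.continuousOn)
  -- integrability
  have hpq : p.HolderConjugate (p / (p - 1)) := by
    rw [Real.holderConjugate_iff]
    refine ⟨hp, ?_⟩
    have : p ≠ 0 := by linarith
    have : p - 1 ≠ 0 := by linarith
    field_simp
    ring
  have iFk : Integrable (fun z => F z * conj (k z)) sg := by
    refine Integrable.mono' (hFp.add hkq) (hFm.mul hkcm) (ae_of_all _ fun z => ?_)
    rw [norm_mul, RCLike.norm_conj]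
    have h1 := Real.young_inequality_of_nonneg (norm_nonneg (F z)) (norm_nonneg (k z)) hpq
    have h2 : ‖F z‖ ^ p / p ≤ ‖F z‖ ^ p := div_le_self (by positivity) hp.le
    have h3 : ‖k z‖ ^ (p / (p - 1)) / (p / (p - 1)) ≤ ‖k z‖ ^ (p / (p - 1)) := by
      apply div_le_self (by positivity)
      rw [le_div_iff₀ (by linarith)]
      linarith
    simp only [Pi.add_apply]
    linarith
  have ik : Integrable k sg := by
    refine Integrable.mono' (hkq.add (integrable_const (1:ℝ))) hkm (ae_of_all _ fun z => ?_)
    simp only [Pi.add_apply]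
    rcases le_total ‖k z‖ 1 with h | h
    · have : 0 ≤ ‖k z‖ ^ (p / (p - 1)) := by positivity
      linarith
    · have h2 : ‖k z‖ ^ (1:ℝ) ≤ ‖k z‖ ^ (p / (p - 1)) := by
        apply Real.rpow_le_rpow_of_exponent_le h
        rw [le_div_iff₀ (by linarith)]
        linarith
      rw [Real.rpow_one] at h2
      linarith
  have ikc : Integrable (fun z => conj (k z)) sg := by
    refine Integrable.mono' ik.norm hkcm (ae_of_all _ fun z => ?_)
    rw [RCLike.norm_conj]
  have iFB : Integrable (fun z => (‖F z‖ + B) ^ p) sg := by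
    have hc : ContinuousOn (fun z => (‖F z‖ + B) ^ p) DD :=
      (hF.continuousOn.norm.add continuousOn_const).rpow_const fun z _ => Or.inr hp0.le
    refine Integrable.mono' ((hFp.add (integrable_const (B ^ p))).const_mul (2 ^ p)) (sg_meas hc)
      (ae_of_all _ fun z => ?_)
    rw [Real.norm_of_nonneg (by positivity)]
    simp only [Pi.add_apply]
    have hn := norm_nonneg (F z)
    rcases le_total ‖F z‖ B with h | h
    · calc (‖F z‖ + B) ^ p ≤ (2 * B) ^ p := Real.rpow_le_rpow (by positivity) (by linarith) hp0.le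
        _ = 2 ^ p * B ^ p := Real.mul_rpow (by norm_num) hB0
        _ ≤ _ := by gcongr; linarith [Real.rpow_nonneg hn p]
    · calc (‖F z‖ + B) ^ p ≤ (2 * ‖F z‖) ^ p := Real.rpow_le_rpow (by positivity) (by linarith) hp0.le
        _ = 2 ^ p * ‖F z‖ ^ p := Real.mul_rpow (by norm_num) hn
        _ ≤ _ := by gcongr; linarith [Real.rpow_nonneg hB0 p]
  have iFB1 : Integrable (fun z => (‖F z‖ + B) ^ (p - 1)) sg := by
    have hc : ContinuousOn (fun z => (‖F z‖ + B) ^ (p - 1)) DD :=
      (hF.continuousOn.norm.add continuousOn_const).rpow_const fun z _ => Or.inr (by linarith)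
    refine Integrable.mono' (iFB.add (integrable_const (1:ℝ))) (sg_meas hc)
      (ae_of_all _ fun z => ?_)
    have hn := norm_nonneg (F z)
    rw [Real.norm_of_nonneg (by positivity)]
    simp only [Pi.add_apply]
    rcases le_total (‖F z‖ + B) 1 with h | h
    · have h2 : (‖F z‖ + B) ^ (p - 1) ≤ 1 := Real.rpow_le_one (by positivity) h (by linarith)
      have : 0 ≤ (‖F z‖ + B) ^ p := by positivity
      linarith
    · have h2 : (‖F z‖ + B) ^ (p - 1) ≤ (‖F z‖ + B) ^ p :=
        Real.rpow_le_rpow_of_exponent_le h (by linarith)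
      linarith
  -- the real part
  have real_part : ∀ g : ℂ → ℂ, DifferentiableOn ℂ g DD → (∀ z ∈ DD, ‖g z‖ ≤ B) →
      (∫ z, g z * conj (k z) ∂sg).re = m * (∫ z, g z * U0 F p z ∂sg).re := by
    intro g hg hB
    have hgm := sg_meas hg.continuousOn
    have igk : Integrable (fun z => g z * conj (k z)) sg :=
      ikc.bdd_mul hgm (c := B) (sg_ae hB)
    have hder := hasDerivAt_integral_of_dominated_loc_of_deriv_le (μ := sg) (x₀ := (0:ℝ))
      (s := Metric.ball (0:ℝ) 1)
      (F := fun (t : ℝ) z => ‖F z + t * g z‖ ^ p)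
      (F' := fun (t : ℝ) z => p * (‖F z + t * g z‖ ^ (p - 2) * (conj (F z + t * g z) * g z).re))
      (bound := fun z => p * ((‖F z‖ + B) ^ (p - 1) * B)) (Metric.ball_mem_nhds _ one_pos)
      (Eventually.of_forall fun t => by
        have hc : ContinuousOn (fun z => ‖F z + t * g z‖ ^ p) DD :=
          (hF.continuousOn.add (hg.continuousOn.const_smul (t : ℂ))).norm.rpow_const
            fun z _ => Or.inr hp0.le
        exact sg_meas hc)
      (by simpa using hFp)
      (by
        simp only [Complex.ofReal_zero, zero_mul, add_zero]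
        have h1 : AEStronglyMeasurable (fun z => ‖F z‖ ^ (p - 2)) sg :=
          (hFm.norm.aemeasurable.pow_const (p - 2)).aestronglyMeasurable
        have h2 : AEStronglyMeasurable (fun z => (conj (F z) * g z).re) sg := by
          have hc : ContinuousOn (fun z => (conj (F z) * g z).re) DD :=
            Complex.continuous_re.comp_continuousOn
              ((Complex.continuous_conj.comp_continuousOn hF.continuousOn).mul hg.continuousOn)
          exact sg_meas hc
        exact (h1.mul h2).const_mul p)
      (sg_ae fun z hz t ht => by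
        have ht1 : |t| < 1 := by simpa using ht
        have hgz := hB z hz
        rw [norm_mul, norm_mul, Real.norm_of_nonneg hp0.le, Real.norm_of_nonneg (by positivity)]
        have h1 : ‖(conj (F z + t * g z) * g z).re‖ ≤ ‖F z + t * g z‖ * ‖g z‖ := by
          rw [Real.norm_eq_abs]
          refine (Complex.abs_re_le_norm _).trans ?_
          rw [norm_mul, RCLike.norm_conj]
        have h2 : ‖F z + t * g z‖ ≤ ‖F z‖ + B := by
          refine (norm_add_le _ _).trans ?_
          rw [norm_mul, Complex.norm_real, Real.norm_eq_abs]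
          have : |t| * ‖g z‖ ≤ 1 * B := mul_le_mul ht1.le hgz (norm_nonneg _) zero_le_one
          linarith
        have h3 : ‖F z + t * g z‖ ^ (p - 2) * (‖F z + t * g z‖ * ‖g z‖) ≤
            (‖F z‖ + B) ^ (p - 1) * B := by
          rw [← mul_assoc]
          have h4 : ‖F z + t * g z‖ ^ (p - 2) * ‖F z + t * g z‖ = ‖F z + t * g z‖ ^ (p - 1) := by
            rcases (norm_nonneg (F z + t * g z)).eq_or_lt with h0 | h0
            · rw [← h0, mul_zero, Real.zero_rpow (by linarith)]
            · nth_rewrite 2 [← Real.rpow_one ‖F z + t * g z‖]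
              rw [← Real.rpow_add h0]
              congr 1
              ring
          rw [h4]
          have h5 : ‖F z + t * g z‖ ^ (p - 1) ≤ (‖F z‖ + B) ^ (p - 1) :=
            Real.rpow_le_rpow (norm_nonneg _) h2 (by linarith)
          exact mul_le_mul h5 hgz (norm_nonneg _) (by positivity)
        have h6 := mul_le_mul_of_nonneg_left h1 (Real.rpow_nonneg (norm_nonneg (F z + t * g z)) (p - 2))
        exact mul_le_mul_of_nonneg_left (h6.trans h3) hp0.le)
      ((iFB1.mul_const B).const_mul p)
      (sg_ae fun z _ t _ => pt_deriv hp (F z) (g z) t)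
    have hd1 := hder.2
    simp only [Complex.ofReal_zero, zero_mul, add_zero] at hd1
    set f : ℝ → ℝ := fun t => ∫ z, ‖F z + t * g z‖ ^ p ∂sg with hf
    have hf0 : f 0 = 1 := by
      rw [hf]
      simpa using hF1
    have igU : Integrable (fun z => g z * U0 F p z) sg := by
      have hm1 : AEStronglyMeasurable (U0 F p) sg := by
        unfold U0
        have h1 : AEStronglyMeasurable (fun z => ‖F z‖ ^ (p - 2)) sg :=
          (hFm.norm.aemeasurable.pow_const (p - 2)).aestronglyMeasurable
        have h2 : AEStronglyMeasurable (fun z => conj (F z)) sg :=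
          sg_meas (Complex.continuous_conj.comp_continuousOn hF.continuousOn)
        exact (Complex.continuous_ofReal.comp_aestronglyMeasurable h1).mul h2
      refine Integrable.mono' (iFB1.mul_const B) (hgm.mul hm1) ?_
      apply sg_ae
      intro z hz
      rw [norm_mul]
      have h1 : ‖U0 F p z‖ ≤ (‖F z‖ + B) ^ (p - 1) := by
        unfold U0
        rw [norm_mul, RCLike.norm_conj, Complex.norm_real, Real.norm_of_nonneg (by positivity)]
        have h4 : ‖F z‖ ^ (p - 2) * ‖F z‖ = ‖F z‖ ^ (p - 1) := by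
          rcases (norm_nonneg (F z)).eq_or_lt with h0 | h0
          · rw [← h0, mul_zero, Real.zero_rpow (by linarith)]
          · nth_rewrite 2 [← Real.rpow_one ‖F z‖]
            rw [← Real.rpow_add h0]
            congr 1
            ring
        rw [h4]
        exact Real.rpow_le_rpow (norm_nonneg _) (by linarith) (by linarith)
      calc ‖g z‖ * ‖U0 F p z‖ ≤ B * (‖F z‖ + B) ^ (p - 1) :=
            mul_le_mul (hB z hz) h1 (norm_nonneg _) hB0
        _ = _ := mul_comm _ _
    have hval : ∫ z, p * (‖F z‖ ^ (p - 2) * (conj (F z) * g z).re) ∂sg =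
        p * (∫ z, g z * U0 F p z ∂sg).re := by
      rw [integral_const_mul]
      congr 1
      have h1 := integral_re igU
      have h2 : ∀ z, ‖F z‖ ^ (p - 2) * (conj (F z) * g z).re = RCLike.re (g z * U0 F p z) := by
        intro z
        unfold U0
        change _ = (g z * (((‖F z‖ ^ (p - 2) : ℝ) : ℂ) * conj (F z))).re
        rw [show g z * (((‖F z‖ ^ (p - 2) : ℝ) : ℂ) * conj (F z)) =
          ((‖F z‖ ^ (p - 2) : ℝ) : ℂ) * (conj (F z) * g z) by ring, Complex.re_ofReal_mul]
      simp only [h2]
      exact h1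
    rw [hval] at hd1
    have hd2 : HasDerivAt (fun t => f t ^ (1 / p)) ((∫ z, g z * U0 F p z ∂sg).re) 0 := by
      have h1 := hd1.rpow_const (p := 1 / p) (Or.inl (by rw [hf0]; norm_num))
      refine h1.congr_deriv ?_
      rw [hf0, Real.one_rpow]
      field_simp
    have hfpos : ∀ᶠ t in 𝓝 (0:ℝ), 0 < f t := by
      apply hd1.continuousAt.eventually_const_lt
      rw [hf0]
      norm_num
    have hd3 : HasDerivAt (fun t => m * f t ^ (1 / p) - m - t * (∫ z, g z * conj (k z) ∂sg).re)
        (m * (∫ z, g z * U0 F p z ∂sg).re - (∫ z, g z * conj (k z) ∂sg).re) 0 := by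
      have h1 := ((hd2.const_mul m).sub_const m).sub
        ((hasDerivAt_id (0:ℝ)).mul_const (∫ z, g z * conj (k z) ∂sg).re)
      refine h1.congr_deriv ?_
      ring
    have hmin : IsLocalMin (fun t => m * f t ^ (1 / p) - m - t * (∫ z, g z * conj (k z) ∂sg).re) 0 := by
      filter_upwards [hfpos] with t ht
      simp only [zero_mul, sub_zero]
      rw [hf0, Real.one_rpow, mul_one, sub_self]
      set c : ℝ := f t ^ (1 / p) with hc
      have hcpos : 0 < c := Real.rpow_pos_of_pos ht _
      have hcp : c ^ p = f t := by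
        rw [hc, ← Real.rpow_mul ht.le, one_div_mul_cancel hp0.ne', Real.rpow_one]
      have hnorm : ∀ z, ‖((c⁻¹ : ℝ) : ℂ) * (F z + t * g z)‖ ^ p = (c⁻¹) ^ p * ‖F z + t * g z‖ ^ p := by
        intro z
        rw [norm_mul, Complex.norm_real, Real.norm_of_nonneg (by positivity),
          Real.mul_rpow (by positivity) (norm_nonneg _)]
      have hdiff : DifferentiableOn ℂ (fun z => ((c⁻¹ : ℝ) : ℂ) * (F z + t * g z)) DD :=
        (hF.add (hg.const_mul (t : ℂ))).const_mul _
      have hint : Integrable (fun z => ‖F z + t * g z‖ ^ p) sg := by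
        by_contra hni
        have : f t = 0 := integral_undef hni
        linarith
      have h1 := hext (fun z => ((c⁻¹ : ℝ) : ℂ) * (F z + t * g z)) hdiff
        (by simp only [hnorm]; exact hint.const_mul _)
        (by
          simp only [hnorm]
          rw [integral_const_mul]
          change (c⁻¹) ^ p * f t = 1
          rw [← hcp, ← Real.mul_rpow (by positivity) hcpos.le, inv_mul_cancel₀ hcpos.ne',
            Real.one_rpow])
      have h2 : ∫ z, ((c⁻¹ : ℝ) : ℂ) * (F z + t * g z) * conj (k z) ∂sg =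
          ((c⁻¹ : ℝ) : ℂ) * (∫ z, F z * conj (k z) ∂sg + t * ∫ z, g z * conj (k z) ∂sg) := by
        rw [← integral_const_mul, ← integral_add iFk (igk.const_mul (t : ℂ)), ← integral_const_mul]
        congr 1
        funext z
        ring
      rw [h2, Complex.re_ofReal_mul, Complex.add_re, Complex.re_ofReal_mul, ← hm] at h1
      rw [inv_mul_le_iff₀ hcpos] at h1
      linarith
    have h0 := hmin.hasDerivAt_eq_zero hd3
    linarith
  have r1 := real_part g hg hB
  have r2 := real_part (fun z => I * g z) (hg.const_mul I) (fun z hz => by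
    rw [norm_mul, Complex.norm_I, one_mul]
    exact hB z hz)
  have e1 : ∫ z, I * g z * conj (k z) ∂sg = I * ∫ z, g z * conj (k z) ∂sg := by
    rw [← integral_const_mul]
    congr 1
    funext z
    ring
  have e2 : ∫ z, I * g z * U0 F p z ∂sg = I * ∫ z, g z * U0 F p z ∂sg := by
    rw [← integral_const_mul]
    congr 1
    funext z
    ring
  rw [e1, e2, Complex.I_mul_re, Complex.I_mul_re] at r2
  apply Complex.ext
  · rw [Complex.re_ofReal_mul]
    exact r1
  · rw [Complex.im_ofReal_mul]
    linarith

end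

end Pool.Agent.V113.KR
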