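import Pool.Agent.V113.KR.H
import Pool.Agent.H713R2.TC
import Pool.Agent.H758R2.Besov.Polar

/-! The pairing of a polynomial with the kernel. -/

open MeasureTheory Set Filter Topology Complex Polynomial
open scoped ComplexConjugate

namespace Pool.Agent.V113.KR

open Pool.Agent.H713R2 (tc)

/-- Fourier coefficients of a power series on a circle. -/
lemma integral_exp_tc {F : ℂ → ℂ} (hF : DifferentiableOn ℂ F DD) {r : ℝ} (hr : 0 < r)
    (hr1 : r < 1) (k : ℕ) :
    ∫ θ in (-Real.pi)..Real.pi, Complex.exp (-(k * θ * I)) * F (circleMap 0 r θ) =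
      2 * Real.pi * (tc F k * r ^ k) := by
  have h1 := Pool.Agent.H713R2.circleIntegral_tc hr hr1 hF k
  have hper : Function.Periodic
      (fun θ : ℝ => Complex.exp (-(k * θ * I)) * F (circleMap 0 r θ)) (2 * Real.pi) := by
    intro θ
    have h2 : circleMap 0 r (θ + 2 * Real.pi) = circleMap 0 r θ := periodic_circleMap 0 r θ
    have h3 : Complex.exp (-(k * ((θ + 2 * Real.pi : ℝ) : ℂ) * I)) = Complex.exp (-(k * θ * I)) := by
      have : -(k * ((θ + 2 * Real.pi : ℝ) : ℂ) * I) = -(k * θ * I) - k * (2 * Real.pi * I) := by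
        push_cast; ring
      rw [this, Complex.exp_sub, Complex.exp_nat_mul_two_pi_mul_I, div_one]
    simp only
    rw [h2, h3]
  have h4 := hper.intervalIntegral_add_eq (-Real.pi) 0
  rw [show -Real.pi + 2 * Real.pi = Real.pi by ring, zero_add] at h4
  rw [h4]
  rw [circleIntegral] at h1
  have h5 : ∀ θ : ℝ, deriv (circleMap 0 r) θ • (F (circleMap 0 r θ) / circleMap 0 r θ ^ (k + 1)) =
      (I / r ^ k) * (Complex.exp (-(k * θ * I)) * F (circleMap 0 r θ)) := by
    intro θ
    have hrC : (r : ℂ) ≠ 0 := by exact_mod_cast hr.ne'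
    have h6 : circleMap 0 r θ = r * Complex.exp (θ * I) := by simp [circleMap]
    have h7 : Complex.exp (-(k * θ * I)) = (Complex.exp (θ * I) ^ k)⁻¹ := by
      rw [← Complex.exp_nat_mul, ← Complex.exp_neg]
      congr 1; ring
    have h8 : Complex.exp (θ * I) ≠ 0 := Complex.exp_ne_zero _
    rw [deriv_circleMap, h7, smul_eq_mul]
    generalize F (circleMap 0 r θ) = v
    rw [h6, mul_pow]
    field_simp
    rw [pow_succ, pow_succ]
    ring
  simp only [h5] at h1
  rw [intervalIntegral.integral_const_mul] at h1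
  have hrC : ((r : ℂ) ^ k) ≠ 0 := pow_ne_zero _ (by exact_mod_cast hr.ne')
  have hI := I_ne_zero
  generalize (∫ θ in (0:ℝ)..(2 * Real.pi), Complex.exp (-(k * θ * I)) * F (circleMap 0 r θ)) = J
    at h1 ⊢
  have h9 : J = (r ^ k / I) * (I / r ^ k * J) := by field_simp
  rw [h9, h1]
  field_simp

/-- the pairing over a smaller disc -/
lemma ball_coeff {k : ℂ → ℂ} (hk : DifferentiableOn ℂ k DD) {R : ℝ} (hR : 0 < R) (hR1 : R < 1)
    (n : ℕ) : ∫ z in Metric.ball (0:ℂ) R, z ^ n * conj (k z) =
      Real.pi * conj (tc k n) * R ^ (2 * n + 2) / (n + 1) := by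
  have hc : ContinuousOn (fun z => z ^ n * conj (k z)) (Metric.closedBall 0 R) := by
    have h1 : ContinuousOn k (Metric.closedBall 0 R) :=
      hk.continuousOn.mono (Metric.closedBall_subset_ball hR1)
    exact (continuous_pow n).continuousOn.mul (Complex.continuous_conj.comp_continuousOn h1)
  rw [Pool.Agent.H758R2.Besov.polar_ball _ hR hc]
  have h1 : ∫ r in (0:ℝ)..R, ∫ θ in (-Real.pi)..Real.pi, r •
      (circleMap 0 r θ ^ n * conj (k (circleMap 0 r θ))) =
      ∫ r in (0:ℝ)..R, 2 * Real.pi * conj (tc k n) * ((r ^ (2 * n + 1) : ℝ) : ℂ) := by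
    apply intervalIntegral.integral_congr_ae
    filter_upwards with r hr
    rw [uIoc_of_le hR.le] at hr
    have hr0 : 0 < r := hr.1
    have hr1 : r < 1 := lt_of_le_of_lt hr.2 hR1
    rw [intervalIntegral.integral_smul]
    have h2 := congrArg (starRingEnd ℂ) (integral_exp_tc hk hr0 hr1 n)
    rw [← intervalIntegral.intervalIntegral_conj] at h2
    have h3 : ∫ θ in (-Real.pi)..Real.pi, circleMap 0 r θ ^ n * conj (k (circleMap 0 r θ)) =
        (r : ℂ) ^ n * ∫ θ in (-Real.pi)..Real.pi,
          conj (Complex.exp (-(n * θ * I)) * k (circleMap 0 r θ)) := by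
      rw [← intervalIntegral.integral_const_mul]
      congr 1
      funext θ
      have h6 : circleMap 0 r θ = r * Complex.exp (θ * I) := by simp [circleMap]
      rw [map_mul, ← Complex.exp_conj]
      simp only [map_neg, map_mul, Complex.conj_I, Complex.conj_ofReal, map_natCast]
      have h7 : -(↑n * ↑θ * -I) = n * (θ * I) := by ring
      rw [h7, Complex.exp_nat_mul]
      nth_rewrite 1 [h6]
      rw [mul_pow]
      ring
    rw [h3, h2]
    simp only [map_mul, map_pow, Complex.conj_ofReal, Complex.real_smul]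
    have : conj (2:ℂ) = 2 := by
      have := Complex.conj_ofReal 2
      simpa using this
    rw [this]
    push_cast
    ring
  rw [h1, intervalIntegral.integral_const_mul, intervalIntegral.integral_ofReal, integral_pow]
  have h0 : (n : ℂ) + 1 ≠ 0 := by exact_mod_cast Nat.succ_ne_zero n
  push_cast
  rw [show 2 * n + 1 + 1 = 2 * n + 2 by ring]
  have h2 : (2 * (n:ℂ) + 1 + 1) = 2 * (n + 1) := by ring
  rw [h2]
  field_simp
  simp

/-- the pairing over the disc -/
lemma disc_coeff {k : ℂ → ℂ} (hk : DifferentiableOn ℂ k DD) (hki : Integrable k sg) (n : ℕ) :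
    ∫ z, z ^ n * conj (k z) ∂sg = conj (tc k n) / (n + 1) := by
  have hi : IntegrableOn (fun z => z ^ n * conj (k z)) DD := by
    rw [← sg_integrable]
    have hm : AEStronglyMeasurable (fun z => z ^ n * conj (k z)) sg :=
      sg_meas ((continuous_pow n).continuousOn.mul
        (Complex.continuous_conj.comp_continuousOn hk.continuousOn))
    refine Integrable.mono' hki.norm hm (sg_ae fun z hz => ?_)
    rw [norm_mul, RCLike.norm_conj, norm_pow]
    have h1 : ‖z‖ ^ n ≤ 1 := pow_le_one₀ (norm_nonneg z) (by simpa using (Metric.mem_ball.mp hz).le)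
    nlinarith [norm_nonneg (k z)]
  set R : ℕ → ℝ := fun j => 1 - 1 / ((j : ℝ) + 2) with hRdef
  have hR0 : ∀ j, 0 < R j := fun j => by
    rw [hRdef]
    simp only
    rw [sub_pos, div_lt_one (by positivity)]
    have : (0:ℝ) ≤ j := Nat.cast_nonneg j
    linarith
  have hR1 : ∀ j, R j < 1 := fun j => by
    rw [hRdef]
    simp only
    have : 0 < 1 / ((j : ℝ) + 2) := by positivity
    linarith
  have hRlim : Tendsto R atTop (𝓝 1) := by
    have h1 : Tendsto (fun j : ℕ => 1 / ((j : ℝ) + 2)) atTop (𝓝 0) := by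
      apply Tendsto.div_atTop tendsto_const_nhds
      exact tendsto_atTop_add_const_right _ _ tendsto_natCast_atTop_atTop
    have := h1.const_sub 1
    rw [sub_zero] at this
    exact this
  have hmono : Monotone fun j => Metric.ball (0:ℂ) (R j) := by
    intro i j hij
    apply Metric.ball_subset_ball
    rw [hRdef]
    simp only
    have : (i:ℝ) ≤ j := by exact_mod_cast hij
    gcongr
  have hU : (⋃ j, Metric.ball (0:ℂ) (R j)) = DD := by
    ext z
    simp only [mem_iUnion, Metric.mem_ball, dist_zero_right]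
    constructor
    · rintro ⟨j, hj⟩
      exact hj.trans (hR1 j)
    · intro hz
      obtain ⟨j, hj⟩ := (hRlim.eventually_const_lt hz).exists
      exact ⟨j, hj⟩
  have h1 := tendsto_setIntegral_of_monotone (fun j => (Metric.isOpen_ball (x := (0:ℂ)) (ε := R j)).measurableSet)
    hmono (f := fun z => z ^ n * conj (k z)) (μ := volume) (by rw [hU]; exact hi)
  rw [hU] at h1
  have h2 : ∀ j, ∫ z in Metric.ball (0:ℂ) (R j), z ^ n * conj (k z) =
      Real.pi * conj (tc k n) * (R j : ℂ) ^ (2 * n + 2) / (n + 1) := fun j =>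
    ball_coeff hk (hR0 j) (hR1 j) n
  simp only [h2] at h1
  have h3 : Tendsto (fun j => Real.pi * conj (tc k n) * (R j : ℂ) ^ (2 * n + 2) / (n + 1)) atTop
      (𝓝 (Real.pi * conj (tc k n) * (((1:ℝ) : ℂ)) ^ (2 * n + 2) / (n + 1))) := by
    have h4 : Tendsto (fun j => (R j : ℂ)) atTop (𝓝 ((1:ℝ) : ℂ)) :=
      (Complex.continuous_ofReal.tendsto _).comp hRlim
    exact ((h4.pow _).const_mul _).div_const _
  have h5 := tendsto_nhds_unique h1 h3
  rw [sg_int, h5]
  rw [Complex.real_smul]
  push_cast
  have hpi : (Real.pi : ℂ) ≠ 0 := by exact_mod_cast Real.pi_pos.ne'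
  rw [one_pow]
  field_simp

/-- the pairing with a polynomial -/
lemma poly_pair {k : ℂ → ℂ} (hk : DifferentiableOn ℂ k DD) (hki : Integrable k sg) (P : ℂ[X]) :
    ∫ z, (P.eval z + D1 (fun z => P.eval z) z) * conj (k z) ∂sg =
      ∑ n ∈ P.support, P.coeff n * conj (tc k n) := by
  have h1 : ∀ z, P.eval z + D1 (fun z => P.eval z) z =
      ∑ n ∈ P.support, P.coeff n * ((n + 1) * z ^ n) := by
    intro z
    unfold D1
    rw [Polynomial.deriv, Polynomial.eval_eq_sum, Polynomial.sum, Polynomial.derivative_eval,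
      Polynomial.sum, Finset.mul_sum, ← Finset.sum_add_distrib]
    apply Finset.sum_congr rfl
    intro n _
    rcases Nat.eq_zero_or_pos n with h | h
    · subst h
      simp
    · have : z ^ n = z * z ^ (n - 1) := by
        rw [← pow_succ']
        congr 1
        omega
      rw [this]
      ring
  have hin : ∀ n : ℕ, Integrable (fun z => z ^ n * conj (k z)) sg := by
    intro n
    have hm : AEStronglyMeasurable (fun z => z ^ n * conj (k z)) sg :=
      sg_meas ((continuous_pow n).continuousOn.mul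
        (Complex.continuous_conj.comp_continuousOn hk.continuousOn))
    refine Integrable.mono' hki.norm hm (sg_ae fun z hz => ?_)
    rw [norm_mul, RCLike.norm_conj, norm_pow]
    have h1 : ‖z‖ ^ n ≤ 1 := pow_le_one₀ (norm_nonneg z) (by simpa using (Metric.mem_ball.mp hz).le)
    nlinarith [norm_nonneg (k z)]
  have h2 : ∀ z, (P.eval z + D1 (fun z => P.eval z) z) * conj (k z) =
      ∑ n ∈ P.support, (P.coeff n * (n + 1)) * (z ^ n * conj (k z)) := by
    intro z
    rw [h1, Finset.sum_mul]
    apply Finset.sum_congr rfl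
    intro n _
    ring
  simp only [h2]
  rw [integral_finsetSum _ fun n _ => (hin n).const_mul _]
  apply Finset.sum_congr rfl
  intro n _
  rw [integral_const_mul, disc_coeff hk hki n]
  have h0 : (n : ℂ) + 1 ≠ 0 := by exact_mod_cast Nat.succ_ne_zero n
  field_simp

end Pool.Agent.V113.KR
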