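import Mathlib
import Pool.Agent.W688.TB.Riesz

/-! The theorem of M. Riesz for trigonometric polynomials. -/

open MeasureTheory Set Filter Topology Complex

namespace Pool.Agent.V113.KR

/-- a trigonometric polynomial with nonnegative frequencies -/
noncomputable def tp (c : ℕ → ℂ) (N : ℕ) (θ : ℝ) : ℂ :=
  ∑ j ∈ Finset.range N, c j * Complex.exp (j * θ * I)

lemma tp_cont (c : ℕ → ℂ) (N : ℕ) : Continuous (tp c N) := by
  unfold tp
  fun_prop

lemma tp_per (c : ℕ → ℂ) (N : ℕ) : Function.Periodic (tp c N) (2 * Real.pi) := by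
  intro θ
  unfold tp
  apply Finset.sum_congr rfl
  intro j _
  congr 1
  have : (j : ℂ) * ((θ + 2 * Real.pi : ℝ) : ℂ) * I = j * θ * I + j * (2 * Real.pi * I) := by
    push_cast; ring
  rw [this, Complex.exp_add, Complex.exp_nat_mul_two_pi_mul_I, mul_one]

lemma int_shift {f : ℝ → ℝ} (hf : Function.Periodic f (2 * Real.pi)) (a : ℝ) :
    ∫ φ in (0:ℝ)..(2 * Real.pi), f (φ + a) = ∫ φ in (0:ℝ)..(2 * Real.pi), f φ := by
  rw [intervalIntegral.integral_comp_add_right (fun x => f x) a]
  have h := hf.intervalIntegral_add_eq a 0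
  rw [zero_add] at h
  rw [zero_add, add_comm (2 * Real.pi) a]
  exact h

lemma riesz_circ (q : ℝ) (hq : 1 < q) : ∃ C : ℝ, 0 < C ∧ ∀ (c : ℕ → ℂ) (N d : ℕ), N ≤ d →
    ∫ θ in (0:ℝ)..(2 * Real.pi), ‖tp c N θ‖ ^ q ≤
      C * ∫ θ in (0:ℝ)..(2 * Real.pi), ‖tp c d θ‖ ^ q := by
  obtain ⟨C, hC, h⟩ := Pool.Agent.W688.TBR.t_riesz q hq
  refine ⟨C, hC, ?_⟩
  intro c N d hN
  have hper : ∀ M, Function.Periodic (fun θ => ‖tp c M θ‖ ^ q) (2 * Real.pi) := by
    intro M θ
    simp only [tp_per c M θ]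
  have hcont : ∀ M, Continuous (fun θ => ‖tp c M θ‖ ^ q) := fun M =>
    (tp_cont c M).norm.rpow_const fun _ => Or.inr (by linarith)
  rcases Nat.eq_zero_or_pos d with hd | hd
  · subst hd
    have : N = 0 := by omega
    subst this
    unfold tp
    simp only [Finset.range_zero, Finset.sum_empty, norm_zero]
    rw [Real.zero_rpow (by linarith)]
    simp
  have hd' : (d : ℝ) ≠ 0 := by exact_mod_cast hd.ne'
  have hdc : (d : ℂ) ≠ 0 := by exact_mod_cast hd.ne'
  -- the discrete inequality for rotated coefficients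
  have h1 : ∀ φ : ℝ, ∑ D ∈ Finset.range d, ‖tp c N (φ + 2 * Real.pi * D / d)‖ ^ q ≤
      C * ∑ D ∈ Finset.range d, ‖tp c d (φ + 2 * Real.pi * D / d)‖ ^ q := by
    intro φ
    have h2 := h d (fun j => c j * Complex.exp (j * φ * I)) N hN
    have e : ∀ M : ℕ, ∀ D : ℕ, ∑ j ∈ Finset.range M, (c j * Complex.exp (j * φ * I)) *
        Complex.exp (Complex.I * (2 * Real.pi * j * D / d)) = tp c M (φ + 2 * Real.pi * D / d) := by
      intro M D
      unfold tp
      apply Finset.sum_congr rfl
      intro j _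
      rw [mul_assoc, ← Complex.exp_add]
      congr 2
      push_cast
      ring
    simp only [e] at h2
    exact h2
  have h2 : ∀ M, ∫ φ in (0:ℝ)..(2 * Real.pi), ∑ D ∈ Finset.range d,
      ‖tp c M (φ + 2 * Real.pi * D / d)‖ ^ q = d * ∫ φ in (0:ℝ)..(2 * Real.pi), ‖tp c M φ‖ ^ q := by
    intro M
    rw [intervalIntegral.integral_finsetSum]
    · have : ∀ D ∈ Finset.range d, ∫ φ in (0:ℝ)..(2 * Real.pi),
          ‖tp c M (φ + 2 * Real.pi * D / d)‖ ^ q = ∫ φ in (0:ℝ)..(2 * Real.pi), ‖tp c M φ‖ ^ q :=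
        fun D _ => int_shift (hper M) _
      rw [Finset.sum_congr rfl this, Finset.sum_const, Finset.card_range, nsmul_eq_mul]
    · intro D _
      exact ((hcont M).comp (continuous_id.add continuous_const)).intervalIntegrable _ _
  have h3 := intervalIntegral.integral_mono (μ := volume) (a := 0) (b := 2 * Real.pi)
    (by positivity)
    (f := fun φ => ∑ D ∈ Finset.range d, ‖tp c N (φ + 2 * Real.pi * D / d)‖ ^ q)
    (g := fun φ => C * ∑ D ∈ Finset.range d, ‖tp c d (φ + 2 * Real.pi * D / d)‖ ^ q)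
    ((continuous_finsetSum _ fun D _ =>
      (hcont N).comp (continuous_id.add continuous_const)).intervalIntegrable _ _)
    ((continuous_const.mul (continuous_finsetSum _ fun D _ =>
      (hcont d).comp (continuous_id.add continuous_const))).intervalIntegrable _ _)
    h1
  rw [intervalIntegral.integral_const_mul, h2, h2] at h3
  have hdpos : (0:ℝ) < d := by exact_mod_cast hd
  have h4 : (d:ℝ) * ∫ φ in (0:ℝ)..(2 * Real.pi), ‖tp c N φ‖ ^ q ≤
      d * (C * ∫ φ in (0:ℝ)..(2 * Real.pi), ‖tp c d φ‖ ^ q) := by linarith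
  exact le_of_mul_le_mul_left h4 hdpos

/-- a trigonometric polynomial -/
noncomputable def tq (c : ℤ →₀ ℂ) (θ : ℝ) : ℂ := ∑ j ∈ c.support, c j * Complex.exp (j * θ * I)

lemma tq_cont (c : ℤ →₀ ℂ) : Continuous (tq c) := by
  unfold tq
  fun_prop

lemma two_rpow {x y q : ℝ} (hx : 0 ≤ x) (hy : 0 ≤ y) (hq : 0 < q) :
    (x + y) ^ q ≤ 2 ^ q * (x ^ q + y ^ q) := by
  have h1 := Real.rpow_nonneg hx q
  have h2 := Real.rpow_nonneg hy q
  rcases le_total x y with h | h
  · calc (x + y) ^ q ≤ (2 * y) ^ q := Real.rpow_le_rpow (by positivity) (by linarith) hq.le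
      _ = 2 ^ q * y ^ q := Real.mul_rpow (by norm_num) hy
      _ ≤ _ := by gcongr; linarith
  · calc (x + y) ^ q ≤ (2 * x) ^ q := Real.rpow_le_rpow (by positivity) (by linarith) hq.le
      _ = 2 ^ q * x ^ q := Real.mul_rpow (by norm_num) hx
      _ ≤ _ := by gcongr; linarith

lemma riesz_tq (q : ℝ) (hq : 1 < q) : ∃ C : ℝ, 0 < C ∧ ∀ (c : ℤ →₀ ℂ) (N : ℕ),
    ∫ θ in (0:ℝ)..(2 * Real.pi), ‖tp (fun n => c n) N θ‖ ^ q ≤
      C * ∫ θ in (0:ℝ)..(2 * Real.pi), ‖tq c θ‖ ^ q := by
  obtain ⟨C, hC, h⟩ := riesz_circ q hq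
  refine ⟨2 ^ q * (2 * C), by positivity, ?_⟩
  intro c N
  obtain ⟨M, hM⟩ : ∃ M : ℕ, ∀ j ∈ c.support, -(M:ℤ) ≤ j ∧ j < M := by
    refine ⟨c.support.sup (fun j => j.natAbs) + 1, fun j hj => ?_⟩
    have h1 : j.natAbs ≤ c.support.sup (fun j => j.natAbs) :=
      Finset.le_sup (f := fun j : ℤ => j.natAbs) hj
    omega
  set c' : ℕ → ℂ := fun i => c ((i:ℤ) - M) with hc'
  set d := 2 * M + N with hd
  have e1 : ∀ θ : ℝ, tp c' d θ = Complex.exp (M * θ * I) * tq c θ := by
    intro θ
    unfold tp tq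
    rw [Finset.mul_sum]
    have h1 : ∀ j ∈ c.support, Complex.exp (M * θ * I) * (c j * Complex.exp (j * θ * I)) =
        (fun j : ℤ => c j * Complex.exp ((j + M) * θ * I)) j := by
      intro j _
      simp only
      rw [mul_left_comm, ← Complex.exp_add]
      congr 2
      ring
    rw [Finset.sum_congr rfl h1]
    have h2 : ∀ i ∈ Finset.range d, c' i * Complex.exp (i * θ * I) =
        (fun j : ℤ => c j * Complex.exp ((j + M) * θ * I)) ((i:ℤ) - M) := by
      intro i _
      simp only [hc']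
      congr 2
      push_cast
      ring
    rw [Finset.sum_congr rfl h2]
    have hinj : Set.InjOn (fun i : ℕ => (i:ℤ) - M) (Finset.range d : Set ℕ) := by
      intro x _ y _ hxy
      simp only at hxy
      omega
    rw [← Finset.sum_image (f := fun j : ℤ => c j * Complex.exp ((j + M) * θ * I)) hinj]
    symm
    apply Finset.sum_subset
    · intro j hj
      rw [Finset.mem_image]
      obtain ⟨h3, h4⟩ := hM j hj
      refine ⟨(j + M).toNat, ?_, ?_⟩
      · rw [Finset.mem_range]
        omega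
      · rw [Int.toNat_of_nonneg (by omega)]
        ring
    · intro j _ hj
      rw [Finsupp.notMem_support_iff.mp hj, zero_mul]
  have e2 : ∀ θ : ℝ, tp c' (M + N) θ - tp c' M θ =
      Complex.exp (M * θ * I) * tp (fun n => c n) N θ := by
    intro θ
    unfold tp
    rw [Finset.sum_range_add, add_sub_cancel_left, Finset.mul_sum]
    apply Finset.sum_congr rfl
    intro i _
    simp only [hc']
    rw [mul_left_comm, ← Complex.exp_add]
    have : ((M + i : ℕ) : ℤ) - M = i := by push_cast; ring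
    rw [this]
    congr 2
    push_cast
    ring
  have hexp : ∀ θ : ℝ, ‖Complex.exp (M * θ * I)‖ = 1 := by
    intro θ
    have : (M : ℂ) * θ * I = ((M * θ : ℝ) : ℂ) * I := by push_cast; ring
    rw [this, Complex.norm_exp_ofReal_mul_I]
  have k1 := h c' (M + N) d (by omega)
  have k2 := h c' M d (by omega)
  have e3 : ∀ θ : ℝ, ‖tp c' d θ‖ ^ q = ‖tq c θ‖ ^ q := by
    intro θ
    rw [e1, norm_mul, hexp, one_mul]
  simp only [e3] at k1 k2
  have hcont : ∀ L, Continuous (fun θ => ‖tp c' L θ‖ ^ q) := fun L =>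
    (tp_cont c' L).norm.rpow_const fun _ => Or.inr (by linarith)
  have k3 : ∫ θ in (0:ℝ)..(2 * Real.pi), ‖tp (fun n => c n) N θ‖ ^ q ≤
      ∫ θ in (0:ℝ)..(2 * Real.pi), 2 ^ q * (‖tp c' (M + N) θ‖ ^ q + ‖tp c' M θ‖ ^ q) := by
    apply intervalIntegral.integral_mono (by positivity)
    · exact (((tp_cont (fun n => c n) N).norm.rpow_const
        fun _ => Or.inr (by linarith)) : Continuous _).intervalIntegrable _ _
    · exact (continuous_const.mul ((hcont _).add (hcont _))).intervalIntegrable _ _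
    intro θ
    have h1 : ‖tp (fun n => c n) N θ‖ = ‖tp c' (M + N) θ - tp c' M θ‖ := by
      rw [e2, norm_mul, hexp, one_mul]
    simp only
    rw [h1]
    refine le_trans (Real.rpow_le_rpow (norm_nonneg _) (norm_sub_le _ _) (by linarith)) ?_
    exact two_rpow (norm_nonneg _) (norm_nonneg _) (by linarith)
  rw [intervalIntegral.integral_const_mul, intervalIntegral.integral_add
    ((hcont _).intervalIntegrable _ _) ((hcont _).intervalIntegrable _ _)] at k3
  refine k3.trans ?_
  calc 2 ^ q * (_ + _) ≤ 2 ^ q * (C * (∫ θ in (0:ℝ)..(2 * Real.pi), ‖tq c θ‖ ^ q) +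
        C * ∫ θ in (0:ℝ)..(2 * Real.pi), ‖tq c θ‖ ^ q) := by gcongr
    _ = _ := by ring

/-- orthogonality -/
lemma orth (m : ℤ) : ∫ θ in (0:ℝ)..(2 * Real.pi), Complex.exp (m * θ * I) =
    if m = 0 then 2 * (Real.pi : ℂ) else 0 := by
  split_ifs with h
  · subst h
    simp
  · have h1 : ∀ θ : ℝ, Complex.exp (m * θ * I) = Complex.exp ((m * I) * θ) := by
      intro θ
      congr 1
      ring
    simp only [h1]
    have hc : (m : ℂ) * I ≠ 0 := mul_ne_zero (by exact_mod_cast h) I_ne_zero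
    rw [integral_exp_mul_complex hc]
    have h2 : (m : ℂ) * I * ((2 * Real.pi : ℝ) : ℂ) = m * (2 * Real.pi * I) := by
      push_cast; ring
    rw [h2, Complex.exp_int_mul_two_pi_mul_I]
    simp

lemma pairing (c : ℤ →₀ ℂ) (κ : ℕ → ℂ) (N : ℕ) :
    ∫ θ in (0:ℝ)..(2 * Real.pi), tq c θ * (starRingEnd ℂ) (tp κ N θ) =
      2 * Real.pi * ∑ n ∈ Finset.range N, c n * (starRingEnd ℂ) (κ n) := by
  have h1 : ∀ θ : ℝ, tq c θ * (starRingEnd ℂ) (tp κ N θ) = ∑ n ∈ Finset.range N,
      ∑ j ∈ c.support, (c j * (starRingEnd ℂ) (κ n)) * Complex.exp (((j - n : ℤ) : ℂ) * θ * I) := by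
    intro θ
    unfold tq tp
    rw [map_sum, Finset.mul_sum]
    apply Finset.sum_congr rfl
    intro n _
    rw [Finset.sum_mul]
    apply Finset.sum_congr rfl
    intro j _
    rw [map_mul, ← Complex.exp_conj]
    simp only [map_mul, Complex.conj_I, Complex.conj_ofReal, map_natCast]
    rw [show c j * Complex.exp (j * θ * I) * ((starRingEnd ℂ) (κ n) * Complex.exp (n * θ * -I)) =
      c j * (starRingEnd ℂ) (κ n) * (Complex.exp (j * θ * I) * Complex.exp (n * θ * -I)) by ring,
      ← Complex.exp_add]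
    congr 2
    push_cast
    ring
  simp only [h1]
  rw [intervalIntegral.integral_finsetSum]
  · rw [Finset.mul_sum]
    apply Finset.sum_congr rfl
    intro n _
    rw [intervalIntegral.integral_finsetSum]
    · simp only [intervalIntegral.integral_const_mul, orth]
      by_cases hn : (n : ℤ) ∈ c.support
      · rw [Finset.sum_eq_single (n : ℤ)]
        · rw [if_pos (by ring)]
          ring
        · intro j _ hj
          rw [if_neg (by omega), mul_zero]
        · intro h
          exact absurd hn h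
      · rw [Finset.sum_eq_zero]
        · rw [Finsupp.notMem_support_iff.mp hn]
          ring
        · intro j hj
          rw [if_neg, mul_zero]
          intro h
          apply hn
          have : j = n := by omega
          rwa [← this]
    · intro j _
      apply Continuous.intervalIntegrable
      fun_prop
  · intro n _
    apply Continuous.intervalIntegrable
    fun_prop

end Pool.Agent.V113.KR
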