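import Pool.Agent.V113.KR.I
import Pool.Agent.V113.KR.J

/-! Duality and conclusion. -/

open MeasureTheory Set Filter Topology Complex Polynomial
open scoped ComplexConjugate

namespace Pool.Agent.V113.KR

open Pool.Agent.H713R2 (tc)

/-- density of trigonometric polynomials -/
lemma tq_dense {v : ℂ → ℂ} (hv : Continuous v) {η : ℝ} (hη : 0 < η) :
    ∃ c : ℤ →₀ ℂ, ∀ θ : ℝ, ‖v (Complex.exp (θ * I)) - tq c θ‖ ≤ η := by
  have : Fact (0 < 2 * Real.pi) := ⟨Real.two_pi_pos⟩
  let f : C(AddCircle (2 * Real.pi), ℂ) :=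
    ⟨fun x => v (AddCircle.toCircle x : ℂ), hv.comp (continuous_subtype_val.comp
      AddCircle.continuous_toCircle)⟩
  have hmem : f ∈ (Submodule.span ℂ (range (@fourier (2 * Real.pi)))).topologicalClosure := by
    rw [span_fourier_closure_eq_top]
    trivial
  rw [← SetLike.mem_coe, Submodule.topologicalClosure_coe, Metric.mem_closure_iff] at hmem
  obtain ⟨τ, hτ, hd⟩ := hmem η hη
  rw [SetLike.mem_coe, Finsupp.mem_span_range_iff_exists_finsupp] at hτ
  obtain ⟨c, hc⟩ := hτ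
  refine ⟨c, fun θ => ?_⟩
  have h1 : dist (f (θ : AddCircle (2 * Real.pi))) (τ (θ : AddCircle (2 * Real.pi))) ≤ dist f τ :=
    ContinuousMap.dist_apply_le_dist _
  have h2 : f (θ : AddCircle (2 * Real.pi)) = v (Complex.exp (θ * I)) := by
    change v ((AddCircle.toCircle (θ : AddCircle (2 * Real.pi)) : Circle) : ℂ) = _
    rw [AddCircle.toCircle_apply_mk, Circle.coe_exp]
    congr 2
    have : (2 * Real.pi : ℝ) ≠ 0 := by positivity
    rw [div_self this, one_mul]
  have h3 : τ (θ : AddCircle (2 * Real.pi)) = tq c θ := by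
    rw [← hc]
    unfold tq Finsupp.sum
    rw [ContinuousMap.coe_sum, Finset.sum_apply]
    apply Finset.sum_congr rfl
    intro j _
    rw [ContinuousMap.coe_smul, Pi.smul_apply, smul_eq_mul, fourier_coe_apply]
    congr 2
    have : (Real.pi : ℂ) ≠ 0 := by exact_mod_cast Real.pi_pos.ne'
    push_cast
    field_simp
  rw [h2, h3, dist_eq_norm] at h1
  exact h1.trans hd.le

lemma cont_pow {s : ℝ} (hs : 1 < s) : Continuous fun w : ℂ => ((‖w‖ ^ (s - 2) : ℝ) : ℂ) * w := by
  rw [continuous_iff_continuousAt]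
  intro w
  by_cases hw : w = 0
  · subst hw
    unfold ContinuousAt
    change Tendsto _ (𝓝 (0:ℂ)) (𝓝 (((‖(0:ℂ)‖ ^ (s - 2) : ℝ) : ℂ) * 0))
    rw [mul_zero, tendsto_zero_iff_norm_tendsto_zero]
    have h1 : ∀ w : ℂ, ‖((‖w‖ ^ (s - 2) : ℝ) : ℂ) * w‖ = ‖w‖ ^ (s - 1) := by
      intro w
      rw [norm_mul, Complex.norm_real, Real.norm_of_nonneg (by positivity)]
      rcases (norm_nonneg w).eq_or_lt with h0 | h0
      · rw [← h0, mul_zero, Real.zero_rpow (by linarith)]
      · nth_rewrite 2 [← Real.rpow_one ‖w‖]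
        rw [← Real.rpow_add h0]
        congr 1
        ring
    simp only [h1]
    have h2 : Continuous fun w : ℂ => ‖w‖ ^ (s - 1) :=
      continuous_norm.rpow_const fun _ => Or.inr (by linarith)
    have h3 := h2.tendsto 0
    rwa [norm_zero, Real.zero_rpow (by linarith)] at h3
  · apply ContinuousAt.mul _ continuousAt_id
    apply Complex.continuous_ofReal.continuousAt.comp
    apply ContinuousAt.rpow_const continuous_norm.continuousAt
    left
    exact norm_ne_zero_iff.mpr hw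

/-- the duality argument -/
lemma dual_bound {q₁ p₁ : ℝ} (hq : 1 < q₁) (hp : p₁ = q₁ / (q₁ - 1)) (κ : ℕ → ℂ)
    (HB : ∀ M0 : ℝ, ∃ C0 : ℝ, ∀ P : ℂ[X], avg (fun z => ‖P.eval z‖ ^ p₁) 0 ≤ M0 →
      ‖∑ n ∈ P.support, P.coeff n * conj (κ n)‖ ≤ C0) :
    ∃ B0 : ℝ, ∀ N, (2 * Real.pi)⁻¹ * ∫ θ in (0:ℝ)..(2 * Real.pi), ‖tp κ N θ‖ ^ q₁ ≤ B0 := by
  have hp1 : 1 < p₁ := by
    rw [hp, lt_div_iff₀ (by linarith)]
    linarith
  have hqp : (q₁ - 1) * p₁ = q₁ := by
    rw [hp]
    have : q₁ - 1 ≠ 0 := by linarith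
    field_simp
  obtain ⟨C, hC, hR⟩ := riesz_tq p₁ hp1
  obtain ⟨C0, hC0⟩ := HB (C * (2 ^ p₁ * 2))
  refine ⟨(|C0| + 1) ^ q₁, fun N => ?_⟩
  set K : ℝ → ℂ := fun θ => tp κ N θ with hK
  have hKc : Continuous K := tp_cont κ N
  set B : ℝ := (2 * Real.pi)⁻¹ * ∫ θ in (0:ℝ)..(2 * Real.pi), ‖K θ‖ ^ q₁ with hB
  have h2pi : (0:ℝ) < 2 * Real.pi := Real.two_pi_pos
  rcases le_or_gt B 0 with hB0 | hB0
  · exact hB0.trans (by positivity)
  set lam : ℝ := B ^ (-(1 / p₁)) with hlam
  have hlam0 : 0 < lam := Real.rpow_pos_of_pos hB0 _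
  have hlamp : lam ^ p₁ = B⁻¹ := by
    rw [hlam, ← Real.rpow_mul hB0.le, ← Real.rpow_neg_one]
    congr 1
    have : p₁ ≠ 0 := by linarith
    field_simp
  -- the test function
  set Kz : ℂ → ℂ := fun z => ∑ j ∈ Finset.range N, κ j * z ^ j with hKz
  have hKzc : Continuous Kz := by
    rw [hKz]
    fun_prop
  have hKzK : ∀ θ : ℝ, Kz (Complex.exp (θ * I)) = K θ := by
    intro θ
    simp only [hKz, hK, tp]
    apply Finset.sum_congr rfl
    intro j _
    rw [← Complex.exp_nat_mul]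
    congr 2
    ring
  set v : ℂ → ℂ := fun z => lam * (((‖Kz z‖ ^ (q₁ - 2) : ℝ) : ℂ) * Kz z) with hv
  have hvc : Continuous v := continuous_const.mul ((cont_pow hq).comp hKzc)
  set A : ℝ := (2 * Real.pi)⁻¹ * ∫ θ in (0:ℝ)..(2 * Real.pi), ‖K θ‖ with hA
  have hA0 : 0 ≤ A := by
    rw [hA]
    apply mul_nonneg (by positivity)
    apply intervalIntegral.integral_nonneg h2pi.le
    intro θ _
    positivity
  set η : ℝ := min 1 (1 / (A + 1)) with hη
  have hη0 : 0 < η := lt_min one_pos (by positivity)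
  obtain ⟨c, hc⟩ := tq_dense hvc hη0
  have hvn : ∀ θ : ℝ, ‖v (Complex.exp (θ * I))‖ ^ p₁ = B⁻¹ * ‖K θ‖ ^ q₁ := by
    intro θ
    simp only [hv]
    rw [hKzK]
    have h1 : ‖((‖K θ‖ ^ (q₁ - 2) : ℝ) : ℂ) * K θ‖ = ‖K θ‖ ^ (q₁ - 1) := by
      rw [norm_mul, Complex.norm_real, Real.norm_of_nonneg (by positivity)]
      rcases (norm_nonneg (K θ)).eq_or_lt with h0 | h0
      · rw [← h0, mul_zero, Real.zero_rpow (by linarith)]
      · nth_rewrite 2 [← Real.rpow_one ‖K θ‖]
        rw [← Real.rpow_add h0]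
        congr 1
        ring
    rw [norm_mul, h1, Complex.norm_real, Real.norm_of_nonneg hlam0.le,
      Real.mul_rpow hlam0.le (by positivity), hlamp, ← Real.rpow_mul (norm_nonneg _), hqp]
  have hvE : Continuous fun θ : ℝ => v (Complex.exp (θ * I)) := by
    apply hvc.comp
    fun_prop
  have hvint : (2 * Real.pi)⁻¹ * ∫ θ in (0:ℝ)..(2 * Real.pi), ‖v (Complex.exp (θ * I))‖ ^ p₁ = 1 := by
    simp only [hvn]
    rw [intervalIntegral.integral_const_mul, mul_left_comm, ← hB]
    exact inv_mul_cancel₀ hB0.ne'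
  -- the norm of the trigonometric polynomial
  have hτ : (2 * Real.pi)⁻¹ * ∫ θ in (0:ℝ)..(2 * Real.pi), ‖tq c θ‖ ^ p₁ ≤ 2 ^ p₁ * 2 := by
    have h1 : ∫ θ in (0:ℝ)..(2 * Real.pi), ‖tq c θ‖ ^ p₁ ≤
        ∫ θ in (0:ℝ)..(2 * Real.pi), 2 ^ p₁ * (‖v (Complex.exp (θ * I))‖ ^ p₁ + 1) := by
      apply intervalIntegral.integral_mono h2pi.le
      · exact (((tq_cont c).norm.rpow_const fun _ => Or.inr (by linarith)) :
          Continuous _).intervalIntegrable _ _
      · exact (continuous_const.mul ((hvE.norm.rpow_const fun _ => Or.inr (by linarith)).add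
          continuous_const)).intervalIntegrable _ _
      intro θ
      simp only
      have h2 : ‖tq c θ‖ ≤ ‖v (Complex.exp (θ * I))‖ + 1 := by
        have h3 := hc θ
        have h4 : ‖tq c θ‖ ≤ ‖v (Complex.exp (θ * I))‖ + ‖v (Complex.exp (θ * I)) - tq c θ‖ := by
          have := norm_sub_norm_le (tq c θ) (v (Complex.exp (θ * I)))
          rw [norm_sub_rev] at this
          linarith
        have h5 : η ≤ 1 := min_le_left _ _
        linarith
      refine (Real.rpow_le_rpow (norm_nonneg _) h2 (by linarith)).trans ?_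
      have := two_rpow (norm_nonneg (v (Complex.exp (θ * I)))) zero_le_one (by linarith : 0 < p₁)
      rwa [Real.one_rpow] at this
    rw [intervalIntegral.integral_const_mul, intervalIntegral.integral_add
      ((hvE.norm.rpow_const fun _ => Or.inr (by linarith)).intervalIntegrable _ _)
      intervalIntegrable_const] at h1
    simp only [intervalIntegral.integral_const, sub_zero, smul_eq_mul, mul_one] at h1
    have h2 := mul_le_mul_of_nonneg_left h1 (inv_nonneg.mpr h2pi.le)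
    have h3 : (2 * Real.pi)⁻¹ * (2 ^ p₁ * ((∫ θ in (0:ℝ)..(2 * Real.pi),
        ‖v (Complex.exp (θ * I))‖ ^ p₁) + 2 * Real.pi)) = 2 ^ p₁ * ((2 * Real.pi)⁻¹ *
        (∫ θ in (0:ℝ)..(2 * Real.pi), ‖v (Complex.exp (θ * I))‖ ^ p₁) + 1) := by
      rw [mul_left_comm, mul_add (2 * Real.pi)⁻¹, inv_mul_cancel₀ h2pi.ne']
    rw [h3, hvint] at h2
    linarith
  -- the polynomial
  set P : ℂ[X] := ∑ n ∈ Finset.range N, Polynomial.monomial n (c n) with hP
  have hPe : ∀ z, P.eval z = ∑ n ∈ Finset.range N, c n * z ^ n := by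
    intro z
    rw [hP, Polynomial.eval_finsetSum]
    apply Finset.sum_congr rfl
    intro n _
    rw [Polynomial.eval_monomial]
  have hPc : ∀ n, P.coeff n = if n < N then c n else 0 := by
    intro n
    rw [hP, Polynomial.finsetSum_coeff]
    simp only [Polynomial.coeff_monomial]
    rw [Finset.sum_ite_eq' (Finset.range N) n]
    simp [Finset.mem_range]
  have hPt : ∀ θ : ℝ, P.eval (pt 0 θ) = tp (fun n => c n) N θ := by
    intro θ
    rw [hPe]
    unfold tp pt
    apply Finset.sum_congr rfl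
    intro j _
    rw [← Complex.exp_nat_mul]
    congr 2
    push_cast
    ring
  have hPM : avg (fun z => ‖P.eval z‖ ^ p₁) 0 ≤ C * (2 ^ p₁ * 2) := by
    unfold avg
    simp only [hPt, smul_eq_mul]
    have h1 := mul_le_mul_of_nonneg_left (hR c N) (inv_nonneg.mpr h2pi.le)
    refine h1.trans ?_
    rw [mul_left_comm]
    gcongr
  have hpair := hC0 P hPM
  have hsum : ∑ n ∈ P.support, P.coeff n * conj (κ n) = ∑ n ∈ Finset.range N, c n * conj (κ n) := by
    have h1 : P.support ⊆ Finset.range N := by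
      intro n hn
      rw [Finset.mem_range]
      by_contra h
      rw [Polynomial.mem_support_iff, hPc, if_neg h] at hn
      exact hn rfl
    rw [Finset.sum_subset h1]
    · apply Finset.sum_congr rfl
      intro n hn
      rw [hPc, if_pos (Finset.mem_range.mp hn)]
    · intro n _ hn
      rw [Polynomial.notMem_support_iff.mp hn, zero_mul]
  rw [hsum] at hpair
  have hpr := pairing c κ N
  -- the exact integral
  have hex : ∫ θ in (0:ℝ)..(2 * Real.pi), v (Complex.exp (θ * I)) * conj (K θ) =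
      ((lam * ∫ θ in (0:ℝ)..(2 * Real.pi), ‖K θ‖ ^ q₁ : ℝ) : ℂ) := by
    rw [Complex.ofReal_mul, ← intervalIntegral.integral_ofReal,
      ← intervalIntegral.integral_const_mul]
    congr 1
    funext θ
    simp only [hv]
    rw [hKzK]
    rw [show (lam : ℂ) * (((‖K θ‖ ^ (q₁ - 2) : ℝ) : ℂ) * K θ) * conj (K θ) =
      lam * (((‖K θ‖ ^ (q₁ - 2) : ℝ) : ℂ) * (K θ * conj (K θ))) by ring, Complex.mul_conj']
    congr 1
    rw [← Complex.ofReal_pow, ← Complex.ofReal_mul]
    congr 1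
    rcases (norm_nonneg (K θ)).eq_or_lt with h0 | h0
    · rw [← h0, Real.zero_rpow (by linarith : q₁ ≠ 0)]
      simp
    · rw [← Real.rpow_natCast, ← Real.rpow_add h0]
      congr 1
      push_cast
      ring
  have hdiff : ‖∫ θ in (0:ℝ)..(2 * Real.pi), (v (Complex.exp (θ * I)) - tq c θ) * conj (K θ)‖ ≤
      η * ∫ θ in (0:ℝ)..(2 * Real.pi), ‖K θ‖ := by
    refine (intervalIntegral.norm_integral_le_integral_norm h2pi.le).trans ?_
    rw [← intervalIntegral.integral_const_mul]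
    apply intervalIntegral.integral_mono h2pi.le
    · exact (((hvE.sub (tq_cont c)).mul (Complex.continuous_conj.comp hKc)).norm).intervalIntegrable _ _
    · exact (continuous_const.mul hKc.norm).intervalIntegrable _ _
    intro θ
    simp only
    rw [norm_mul, RCLike.norm_conj]
    exact mul_le_mul_of_nonneg_right (hc θ) (norm_nonneg _)
  have hsplit : ∫ θ in (0:ℝ)..(2 * Real.pi), v (Complex.exp (θ * I)) * conj (K θ) =
      (∫ θ in (0:ℝ)..(2 * Real.pi), (v (Complex.exp (θ * I)) - tq c θ) * conj (K θ)) +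
        ∫ θ in (0:ℝ)..(2 * Real.pi), tq c θ * conj (K θ) := by
    rw [← intervalIntegral.integral_add]
    · congr 1
      funext θ
      ring
    · exact ((hvE.sub (tq_cont c)).mul (Complex.continuous_conj.comp hKc)).intervalIntegrable _ _
    · exact ((tq_cont c).mul (Complex.continuous_conj.comp hKc)).intervalIntegrable _ _
  have hfin : lam * ∫ θ in (0:ℝ)..(2 * Real.pi), ‖K θ‖ ^ q₁ ≤ 2 * Real.pi * (|C0| + 1) := by
    have h1 : lam * ∫ θ in (0:ℝ)..(2 * Real.pi), ‖K θ‖ ^ q₁ ≤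
        ‖((lam * ∫ θ in (0:ℝ)..(2 * Real.pi), ‖K θ‖ ^ q₁ : ℝ) : ℂ)‖ := by
      rw [Complex.norm_real]
      exact le_abs_self _
    rw [← hex, hsplit, hpr] at h1
    refine h1.trans ((norm_add_le _ _).trans ?_)
    have h2 : ‖(2 * Real.pi : ℂ) * ∑ n ∈ Finset.range N, c n * conj (κ n)‖ ≤
        2 * Real.pi * |C0| := by
      rw [norm_mul]
      have : ‖(2 * Real.pi : ℂ)‖ = 2 * Real.pi := by
        rw [show (2 * Real.pi : ℂ) = ((2 * Real.pi : ℝ) : ℂ) by push_cast; rfl, Complex.norm_real,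
          Real.norm_of_nonneg h2pi.le]
      rw [this]
      gcongr
      exact hpair.trans (le_abs_self _)
    have h3 : η * ∫ θ in (0:ℝ)..(2 * Real.pi), ‖K θ‖ ≤ 2 * Real.pi := by
      have h4 : ∫ θ in (0:ℝ)..(2 * Real.pi), ‖K θ‖ = 2 * Real.pi * A := by
        rw [hA]
        field_simp
      rw [h4]
      have h5 : η ≤ 1 / (A + 1) := min_le_right _ _
      have h6 : η * A ≤ 1 := by
        calc η * A ≤ 1 / (A + 1) * A := by gcongr
          _ ≤ 1 := by
            rw [one_div, inv_mul_le_iff₀ (by positivity)]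
            linarith
      nlinarith
    linarith
  have hlB : lam * B ≤ |C0| + 1 := by
    have h1 : lam * ∫ θ in (0:ℝ)..(2 * Real.pi), ‖K θ‖ ^ q₁ = 2 * Real.pi * (lam * B) := by
      rw [hB]
      field_simp
    rw [h1] at hfin
    exact le_of_mul_le_mul_left hfin h2pi
  have hlB2 : lam * B = B ^ (1 / q₁) := by
    rw [hlam]
    nth_rewrite 2 [← Real.rpow_one B]
    rw [← Real.rpow_add hB0]
    congr 1
    rw [hp]
    have : q₁ - 1 ≠ 0 := by linarith
    have : q₁ ≠ 0 := by linarith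
    field_simp
    ring
  rw [hlB2] at hlB
  have h1 := Real.rpow_le_rpow (by positivity) hlB (by linarith : 0 ≤ q₁)
  rwa [← Real.rpow_mul hB0.le, one_div_mul_cancel (by linarith : q₁ ≠ 0), Real.rpow_one] at h1

end Pool.Agent.V113.KR
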