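import Pool.Agent.V113.KR.K

/-! Abel means and the conclusion. -/

open MeasureTheory Set Filter Topology Complex Polynomial
open scoped ComplexConjugate

namespace Pool.Agent.V113.KR

open Pool.Agent.H713R2 (tc)

lemma abel (κ : ℕ → ℂ) (r : ℝ) (N : ℕ) (θ : ℝ) :
    tp (fun j => κ j * r ^ j) (N + 1) θ =
      ∑ i ∈ Finset.range N, ((r : ℂ) ^ i - r ^ (i + 1)) * tp κ (i + 1) θ +
        (r : ℂ) ^ N * tp κ (N + 1) θ := by
  induction N with
  | zero => simp [tp]
  | succ N ih =>
    have e1 : ∀ c : ℕ → ℂ, tp c (N + 1 + 1) θ = tp c (N + 1) θ +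
        c (N + 1) * Complex.exp (((N + 1 : ℕ) : ℂ) * θ * I) := by
      intro c
      unfold tp
      rw [Finset.sum_range_succ]
    rw [e1, ih, Finset.sum_range_succ, e1 κ]
    ring

lemma abel_norm (κ : ℕ → ℂ) {r : ℝ} (hr : 0 ≤ r) (hr1 : r ≤ 1) {q : ℝ} (hq : 1 ≤ q) (N : ℕ)
    (θ : ℝ) : ‖tp (fun j => κ j * r ^ j) (N + 1) θ‖ ^ q ≤
      ∑ i ∈ Finset.range N, (r ^ i - r ^ (i + 1)) * ‖tp κ (i + 1) θ‖ ^ q +
        r ^ N * ‖tp κ (N + 1) θ‖ ^ q := by
  set w : ℕ → ℝ := fun i => if i = N then r ^ N else r ^ i - r ^ (i + 1) with hw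
  have hw0 : ∀ i ∈ Finset.range (N + 1), 0 ≤ w i := by
    intro i _
    simp only [hw]
    split_ifs
    · positivity
    · rw [pow_succ]
      have : 0 ≤ r ^ i := by positivity
      nlinarith
  have hws : ∀ f : ℕ → ℝ, ∑ i ∈ Finset.range (N + 1), w i * f i =
      ∑ i ∈ Finset.range N, (r ^ i - r ^ (i + 1)) * f i + r ^ N * f N := by
    intro f
    rw [Finset.sum_range_succ]
    congr 1
    · apply Finset.sum_congr rfl
      intro i hi
      simp only [hw]
      rw [if_neg (by have := Finset.mem_range.mp hi; omega)]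
    · simp only [hw, if_true]
  have hw1 : ∑ i ∈ Finset.range (N + 1), w i = 1 := by
    have h1 := hws (fun _ => 1)
    simp only [mul_one] at h1
    rw [h1, Finset.sum_range_sub']
    simp
  have h1 := Real.rpow_arith_mean_le_arith_mean_rpow (Finset.range (N + 1)) w
    (fun i => ‖tp κ (i + 1) θ‖) hw0 hw1 (fun i _ => norm_nonneg _) hq
  rw [hws, hws] at h1
  refine le_trans (Real.rpow_le_rpow (norm_nonneg _) ?_ (by linarith)) h1
  rw [abel]
  refine (norm_add_le _ _).trans ?_
  gcongr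
  · refine (norm_sum_le _ _).trans ?_
    apply Finset.sum_le_sum
    intro i _
    rw [norm_mul]
    have h2 : ((r : ℂ) ^ i - r ^ (i + 1)) = ((r ^ i - r ^ (i + 1) : ℝ) : ℂ) := by push_cast; rfl
    have h3 : 0 ≤ r ^ i - r ^ (i + 1) := by
      rw [pow_succ]
      have : 0 ≤ r ^ i := by positivity
      nlinarith
    rw [h2, Complex.norm_real, Real.norm_of_nonneg h3]
  · rw [norm_mul, norm_pow, Complex.norm_real, Real.norm_of_nonneg hr]

lemma hardy_of_partial {k : ℂ → ℂ} (hk : DifferentiableOn ℂ k DD) {q B0 : ℝ} (hq : 1 ≤ q)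
    (h : ∀ N, (2 * Real.pi)⁻¹ * ∫ θ in (0:ℝ)..(2 * Real.pi), ‖tp (tc k) N θ‖ ^ q ≤ B0)
    {t : ℝ} (ht : t < 0) : avg (fun z => ‖k z‖ ^ q) t ≤ B0 := by
  have h2pi : (0:ℝ) < 2 * Real.pi := Real.two_pi_pos
  set r : ℝ := Real.exp t with hr
  have hr0 : 0 < r := Real.exp_pos t
  have hr1 : r < 1 := by rw [hr, ← Real.exp_zero]; exact Real.exp_lt_exp.mpr ht
  have hpw : ∀ j : ℕ, ∀ θ : ℝ, tc k j * r ^ j * Complex.exp (j * θ * I) = tc k j * pt t θ ^ j := by
    intro j θ
    have : pt t θ = r * Complex.exp (θ * I) := by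
      unfold pt
      rw [Complex.exp_add, hr, Complex.ofReal_exp]
    rw [this, mul_pow, ← Complex.exp_nat_mul, mul_assoc]
    congr 3
    ring
  have hcont : ∀ c : ℕ → ℂ, ∀ N, Continuous (fun θ => ‖tp c N θ‖ ^ q) := fun c N =>
    (tp_cont c N).norm.rpow_const fun _ => Or.inr (by linarith)
  -- bound for the partial sums
  have hb : ∀ N, (2 * Real.pi)⁻¹ * ∫ θ in (0:ℝ)..(2 * Real.pi),
      ‖tp (fun j => tc k j * r ^ j) (N + 1) θ‖ ^ q ≤ B0 := by
    intro N
    have h1 : ∫ θ in (0:ℝ)..(2 * Real.pi), ‖tp (fun j => tc k j * r ^ j) (N + 1) θ‖ ^ q ≤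
        ∫ θ in (0:ℝ)..(2 * Real.pi), (∑ i ∈ Finset.range N, (r ^ i - r ^ (i + 1)) *
          ‖tp (tc k) (i + 1) θ‖ ^ q + r ^ N * ‖tp (tc k) (N + 1) θ‖ ^ q) := by
      apply intervalIntegral.integral_mono h2pi.le ((hcont _ _).intervalIntegrable _ _)
      · exact ((continuous_finsetSum _ fun i _ => continuous_const.mul (hcont _ _)).add
          (continuous_const.mul (hcont _ _))).intervalIntegrable _ _
      intro θ
      exact abel_norm (tc k) hr0.le hr1.le hq N θ
    rw [intervalIntegral.integral_add, intervalIntegral.integral_finsetSum] at h1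
    · simp only [intervalIntegral.integral_const_mul] at h1
      have h2 : ∀ M, ∫ θ in (0:ℝ)..(2 * Real.pi), ‖tp (tc k) M θ‖ ^ q ≤ 2 * Real.pi * B0 := by
        intro M
        have := h M
        rwa [inv_mul_le_iff₀ h2pi] at this
      rw [inv_mul_le_iff₀ h2pi]
      refine h1.trans ?_
      have h3 : ∑ i ∈ Finset.range N, (r ^ i - r ^ (i + 1)) *
          ∫ θ in (0:ℝ)..(2 * Real.pi), ‖tp (tc k) (i + 1) θ‖ ^ q ≤
          ∑ i ∈ Finset.range N, (r ^ i - r ^ (i + 1)) * (2 * Real.pi * B0) := by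
        apply Finset.sum_le_sum
        intro i _
        apply mul_le_mul_of_nonneg_left (h2 _)
        rw [pow_succ]
        have : 0 ≤ r ^ i := by positivity
        nlinarith
      have h4 : r ^ N * ∫ θ in (0:ℝ)..(2 * Real.pi), ‖tp (tc k) (N + 1) θ‖ ^ q ≤
          r ^ N * (2 * Real.pi * B0) := by
        apply mul_le_mul_of_nonneg_left (h2 _) (by positivity)
      rw [← Finset.sum_mul, Finset.sum_range_sub'] at h3
      calc _ ≤ (r ^ 0 - r ^ N) * (2 * Real.pi * B0) + r ^ N * (2 * Real.pi * B0) :=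
            add_le_add h3 h4
        _ = _ := by ring
    · intro i _
      exact (continuous_const.mul (hcont _ _)).intervalIntegrable _ _
    · exact (continuous_finsetSum _ fun i _ =>
        continuous_const.mul (hcont _ _)).intervalIntegrable _ _
    · exact (continuous_const.mul (hcont _ _)).intervalIntegrable _ _
  -- the limit
  have hlim : Tendsto (fun N => ∫ θ in (0:ℝ)..(2 * Real.pi),
      ‖tp (fun j => tc k j * r ^ j) (N + 1) θ‖ ^ q) atTop
      (𝓝 (∫ θ in (0:ℝ)..(2 * Real.pi), ‖k (pt t θ)‖ ^ q)) := by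
    have hrD : (r : ℂ) ∈ DD := by
      rw [Metric.mem_ball, dist_zero_right, Complex.norm_real, Real.norm_of_nonneg hr0.le]
      exact hr1
    have hsm := Pool.Agent.H713R2.summable_norm_tc hk hrD
    apply intervalIntegral.tendsto_integral_filter_of_dominated_convergence
      (fun _ => (∑' j, ‖tc k j * (r : ℂ) ^ j‖) ^ q)
    · exact Eventually.of_forall fun N => (hcont _ _).aestronglyMeasurable
    · refine Eventually.of_forall fun N => ae_of_all _ fun θ _ => ?_
      rw [Real.norm_of_nonneg (by positivity)]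
      apply Real.rpow_le_rpow (norm_nonneg _) _ (by linarith)
      unfold tp
      refine (norm_sum_le _ _).trans ?_
      have h1 : ∀ j ∈ Finset.range (N + 1), ‖tc k j * r ^ j * Complex.exp (j * θ * I)‖ =
          ‖tc k j * (r : ℂ) ^ j‖ := by
        intro j _
        rw [norm_mul]
        have : (j : ℂ) * θ * I = ((j * θ : ℝ) : ℂ) * I := by push_cast; ring
        rw [this, Complex.norm_exp_ofReal_mul_I, mul_one]
      rw [Finset.sum_congr rfl h1]
      exact hsm.sum_le_tsum _ fun j _ => norm_nonneg _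
    · exact intervalIntegrable_const
    · refine ae_of_all _ fun θ _ => ?_
      have h1 := (Pool.Agent.H713R2.hasSum_tc hk (pt_mem ht θ)).tendsto_sum_nat
      have h2 : (fun N => tp (fun j => tc k j * r ^ j) (N + 1) θ) =
          (fun N => ∑ j ∈ Finset.range N, tc k j * pt t θ ^ j) ∘ (fun N => N + 1) := by
        funext N
        unfold tp
        simp only [Function.comp_apply]
        exact Finset.sum_congr rfl fun j _ => hpw j θ
      have h3 : Tendsto (fun N => tp (fun j => tc k j * r ^ j) (N + 1) θ) atTop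
          (𝓝 (k (pt t θ))) := by
        rw [h2]
        exact h1.comp (tendsto_add_atTop_nat 1)
      exact h3.norm.rpow_const (Or.inr (by linarith))
  have h5 := le_of_tendsto' (hlim.const_mul (2 * Real.pi)⁻¹) hb
  exact h5

/-- **the regularity theorem** -/
theorem main {p q₁ : ℝ} (hp : 1 < p) (hq : 1 < q₁) {F k : ℂ → ℂ}
    (hF : DifferentiableOn ℂ F DD) (hk : DifferentiableOn ℂ k DD)
    (hFp : Integrable (fun z => ‖F z‖ ^ p) sg) (hF1 : ∫ z, ‖F z‖ ^ p ∂sg = 1)
    (hkq : Integrable (fun z => ‖k z‖ ^ (p / (p - 1))) sg)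
    (hext : ∀ g : ℂ → ℂ, DifferentiableOn ℂ g DD → Integrable (fun z => ‖g z‖ ^ p) sg →
      ∫ z, ‖g z‖ ^ p ∂sg = 1 →
      (∫ z, g z * conj (k z) ∂sg).re ≤ (∫ z, F z * conj (k z) ∂sg).re)
    {M : ℝ} (hM : ∀ t < 0, avg (fun z => ‖F z‖ ^ ((p - 1) * q₁)) t ≤ M) :
    ∃ B0, ∀ t < 0, avg (fun z => ‖k z‖ ^ q₁) t ≤ B0 := by
  set p₁ : ℝ := q₁ / (q₁ - 1) with hp1
  have hkm := sg_meas hk.continuousOn
  have ik : Integrable k sg := by
    refine Integrable.mono' (hkq.add (integrable_const (1:ℝ))) hkm (ae_of_all _ fun z => ?_)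
    simp only [Pi.add_apply]
    rcases le_total ‖k z‖ 1 with h | h
    · have : 0 ≤ ‖k z‖ ^ (p / (p - 1)) := by positivity
      linarith
    · have h2 : ‖k z‖ ^ (1:ℝ) ≤ ‖k z‖ ^ (p / (p - 1)) := by
        apply Real.rpow_le_rpow_of_exponent_le h
        rw [le_div_iff₀ (by linarith)]
        linarith
      rw [Real.rpow_one] at h2
      linarith
  have HB : ∀ M0 : ℝ, ∃ C0 : ℝ, ∀ P : ℂ[X], avg (fun z => ‖P.eval z‖ ^ p₁) 0 ≤ M0 →
      ‖∑ n ∈ P.support, P.coeff n * conj (tc k n)‖ ≤ C0 := by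
    intro M0
    refine ⟨|(∫ z, F z * conj (k z) ∂sg).re| * ((Real.pi)⁻¹ * Cst p q₁ p₁ M M0), fun P hP => ?_⟩
    rw [← poly_pair hk ik P]
    have hPd : Differentiable ℂ fun z => P.eval z := P.differentiable
    have hgd : DifferentiableOn ℂ (fun z => P.eval z + D1 (fun z => P.eval z) z) DD :=
      hPd.differentiableOn.add (D1_diff hPd.differentiableOn)
    have hgc : Continuous (fun z => P.eval z + D1 (fun z => P.eval z) z) := by
      unfold D1
      simp only [Polynomial.deriv]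
      exact P.continuous.add (continuous_id.mul P.derivative.continuous)
    obtain ⟨Bb, hBb⟩ := (isCompact_closedBall (0:ℂ) 1).exists_bound_of_continuousOn hgc.continuousOn
    rw [extremal_rel hp hF hk hFp hF1 hkq hext hgd
      (fun z hz => hBb z (Metric.ball_subset_closedBall hz)), norm_mul, Complex.norm_real,
      Real.norm_eq_abs]
    gcongr
    rw [sg_int, norm_smul, norm_inv, Real.norm_of_nonneg Real.pi_pos.le]
    gcongr
    exact disc_bound hF hPd hp hq hp1 (sg_integrable.mp hFp) hM hP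
  obtain ⟨B0, hB0⟩ := dual_bound hq hp1 (tc k) HB
  exact ⟨B0, fun t ht => hardy_of_partial hk hq.le hB0 ht⟩

end Pool.Agent.V113.KR
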