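import Pool.Agent.V113.KR.B

/-! The pointwise inequality for bounded functions. -/

namespace Pool.Agent.V113.KR

lemma key_pt2 {a ε x y X Z ρ : ℝ} (ha : 0 < a) (hε : 0 < ε) (hx : 0 ≤ x) (hy : 0 ≤ y)
    (hX : 0 ≤ X) (hZ : 0 ≤ Z) (hρ : ρ ^ 2 ≤ x * X * (y * Z)) :
    (y + 1) ^ (1 / 2 : ℝ) * (4 * a * (x + ε) ^ (a - 2) * X * (a * x + ε)) ≤
      Lp 0 (1 / 2) ε x y X Z ρ + Lp a (1 / 2) ε x y X Z ρ + Lp (2 * a) (1 / 2) ε x y X Z ρ := by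
  have hW : 0 < x + ε := by linarith
  have hY : 0 < y + 1 := by linarith
  set W := x + ε with hWd
  set Y := y + 1 with hYd
  set u := W ^ (a - 2) with hu
  set c := 4 * Y ^ ((1:ℝ) / 2 - 2) with hc
  set Z' := 1 / 2 * Z * (1 / 2 * y + 1) with hZ'
  have hu0 : 0 < u := Real.rpow_pos_of_pos hW _
  have hc0 : 0 < c := by positivity
  have hZ0 : 0 ≤ Z' := by positivity
  set t := u * W with ht
  set v := t * W with hv
  have ht0 : 0 < t := by positivity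
  have hv0 : 0 < v := by positivity
  have w0 : W ^ ((0:ℝ) - 2) * W ^ 2 = 1 := by
    rw [← Real.rpow_natCast, ← Real.rpow_add hW]
    norm_num
  have w2 : W ^ (2 * a - 2) = u ^ 2 * W ^ 2 := by
    rw [hu, ← Real.rpow_natCast, ← Real.rpow_natCast, ← Real.rpow_mul hW.le, ← Real.rpow_add hW]
    congr 1
    push_cast
    ring
  have l0 : Lp 0 (1 / 2) ε x y X Z ρ = c * Z' := by
    unfold Lp
    rw [← hWd, ← hYd, hc, hZ']
    linear_combination (4 * Y ^ ((1:ℝ) / 2 - 2) * (1 / 2 * Z * (1 / 2 * y + 1))) * w0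
  have l1 : Lp a (1 / 2) ε x y X Z ρ =
      c * u * (a * Y ^ 2 * X * (a * x + ε) + W ^ 2 * Z' + a * W * Y * ρ) := by
    unfold Lp
    rw [← hWd, ← hYd, hc, hZ', hu]
    ring
  have l2 : Lp (2 * a) (1 / 2) ε x y X Z ρ =
      c * (u ^ 2 * W ^ 2) * (2 * a * Y ^ 2 * X * (2 * a * x + ε) + W ^ 2 * Z' + 2 * a * W * Y * ρ) := by
    unfold Lp
    rw [← hWd, ← hYd, hc, hZ', w2]
    ring
  have g1 : Y ^ (1 / 2 : ℝ) * (4 * a * u * X * (a * x + ε)) = c * u * (a * Y ^ 2 * X * (a * x + ε)) := by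
    have e : Y ^ ((1:ℝ) / 2) = Y ^ ((1:ℝ) / 2 - 2) * Y ^ 2 := by
      rw [← Real.rpow_natCast, ← Real.rpow_add hY]
      norm_num
    rw [hc, e]
    ring
  rw [g1, l0, l1, l2]
  set ξ2 := a ^ 2 * Y ^ 2 * t ^ 2 * (x * X) with hξ
  have hξ0 : 0 ≤ ξ2 := by positivity
  have a1 : (a * ρ * Y * t) ^ 2 ≤ ξ2 * (4 * Z') := by
    have h1 : y * Z ≤ 4 * Z' := by
      have h2 : 4 * Z' = y * Z + 2 * Z := by rw [hZ']; ring
      linarith
    calc (a * ρ * Y * t) ^ 2 = a ^ 2 * Y ^ 2 * t ^ 2 * ρ ^ 2 := by ring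
      _ ≤ a ^ 2 * Y ^ 2 * t ^ 2 * (x * X * (y * Z)) := by gcongr
      _ = ξ2 * (y * Z) := by rw [hξ]; ring
      _ ≤ _ := by gcongr
  have a2 : |a * ρ * Y * t * (1 + 2 * v)| ≤ Z' * (1 + v + v ^ 2) + 4 * ξ2 := by
    apply abs_le_of_sq_le_sq _ (by positivity)
    calc (a * ρ * Y * t * (1 + 2 * v)) ^ 2 = (a * ρ * Y * t) ^ 2 * (1 + 2 * v) ^ 2 := by ring
      _ ≤ ξ2 * (4 * Z') * (1 + 2 * v) ^ 2 := by gcongr
      _ ≤ ξ2 * (4 * Z') * (4 * (1 + v + v ^ 2)) := by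
        have h3 : (1 + 2 * v) ^ 2 ≤ 4 * (1 + v + v ^ 2) := by
          have h4 : 4 * (1 + v + v ^ 2) - (1 + 2 * v) ^ 2 = 3 := by ring
          linarith
        gcongr
      _ = (Z' * (1 + v + v ^ 2) + 4 * ξ2) ^ 2 - (Z' * (1 + v + v ^ 2) - 4 * ξ2) ^ 2 := by ring
      _ ≤ _ := by
        have h5 := sq_nonneg (Z' * (1 + v + v ^ 2) - 4 * ξ2)
        linarith
  have a3 := (abs_le.mp a2).1
  have a4 : 4 * ξ2 ≤ 2 * a * Y ^ 2 * X * (2 * a * x + ε) * t ^ 2 := by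
    have h6 : 0 ≤ 2 * a * Y ^ 2 * X * ε * t ^ 2 := by positivity
    have h7 : 2 * a * Y ^ 2 * X * (2 * a * x + ε) * t ^ 2 =
        4 * ξ2 + 2 * a * Y ^ 2 * X * ε * t ^ 2 := by rw [hξ]; ring
    linarith
  have a5 : 0 ≤ c * (Z' * (1 + v + v ^ 2) + a * ρ * Y * t * (1 + 2 * v) +
      2 * a * Y ^ 2 * X * (2 * a * x + ε) * t ^ 2) := by
    apply mul_nonneg hc0.le
    linarith
  have a6 : c * Z' + c * u * (a * Y ^ 2 * X * (a * x + ε) + W ^ 2 * Z' + a * W * Y * ρ) +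
      c * (u ^ 2 * W ^ 2) * (2 * a * Y ^ 2 * X * (2 * a * x + ε) + W ^ 2 * Z' + 2 * a * W * Y * ρ) =
      c * u * (a * Y ^ 2 * X * (a * x + ε)) + c * (Z' * (1 + v + v ^ 2) + a * ρ * Y * t * (1 + 2 * v) +
      2 * a * Y ^ 2 * X * (2 * a * x + ε) * t ^ 2) := by
    rw [hv, ht]
    ring
  linarith

end Pool.Agent.V113.KR
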