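import Pool.Agent.V113.KR.L
import Pool.Agent.V113.KR.M0

/-! The inequality for bounded functions. -/

open MeasureTheory Set Filter Topology Complex
open scoped ComplexConjugate

namespace Pool.Agent.V113.KR

variable {F g : ℂ → ℂ} {ε : ℝ}

/-- the sum of the three Laplacians -/
noncomputable def LL2 (F g : ℂ → ℂ) (ε a : ℝ) (z : ℂ) : ℝ :=
  Lap F g ε 0 (1 / 2) z + Lap F g ε a (1 / 2) z + Lap F g ε (2 * a) (1 / 2) z

/-- the sum of the three functions -/
noncomputable def HH2 (F g : ℂ → ℂ) (ε a : ℝ) (z : ℂ) : ℝ :=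
  VV F g ε 0 (1 / 2) z + VV F g ε a (1 / 2) z + VV F g ε (2 * a) (1 / 2) z

/-- the sum of the three `∂̄` derivatives -/
noncomputable def QS2 (F g : ℂ → ℂ) (ε a : ℝ) (z : ℂ) : ℂ :=
  QQ F g ε 0 (1 / 2) z + QQ F g ε a (1 / 2) z + QQ F g ε (2 * a) (1 / 2) z

lemma EE_le2 {a b : ℝ} (ha : 0 < a) (hb : b = a - 1 / 2) (hε : 0 < ε) (z : ℂ) :
    ‖EE F g ε b z‖ ≤ 4 * |b| * (|b| + 3) / (min a 1 * a) * LL2 F g ε a z := by
  have hκ : 0 < min a 1 := lt_min ha one_pos
  set W := WW F ε z with hW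
  have hWp : 0 < W := WW_pos hε z
  set x := ‖F z‖ ^ 2 with hx
  set y := ‖g z‖ ^ 2 with hy
  set X := ‖D1 F z‖ ^ 2 with hX
  have hWx : W = x + ε := rfl
  have key := key_pt2 (a := a) (ε := ε) (x := x) (y := y) (X := X)
    (Z := ‖D1 g z‖ ^ 2) (ρ := (F z * conj (D1 F z) * (conj (g z) * D1 g z)).re) ha hε
    (by positivity) (by positivity) (by positivity) (by positivity) (by
      have h1 := Complex.abs_re_le_norm (F z * conj (D1 F z) * (conj (g z) * D1 g z))
      have h2 := pow_le_pow_left₀ (abs_nonneg _) h1 2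
      rw [sq_abs] at h2
      refine h2.trans (le_of_eq ?_)
      simp only [norm_mul, RCLike.norm_conj]
      rw [hx, hX, hy]
      ring)
  have key' : (y + 1) ^ (1 / 2 : ℝ) * (4 * a * W ^ (a - 2) * X * (a * x + ε)) ≤
      4 * LL2 F g ε a z := by
    have h0 : (y + 1) ^ (1 / 2 : ℝ) * (4 * a * W ^ (a - 2) * X * (a * x + ε)) ≤ LL2 F g ε a z := key
    have h1 : 0 ≤ (y + 1) ^ (1 / 2 : ℝ) * (4 * a * W ^ (a - 2) * X * (a * x + ε)) := by positivity
    linarith
  -- the bound of EE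
  have e1 : ‖EE F g ε b z‖ ≤ 4 * |b| * (‖g z‖ * ‖D1 F z‖ * ((|b| + 3) * W ^ (b - 1) *
      (‖F z‖ * ‖D1 F z‖))) := by
    unfold EE
    rw [norm_mul, norm_mul, norm_mul, norm_mul]
    have e0 : ‖(4:ℂ)‖ = 4 := by norm_num
    rw [e0, Complex.norm_real, Real.norm_eq_abs]
    gcongr
    refine (norm_add_le _ _).trans ?_
    simp only [norm_mul, RCLike.norm_conj, Complex.norm_real, Real.norm_eq_abs]
    rw [← hW, abs_of_pos (Real.rpow_pos_of_pos hWp (b - 2)), abs_of_pos (Real.rpow_pos_of_pos hWp (b - 1))]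
    have e2 : ‖(2:ℂ)‖ = 2 := by norm_num
    rw [e2]
    have e3 : W ^ (b - 1) = W ^ (b - 2) * W := by
      conv_rhs => rw [← Real.rpow_one W, ← Real.rpow_mul hWp.le, mul_comm (1:ℝ), mul_one]
      rw [← Real.rpow_add hWp]
      congr 1
      ring
    have e4 : W ^ (b - 2) * (‖F z‖ * ‖F z‖) ≤ W ^ (b - 1) := by
      rw [e3]
      gcongr
      rw [hWx, hx]
      nlinarith
    have e5 : |b - 1| ≤ |b| + 1 := by
      refine (abs_sub _ _).trans ?_
      rw [abs_one]
    have e6 : |b - 1| * (W ^ (b - 2) * (‖F z‖ * ‖F z‖)) ≤ (|b| + 1) * W ^ (b - 1) := by gcongr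
    have e7 : 0 ≤ ‖F z‖ * ‖D1 F z‖ := by positivity
    have e8 := mul_le_mul_of_nonneg_right e6 e7
    nlinarith
  have e2 : ‖F z‖ ≤ W ^ (1 / 2 : ℝ) := by
    rw [← Real.sqrt_eq_rpow]
    apply Real.le_sqrt_of_sq_le
    rw [hWx, hx]
    linarith
  have e3 : ‖g z‖ ≤ (y + 1) ^ (1 / 2 : ℝ) := by
    rw [← Real.sqrt_eq_rpow]
    apply Real.le_sqrt_of_sq_le
    rw [hy]
    linarith
  have e4 : W ^ (b - 1) * W ^ (1 / 2 : ℝ) = W ^ (a - 2) * W := by
    conv_rhs => rw [← Real.rpow_one W, ← Real.rpow_mul hWp.le, mul_comm (1:ℝ), mul_one]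
    rw [← Real.rpow_add hWp, ← Real.rpow_add hWp]
    congr 1
    rw [hb]
    ring
  have e5 : min a 1 * W ≤ a * x + ε := by
    rw [hWx, mul_add]
    have : min a 1 * x ≤ a * x := by gcongr; exact min_le_left _ _
    have : min a 1 * ε ≤ 1 * ε := by gcongr; exact min_le_right _ _
    linarith
  have e6 : ‖EE F g ε b z‖ ≤ 4 * |b| * (|b| + 3) * ((y + 1) ^ (1 / 2 : ℝ) * (X * (W ^ (a - 2) * W))) := by
    refine e1.trans ?_
    rw [← e4]
    have : ‖g z‖ * ‖D1 F z‖ * ((|b| + 3) * W ^ (b - 1) * (‖F z‖ * ‖D1 F z‖)) ≤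
        (y + 1) ^ (1 / 2 : ℝ) * ‖D1 F z‖ * ((|b| + 3) * W ^ (b - 1) * (W ^ (1 / 2 : ℝ) * ‖D1 F z‖)) := by
      gcongr
    calc _ ≤ 4 * |b| * ((y + 1) ^ (1 / 2 : ℝ) * ‖D1 F z‖ * ((|b| + 3) * W ^ (b - 1) *
          (W ^ (1 / 2 : ℝ) * ‖D1 F z‖))) := by gcongr
      _ = _ := by rw [hX]; ring
  have e7 : W ≤ (a * x + ε) / min a 1 := by
    rw [le_div_iff₀ hκ]
    linarith
  have e8 : (y + 1) ^ (1 / 2 : ℝ) * (X * (W ^ (a - 2) * W)) ≤
      LL2 F g ε a z / (min a 1 * a) := by
    rw [le_div_iff₀ (by positivity)]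
    have : (y + 1) ^ (1 / 2 : ℝ) * (X * (W ^ (a - 2) * W)) ≤
        (y + 1) ^ (1 / 2 : ℝ) * (X * (W ^ (a - 2) * ((a * x + ε) / min a 1))) := by gcongr
    calc _ ≤ (y + 1) ^ (1 / 2 : ℝ) * (X * (W ^ (a - 2) * ((a * x + ε) / min a 1))) * (min a 1 * a) := by
          gcongr
      _ = ((y + 1) ^ (1 / 2 : ℝ) * (4 * a * W ^ (a - 2) * X * (a * x + ε))) / 4 := by
          field_simp
      _ ≤ _ := by linarith
  calc ‖EE F g ε b z‖ ≤ 4 * |b| * (|b| + 3) * (LL2 F g ε a z / (min a 1 * a)) := by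
        refine e6.trans ?_
        gcongr
    _ = _ := by ring

lemma HW_HH2 (hF : DifferentiableOn ℂ F DD) (hg : DifferentiableOn ℂ g DD) (hε : 0 < ε)
    (a : ℝ) :
    ∃ p, HW (fun z => ((HH2 F g ε a z : ℝ) : ℂ)) p (fun z => QS2 F g ε a z / 2) := by
  obtain ⟨x1, h1⟩ := HW_V hF hg hε 0 (1 / 2)
  obtain ⟨x2, h2⟩ := HW_V hF hg hε a (1 / 2)
  obtain ⟨x3, h3⟩ := HW_V hF hg hε (2 * a) (1 / 2)
  have h4 := (h1.add h2).add h3
  have h5 : (fun z => ((HH2 F g ε a z : ℝ) : ℂ)) = fun z =>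
      ((VV F g ε 0 (1 / 2) z : ℝ) : ℂ) + ((VV F g ε a (1 / 2) z : ℝ) : ℂ) +
        ((VV F g ε (2 * a) (1 / 2) z : ℝ) : ℂ) := by
    funext z
    unfold HH2
    push_cast
    rfl
  rw [h5]
  refine ⟨_, h4.congr (fun z _ => rfl) fun z _ => ?_⟩
  unfold QS2
  ring

lemma HW_QS2 (hF : DifferentiableOn ℂ F DD) (hg : DifferentiableOn ℂ g DD) (hε : 0 < ε)
    (a : ℝ) :
    ∃ q, HW (QS2 F g ε a) (fun z => ((LL2 F g ε a z : ℝ) : ℂ) / 2) q := by
  obtain ⟨x1, h1⟩ := HW_Q hF hg hε 0 (1 / 2)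
  obtain ⟨x2, h2⟩ := HW_Q hF hg hε a (1 / 2)
  obtain ⟨x3, h3⟩ := HW_Q hF hg hε (2 * a) (1 / 2)
  have h4 := (h1.add h2).add h3
  refine ⟨_, h4.congr (fun z _ => ?_) fun z _ => rfl⟩
  unfold LL2
  push_cast
  ring

lemma HH2_nonneg (hε : 0 < ε) (a : ℝ) (z : ℂ) : 0 ≤ HH2 F g ε a z := by
  have h1 := WW_pos (F := F) hε z
  have h2 := WW_pos (F := g) one_pos z
  unfold HH2 VV
  positivity

theorem ball_bound2 (hF : DifferentiableOn ℂ F DD) (hg : DifferentiableOn ℂ g DD) (hε : 0 < ε)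
    {a b : ℝ} (ha : 0 < a) (hb : b = a - 1 / 2) {T : ℝ} (hT : T < 0) :
    ‖∫ z in Metric.ball (0:ℂ) (Real.exp T), (g z + D1 g z) * Ub F ε b z‖ ≤
      Real.pi * (‖avg (fun z => g z * Ub F ε b z) T‖ +
        4 * |b| * (|b| + 3) / (min a 1 * a) * avg (HH2 F g ε a) T) := by
  have hκ : 0 < min a 1 := lt_min ha one_pos
  set C := 4 * |b| * (|b| + 3) / (min a 1 * a) with hCdef
  have hC : 0 ≤ C := by positivity
  obtain ⟨_, hV1⟩ := HW_V1 hF hg hε b
  obtain ⟨_, hV2⟩ := HW_V2 hF hg hε b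
  obtain ⟨_, hH⟩ := HW_HH2 hF hg hε a
  obtain ⟨_, hQ⟩ := HW_QS2 hF hg hε a
  have cU : ContinuousOn (Ub F ε b) DD := (HW_Ub hF hε b).cv
  have cn : ContinuousOn (fun z => D1 g z * Ub F ε b z) DD := (D1_diff hg).continuousOn.mul cU
  have cA : ContinuousOn (fun z => g z * Ub F ε b z) DD := hg.continuousOn.mul cU
  have cE : ContinuousOn (EE F g ε b) DD := by
    have := hV2.cq.const_smul (2:ℂ)
    refine this.congr fun z _ => ?_
    simp only [smul_eq_mul, Pi.smul_apply]
    ring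
  have cL : ContinuousOn (LL2 F g ε a) DD := by
    have := (Complex.continuous_re.comp_continuousOn hQ.cp).const_smul (2:ℝ)
    refine this.congr fun z _ => ?_
    simp only [smul_eq_mul, Pi.smul_apply, Function.comp_apply]
    rw [show ((LL2 F g ε a z : ℝ) : ℂ) / 2 = ((LL2 F g ε a z / 2 : ℝ) : ℂ) by push_cast; rfl,
      Complex.ofReal_re]
    ring
  have hA : ∀ t < 0, HasDerivAt (avg fun z => g z * Ub F ε b z)
      (2 * avg (fun z => D1 g z * Ub F ε b z) t + avg (V2 F g ε b) t) t := by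
    intro t ht
    refine (hV1.avg_dp ht).congr_deriv ?_
    have e1 : avg (fun z => 2 * (D1 g z * Ub F ε b z + V2 F g ε b z / 2)) t =
        avg (fun z => 2 * (D1 g z * Ub F ε b z) + V2 F g ε b z) t :=
      avg_congr ht fun z _ => by ring
    rw [e1, avg_add (v := fun z => 2 * (D1 g z * Ub F ε b z)) (cn.const_smul (2:ℂ)) hV2.cv ht, avg_cmul]
  have hJ : ∀ t < 0, HasDerivAt (avg (V2 F g ε b)) (avg (EE F g ε b) t) t := by
    intro t ht
    refine (hV2.avg_dq ht).congr_deriv ?_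
    exact avg_congr ht fun z _ => by ring
  have hAH : ∀ t < 0, HasDerivAt (avg (HH2 F g ε a)) ((avg (QS2 F g ε a) t).re) t := by
    intro t ht
    have h1 := hH.avg_dq ht
    have e1 : avg (fun z => 2 * (QS2 F g ε a z / 2)) t = avg (QS2 F g ε a) t :=
      avg_congr ht fun z _ => by ring
    rw [e1] at h1
    have h2 := Complex.reCLM.hasFDerivAt.comp_hasDerivAt t h1
    have e2 : (avg (HH2 F g ε a)) =
        (Complex.reCLM ∘ avg (fun z => ((HH2 F g ε a z : ℝ) : ℂ))) := by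
      funext t
      simp only [Function.comp_apply, Complex.reCLM_apply]
      rw [avg_ofReal, Complex.ofReal_re]
    rw [e2]
    exact h2
  have hJH : ∀ t < 0, HasDerivAt (fun t => (avg (QS2 F g ε a) t).re)
      (avg (LL2 F g ε a) t) t := by
    intro t ht
    have h1 := hQ.avg_dp ht
    have e1 : avg (fun z => 2 * (((LL2 F g ε a z : ℝ) : ℂ) / 2)) t =
        ((avg (LL2 F g ε a) t : ℝ) : ℂ) := by
      rw [← avg_ofReal]
      exact avg_congr ht fun z _ => by ring
    rw [e1] at h1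
    have h2 := Complex.reCLM.hasFDerivAt.comp_hasDerivAt t h1
    exact h2
  have hEL : ∀ t < 0, ‖avg (EE F g ε b) t‖ ≤ C * avg (LL2 F g ε a) t := by
    intro t ht
    refine (avg_norm_le _ _).trans ?_
    rw [← avg_rmul]
    exact avg_mono cE.norm (cL.const_smul C) ht fun z _ => EE_le2 ha hb hε z
  have key : ∀ T1 ≤ T, ‖∫ t in T1..T, (2 * Real.exp (2 * t) : ℝ) •
      avg (fun z => (g z + D1 g z) * Ub F ε b z) t‖ ≤
      ‖avg (fun z => g z * Ub F ε b z) T‖ + C * avg (HH2 F g ε a) T +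
      (Real.exp (2 * T1) * ‖avg (fun z => g z * Ub F ε b z) T1‖ + ‖avg (V2 F g ε b) T1‖ +
        C * |(avg (QS2 F g ε a) T1).re|) := by
    intro T1 hT1
    have h1 := comb hC hA hJ (avg_contOn cn) (avg_contOn cE) hAH hJH (avg_contOn cL)
      (fun t ht => avg_nonneg ht fun z _ => HH2_nonneg hε a z) hEL hT1 hT
    refine le_trans (le_of_eq ?_) h1
    congr 1
    apply intervalIntegral.integral_congr
    intro t ht
    rw [uIcc_of_le hT1] at ht
    have ht0 : t < 0 := lt_of_le_of_lt ht.2 hT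
    simp only
    rw [← avg_add cA cn ht0]
    congr 1
    exact avg_congr ht0 fun z _ => by ring
  have hh : ContinuousOn (fun z => (g z + D1 g z) * Ub F ε b z) DD :=
    (hg.continuousOn.add (D1_diff hg).continuousOn).mul cU
  have lim1 := (ball_lim hh hT).norm
  have z1 : V2 F g ε b 0 = 0 := by simp [V2, D1]
  have z2 : QS2 F g ε a 0 = 0 := by simp [QS2, QQ, D1]
  have lim2 : Tendsto (fun T1 => ‖avg (V2 F g ε b) T1‖) atBot (𝓝 0) := by
    have := (avg_tendsto hV2.cv).norm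
    rwa [z1, norm_zero] at this
  have lim3 : Tendsto (fun T1 => C * |(avg (QS2 F g ε a) T1).re|) atBot (𝓝 0) := by
    have h1 := avg_tendsto hQ.cv
    rw [z2] at h1
    have h2 := ((Complex.continuous_re.tendsto 0).comp h1).abs.const_mul C
    simpa using h2
  have lim4 : Tendsto (fun T1 => Real.exp (2 * T1) * ‖avg (fun z => g z * Ub F ε b z) T1‖) atBot
      (𝓝 0) := by
    have h1 := (avg_tendsto cA).norm
    have h2 : Tendsto (fun T1 : ℝ => Real.exp (2 * T1)) atBot (𝓝 0) :=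
      Real.tendsto_exp_atBot.comp (tendsto_id.const_mul_atBot (by norm_num : (0:ℝ) < 2))
    simpa using h2.mul h1
  have lim5 := ((lim4.add lim2).add lim3).const_add
    (‖avg (fun z => g z * Ub F ε b z) T‖ + C * avg (HH2 F g ε a) T)
  have fin := le_of_tendsto_of_tendsto lim1 lim5 (by
    filter_upwards [Iic_mem_atBot T] with T1 hT1 using key T1 hT1)
  simp only [add_zero] at fin
  rw [norm_smul, norm_inv, Real.norm_of_nonneg Real.pi_pos.le, inv_mul_le_iff₀ Real.pi_pos] at fin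
  exact fin

/-- the constant -/
noncomputable def Cst2 (p M : ℝ) : ℝ :=
  Real.pi * ((1 + 4 * |(p - 2) / 2| * (|(p - 2) / 2| + 3) / (min ((p - 1) / 2) 1 * ((p - 1) / 2))) *
    (3 * (M ^ 2 + 1) ^ (2 * ((p - 1) / 2))))

theorem disc_bound2 (hF : DifferentiableOn ℂ F DD) (hg : Differentiable ℂ g)
    {p M : ℝ} (hp : 1 < p)
    (hFp : IntegrableOn (fun z => ‖F z‖ ^ p) DD)
    (hM : ∀ z ∈ DD, ‖F z‖ ≤ M) :
    ‖∫ z in DD, (g z + D1 g z) * U0 F p z‖ ≤ Cst2 p M * (avg (fun z => ‖g z‖) 0 + 1) := by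
  set a : ℝ := (p - 1) / 2 with ha
  set b : ℝ := (p - 2) / 2 with hb
  have ha0 : 0 < a := by rw [ha]; linarith
  have hba : b = a - 1 / 2 := by rw [ha, hb]; ring
  set C : ℝ := 4 * |b| * (|b| + 3) / (min a 1 * a) with hC
  have hκ : 0 < min a 1 := lt_min ha0 one_pos
  have hC0 : 0 ≤ C := by positivity
  set e : ℕ → ℝ := fun n => 1 / ((n : ℝ) + 1) with he
  have he0 : ∀ n, 0 < e n := fun n => by rw [he]; positivity
  have he1 : ∀ n, e n ≤ 1 := fun n => by
    rw [he]
    simp only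
    rw [div_le_one (by positivity)]
    have : (0:ℝ) ≤ n := Nat.cast_nonneg n
    linarith
  have helim : Tendsto e atTop (𝓝 0) := tendsto_one_div_add_atTop_nhds_zero_nat
  have hexp1 : ∀ n, Real.exp (-e n) < 1 := fun n => by
    rw [← Real.exp_zero]
    exact Real.exp_lt_exp.mpr (by linarith [he0 n])
  have hgD : DifferentiableOn ℂ g DD := hg.differentiableOn
  have cG : Continuous fun z => g z + D1 g z := by
    unfold D1
    exact hg.continuous.add (continuous_id.mul (hg.contDiff.continuous_deriv le_rfl : Continuous (deriv g)))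
  obtain ⟨Cg, hCg⟩ := (isCompact_closedBall (0:ℂ) 1).exists_bound_of_continuousOn cG.continuousOn
  have hCg' : ∀ z ∈ DD, ‖g z + D1 g z‖ ≤ Cg := fun z hz => hCg z (Metric.ball_subset_closedBall hz)
  have hCg0 : 0 ≤ Cg := (norm_nonneg _).trans (hCg' 0 (Metric.mem_ball_self one_pos))
  -- the limit of the integrals
  have lim1 : Tendsto (fun n => ∫ z in Metric.ball (0:ℂ) (Real.exp (-e n)),
      (g z + D1 g z) * Ub F (e n) b z) atTop (𝓝 (∫ z in DD, (g z + D1 g z) * U0 F p z)) := by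
    have e1 : ∀ n, ∫ z in Metric.ball (0:ℂ) (Real.exp (-e n)), (g z + D1 g z) * Ub F (e n) b z =
        ∫ z in DD, (Metric.ball (0:ℂ) (Real.exp (-e n))).indicator
          (fun z => (g z + D1 g z) * Ub F (e n) b z) z := by
      intro n
      rw [setIntegral_indicator Metric.isOpen_ball.measurableSet,
        inter_eq_self_of_subset_right (Metric.ball_subset_ball (hexp1 n).le)]
    simp only [e1]
    apply tendsto_integral_of_dominated_convergence
      (fun z => Cg * (2 ^ a * (‖F z‖ ^ (2 * a) + 1)))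
    · intro n
      have hc : ContinuousOn (fun z => (g z + D1 g z) * Ub F (e n) b z) DD :=
        cG.continuousOn.mul (HW_Ub hF (he0 n) b).cv
      exact (hc.aestronglyMeasurable Metric.isOpen_ball.measurableSet).indicator
        Metric.isOpen_ball.measurableSet
    · have hfin : IsFiniteMeasure (volume.restrict DD) := ⟨by
        rw [Measure.restrict_apply_univ]
        exact measure_ball_lt_top⟩
      have hi1 : Integrable (fun z => ‖F z‖ ^ (2 * a)) (volume.restrict DD) := by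
        refine Integrable.mono' (hFp.integrable.add (integrable_const (1:ℝ))) ?_ ?_
        · have hc : ContinuousOn (fun z => ‖F z‖ ^ (2 * a)) DD :=
            hF.continuousOn.norm.rpow_const fun z _ => Or.inr (by positivity)
          exact hc.aestronglyMeasurable Metric.isOpen_ball.measurableSet
        · refine ae_of_all _ fun z => ?_
          rw [Real.norm_of_nonneg (by positivity)]
          simp only [Pi.add_apply]
          rcases le_total ‖F z‖ 1 with h | h
          · have h2 : ‖F z‖ ^ (2 * a) ≤ 1 := Real.rpow_le_one (norm_nonneg _) h (by positivity)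
            have h3 : 0 ≤ ‖F z‖ ^ p := by positivity
            linarith
          · have h2 : ‖F z‖ ^ (2 * a) ≤ ‖F z‖ ^ p :=
              Real.rpow_le_rpow_of_exponent_le h (by rw [ha]; linarith)
            linarith
      exact ((hi1.add (integrable_const (1:ℝ))).const_mul (2 ^ a)).const_mul Cg
    · intro n
      filter_upwards [ae_restrict_mem Metric.isOpen_ball.measurableSet] with z hz
      have hb0 : ‖(g z + D1 g z) * Ub F (e n) b z‖ ≤ Cg * (2 ^ a * (‖F z‖ ^ (2 * a) + 1)) := by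
        rw [norm_mul]
        have h1 := (Ub_norm_le (F := F) (he0 n) hba z).trans
          (gen_le (norm_nonneg (F z)) (he0 n) (he1 n) ha0)
        exact mul_le_mul (hCg' z hz) h1 (norm_nonneg _) hCg0
      by_cases hzb : z ∈ Metric.ball (0:ℂ) (Real.exp (-e n))
      · rw [indicator_of_mem hzb]
        exact hb0
      · rw [indicator_of_notMem hzb, norm_zero]
        positivity
    · filter_upwards [ae_restrict_mem Metric.isOpen_ball.measurableSet] with z hz
      have hz1 : ‖z‖ < 1 := by simpa using hz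
      have h1 : Tendsto (fun n => Real.exp (-e n)) atTop (𝓝 1) := by
        have := (Real.continuous_exp.tendsto _).comp helim.neg
        rw [neg_zero, Real.exp_zero] at this
        exact this
      have h2 : ∀ᶠ n in atTop, ‖z‖ < Real.exp (-e n) := h1.eventually_const_lt hz1
      have h3 := (U0_lim (F := F) (p := p) z helim).const_mul (g z + D1 g z)
      refine h3.congr' ?_
      filter_upwards [h2] with n hn
      rw [indicator_of_mem (by simpa using hn)]
  have hbd : ∀ n, ‖∫ z in Metric.ball (0:ℂ) (Real.exp (-e n)),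
      (g z + D1 g z) * Ub F (e n) b z‖ ≤ Cst2 p M * (avg (fun z => ‖g z‖) (-e n) + 1) := by
    intro n
    have hTn : -e n < 0 := by linarith [he0 n]
    have h1 := ball_bound2 hF hgD (he0 n) ha0 hba hTn
    have cH : ContinuousOn (HH2 F g (e n) a) DD := by
      obtain ⟨_, hH⟩ := HW_HH2 hF hgD (he0 n) a
      have := Complex.continuous_re.comp_continuousOn hH.cv
      exact this
    have c2 : ContinuousOn (fun z => ‖g z‖) DD := hgD.continuousOn.norm
    set N : ℝ := (M ^ 2 + 1) ^ (2 * a) with hN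
    have hM1 : 1 ≤ M ^ 2 + 1 := by nlinarith
    have hN1 : 1 ≤ N := Real.one_le_rpow hM1 (by positivity)
    have hpw : ∀ z ∈ DD, HH2 F g (e n) a z ≤ 3 * N * (‖g z‖ + 1) := by
      intro z hz
      have hW := WW_pos (F := F) (he0 n) z
      have hY := WW_pos (F := g) one_pos z
      have hWM : WW F (e n) z ≤ M ^ 2 + 1 := by
        unfold WW
        have := pow_le_pow_left₀ (norm_nonneg _) (hM z hz) 2
        have := he1 n
        linarith
      have k1 : WW F (e n) z ^ a ≤ N := by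
        calc WW F (e n) z ^ a ≤ (M ^ 2 + 1) ^ a := Real.rpow_le_rpow hW.le hWM ha0.le
          _ ≤ N := Real.rpow_le_rpow_of_exponent_le hM1 (by linarith)
      have k2 : WW F (e n) z ^ (2 * a) ≤ N := Real.rpow_le_rpow hW.le hWM (by positivity)
      have k3 : WW g 1 z ^ (1 / 2 : ℝ) ≤ ‖g z‖ + 1 := by
        rw [← Real.sqrt_eq_rpow]
        apply Real.sqrt_le_iff.mpr
        refine ⟨by positivity, ?_⟩
        unfold WW
        nlinarith [norm_nonneg (g z)]
      unfold HH2 VV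
      rw [Real.rpow_zero, one_mul]
      have k4 : 0 ≤ WW g 1 z ^ (1 / 2 : ℝ) := by positivity
      calc WW g 1 z ^ (1 / 2 : ℝ) + WW F (e n) z ^ a * WW g 1 z ^ (1 / 2 : ℝ) +
            WW F (e n) z ^ (2 * a) * WW g 1 z ^ (1 / 2 : ℝ)
          ≤ N * WW g 1 z ^ (1 / 2 : ℝ) + N * WW g 1 z ^ (1 / 2 : ℝ) +
            N * WW g 1 z ^ (1 / 2 : ℝ) := by
            gcongr
            nlinarith
        _ = 3 * N * WW g 1 z ^ (1 / 2 : ℝ) := by ring
        _ ≤ _ := by gcongr
    have h2 : avg (HH2 F g (e n) a) (-e n) ≤ 3 * N * (avg (fun z => ‖g z‖) (-e n) + 1) := by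
      have cc : ContinuousOn (fun z => 3 * N * (‖g z‖ + 1)) DD :=
        (c2.add continuousOn_const).const_smul (3 * N)
      refine (avg_mono cH cc hTn hpw).trans ?_
      rw [avg_rmul, avg_add c2 continuousOn_const hTn, avg_const]
    have h4 : ‖avg (fun z => g z * Ub F (e n) b z) (-e n)‖ ≤ avg (HH2 F g (e n) a) (-e n) := by
      refine (avg_norm_le _ _).trans ?_
      refine avg_mono (hgD.continuousOn.mul (HW_Ub hF (he0 n) b).cv).norm cH hTn fun z _ => ?_
      change ‖g z * Ub F (e n) b z‖ ≤ _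
      rw [norm_mul]
      have k1 := Ub_norm_le (F := F) (he0 n) hba z
      have k2 : ‖g z‖ ≤ WW g 1 z ^ (1 / 2 : ℝ) := by
        rw [← Real.sqrt_eq_rpow]
        apply Real.le_sqrt_of_sq_le
        unfold WW
        linarith
      have hW := WW_pos (F := F) (he0 n) z
      have hY := WW_pos (F := g) one_pos z
      have k3 : ‖g z‖ * ‖Ub F (e n) b z‖ ≤ VV F g (e n) a (1 / 2) z := by
        unfold VV
        rw [mul_comm (WW F (e n) z ^ a)]
        gcongr
      refine k3.trans ?_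
      unfold HH2
      have k4 : 0 ≤ VV F g (e n) 0 (1 / 2) z := by unfold VV; positivity
      have k5 : 0 ≤ VV F g (e n) (2 * a) (1 / 2) z := by unfold VV; positivity
      linarith
    refine h1.trans ?_
    unfold Cst2
    rw [← hC, ← hN]
    set X := 3 * N * (avg (fun z => ‖g z‖) (-e n) + 1) with hX
    calc Real.pi * (‖avg (fun z => g z * Ub F (e n) b z) (-e n)‖ +
          C * avg (HH2 F g (e n) a) (-e n)) ≤ Real.pi * (X + C * X) := by
          gcongr
          exact h4.trans h2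
      _ = _ := by rw [hX]; ring
  have cg : Continuous fun z => ‖g z‖ := hg.continuous.norm
  have lim2 : Tendsto (fun n => Cst2 p M * (avg (fun z => ‖g z‖) (-e n) + 1)) atTop
      (𝓝 (Cst2 p M * (avg (fun z => ‖g z‖) 0 + 1))) := by
    have h1 : Tendsto (fun n => avg (fun z => ‖g z‖) (-e n)) atTop
        (𝓝 (avg (fun z => ‖g z‖) 0)) := by
      have h2 : Tendsto (fun n => -e n) atTop (𝓝 0) := by simpa using helim.neg
      exact ((avg_cont cg).tendsto 0).comp h2
    exact (h1.add_const 1).const_mul _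
  exact le_of_tendsto_of_tendsto' lim1.norm lim2 hbd

end Pool.Agent.V113.KR
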