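import Pool.Agent.V113.KR.J

/-! Atoms and the mean oscillation of dilates. -/

open MeasureTheory Set Filter Topology Complex
open scoped ComplexConjugate

namespace Pool.Agent.V113.KR

/-- orthogonality of exponentials -/
lemma pairing2 (c d : ℕ → ℂ) (N : ℕ) :
    ∫ θ in (0:ℝ)..(2 * Real.pi), tp c N θ * conj (tp d N θ) =
      2 * Real.pi * ∑ n ∈ Finset.range N, c n * conj (d n) := by
  have h1 : ∀ θ : ℝ, tp c N θ * conj (tp d N θ) = ∑ n ∈ Finset.range N,
      ∑ j ∈ Finset.range N, (c j * conj (d n)) * Complex.exp (((j - n : ℤ) : ℂ) * θ * I) := by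
    intro θ
    unfold tp
    rw [map_sum, Finset.mul_sum]
    apply Finset.sum_congr rfl
    intro n _
    rw [Finset.sum_mul]
    apply Finset.sum_congr rfl
    intro j _
    rw [map_mul, ← Complex.exp_conj]
    simp only [map_mul, Complex.conj_I, Complex.conj_ofReal, map_natCast]
    rw [show c j * Complex.exp (j * θ * I) * (conj (d n) * Complex.exp (n * θ * -I)) =
      c j * conj (d n) * (Complex.exp (j * θ * I) * Complex.exp (n * θ * -I)) by ring,
      ← Complex.exp_add]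
    congr 2
    push_cast
    ring
  simp only [h1]
  rw [intervalIntegral.integral_finsetSum]
  · rw [Finset.mul_sum]
    apply Finset.sum_congr rfl
    intro n hn
    rw [intervalIntegral.integral_finsetSum]
    · simp only [intervalIntegral.integral_const_mul, orth]
      rw [Finset.sum_eq_single n]
      · rw [if_pos (by ring)]
        ring
      · intro j _ hj
        rw [if_neg (by omega), mul_zero]
      · intro h
        exact absurd hn h
    · intro j _
      apply Continuous.intervalIntegrable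
      fun_prop
  · intro n _
    apply Continuous.intervalIntegrable
    fun_prop

lemma sq_int (c : ℕ → ℂ) (N : ℕ) : ∫ θ in (0:ℝ)..(2 * Real.pi), ‖tp c N θ‖ ^ 2 =
    2 * Real.pi * ∑ n ∈ Finset.range N, ‖c n‖ ^ 2 := by
  have h := pairing2 c c N
  simp only [Complex.mul_conj'] at h
  have h2 : ∫ θ in (0:ℝ)..(2 * Real.pi), ((‖tp c N θ‖ : ℂ)) ^ 2 =
      ((∫ θ in (0:ℝ)..(2 * Real.pi), ‖tp c N θ‖ ^ 2 : ℝ) : ℂ) := by
    rw [← intervalIntegral.integral_ofReal]
    congr 1
    funext θ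
    push_cast
    rfl
  rw [h2] at h
  have h3 : ((2 * Real.pi * ∑ n ∈ Finset.range N, ‖c n‖ ^ 2 : ℝ) : ℂ) =
      2 * Real.pi * ∑ n ∈ Finset.range N, ((‖c n‖ : ℂ)) ^ 2 := by
    push_cast
    rfl
  rw [← h3] at h
  exact_mod_cast h

/-- lower bound for the kernel -/
lemma ker_low {r φ : ℝ} (hφ : |φ| ≤ 3 * Real.pi / 2) (hr : 0 ≤ r) :
    |φ| / 5 ≤ ‖1 - (r : ℂ) * Complex.exp (φ * I)‖ := by
  have hpi := Real.pi_gt_three
  have hpi4 := Real.pi_lt_four
  have hpi32 : Real.pi < 3.15 := Real.pi_lt_d2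
  have hsq : ‖1 - (r : ℂ) * Complex.exp (φ * I)‖ ^ 2 = (r - Real.cos φ) ^ 2 + Real.sin φ ^ 2 := by
    rw [Complex.sq_norm, Complex.normSq_apply]
    have h1 : (1 - (r : ℂ) * Complex.exp (φ * I)).re = 1 - r * Real.cos φ := by
      rw [Complex.sub_re, Complex.re_ofReal_mul, Complex.exp_ofReal_mul_I_re, Complex.one_re]
    have h2 : (1 - (r : ℂ) * Complex.exp (φ * I)).im = -(r * Real.sin φ) := by
      rw [Complex.sub_im, Complex.im_ofReal_mul, Complex.exp_ofReal_mul_I_im, Complex.one_im]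
      ring
    rw [h1, h2]
    have := Real.sin_sq_add_cos_sq φ
    linear_combination (r ^ 2 - 1) * this
  have key : (|φ| / 5) ^ 2 ≤ ‖1 - (r : ℂ) * Complex.exp (φ * I)‖ ^ 2 := by
    rw [hsq]
    rcases le_total |φ| (Real.pi / 2) with h | h
    · have h1 : 2 / Real.pi * |φ| ≤ Real.sin |φ| := Real.mul_le_sin (abs_nonneg _) h
      have h2 : Real.sin |φ| ^ 2 = Real.sin φ ^ 2 := by
        rcases abs_cases φ with ⟨h3, _⟩ | ⟨h3, _⟩
        · rw [h3]
        · rw [h3, Real.sin_neg]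
          ring
      have h3 : |φ| / 5 ≤ 2 / Real.pi * |φ| := by
        have : (1:ℝ) / 5 ≤ 2 / Real.pi := by
          rw [div_le_div_iff₀ (by norm_num) Real.pi_pos]
          linarith
        have := mul_le_mul_of_nonneg_right this (abs_nonneg φ)
        linarith
      have h4 : (|φ| / 5) ^ 2 ≤ Real.sin |φ| ^ 2 := by
        apply pow_le_pow_left₀ (by positivity)
        linarith
      rw [h2] at h4
      nlinarith [sq_nonneg (r - Real.cos φ)]
    · have h1 : Real.cos φ ≤ 0 := by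
        rw [← Real.cos_abs]
        apply Real.cos_nonpos_of_pi_div_two_le_of_le h
        linarith
      have h2 := Real.sin_sq_add_cos_sq φ
      have h3 : |φ| / 5 ≤ 1 := by linarith
      have h4 : (|φ| / 5) ^ 2 ≤ 1 := pow_le_one₀ (by positivity) h3
      nlinarith
  exact (pow_le_pow_iff_left₀ (by positivity) (norm_nonneg _) two_ne_zero).mp key

/-- Fourier coefficients of an atom -/
noncomputable def An (a : ℝ → ℂ) (α β : ℝ) (n : ℕ) : ℂ :=
  (2 * Real.pi : ℂ)⁻¹ * ∫ θ in α..β, a θ * Complex.exp (-(n * θ * I))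

lemma per_int {f : ℝ → ℝ} (hf : Function.Periodic f (2 * Real.pi)) (s : ℝ) :
    ∫ θ in s..(s + 2 * Real.pi), f θ = ∫ θ in (0:ℝ)..(2 * Real.pi), f θ := by
  have h := hf.intervalIntegral_add_eq s 0
  rwa [zero_add] at h

section atom
variable {a : ℝ → ℂ} {α β : ℝ}

lemma a_int (ham : Measurable a) (ha : ∀ θ, ‖a θ‖ ≤ 2) {g : ℝ → ℂ} (hg : Continuous g) (x y : ℝ) :
    IntervalIntegrable (fun θ => a θ * g θ) volume x y := by
  have h1 : IntervalIntegrable g volume x y := hg.intervalIntegrable x y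
  rw [intervalIntegrable_iff] at h1 ⊢
  exact h1.bdd_mul ham.aestronglyMeasurable (c := 2) (ae_of_all _ ha)

lemma conj_tp (c : ℕ → ℂ) (N : ℕ) (θ : ℝ) : conj (tp c N θ) =
    ∑ n ∈ Finset.range N, conj (c n) * Complex.exp (-(n * θ * I)) := by
  unfold tp
  rw [map_sum]
  apply Finset.sum_congr rfl
  intro n _
  rw [map_mul, ← Complex.exp_conj]
  simp only [map_mul, Complex.conj_I, Complex.conj_ofReal, map_natCast]
  congr 2
  ring

lemma atom_pair (ham : Measurable a) (ha : ∀ θ, ‖a θ‖ ≤ 2) (c : ℕ → ℂ) (N : ℕ) :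
    ∫ θ in α..β, a θ * conj (tp c N θ) =
      2 * Real.pi * ∑ n ∈ Finset.range N, An a α β n * conj (c n) := by
  have h1 : ∀ θ, a θ * conj (tp c N θ) = ∑ n ∈ Finset.range N,
      conj (c n) * (a θ * Complex.exp (-(n * θ * I))) := by
    intro θ
    rw [conj_tp, Finset.mul_sum]
    apply Finset.sum_congr rfl
    intro n _
    ring
  simp only [h1]
  rw [intervalIntegral.integral_finsetSum]
  · rw [Finset.mul_sum]
    apply Finset.sum_congr rfl
    intro n _
    rw [intervalIntegral.integral_const_mul]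
    unfold An
    have hpi : (2 * Real.pi : ℂ) ≠ 0 := by
      exact_mod_cast Real.two_pi_pos.ne'
    generalize (∫ θ in α..β, a θ * Complex.exp (-(n * θ * I))) = X
    field_simp
  · intro n _
    apply IntervalIntegrable.const_mul
    exact a_int ham ha (by fun_prop) _ _

lemma bessel (hαβ : α < β) (hβ : β ≤ α + 2 * Real.pi) (ham : Measurable a) (ha : ∀ θ, ‖a θ‖ ≤ 2)
    (N : ℕ) : 2 * Real.pi * ∑ n ∈ Finset.range N, ‖An a α β n‖ ^ 2 ≤ 4 * (β - α) := by
  set A := An a α β with hA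
  have hT := tp_cont A N
  have hi1 : IntervalIntegrable (fun θ => ‖a θ‖ ^ 2) volume α β := by
    have h0 : IntervalIntegrable (fun _ : ℝ => (4:ℝ)) volume α β := intervalIntegrable_const
    refine h0.mono_fun' (ham.norm.pow_const 2).aestronglyMeasurable (ae_of_all _ fun θ => ?_)
    change ‖‖a θ‖ ^ 2‖ ≤ (4:ℝ)
    rw [Real.norm_of_nonneg (by positivity)]
    nlinarith [ha θ, norm_nonneg (a θ)]
  have hi2 : IntervalIntegrable (fun θ => (a θ * conj (tp A N θ)).re) volume α β := by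
    have := a_int ham ha (Complex.continuous_conj.comp hT) α β
    rw [intervalIntegrable_iff] at this ⊢
    exact this.re
  have hi3 : IntervalIntegrable (fun θ => ‖tp A N θ‖ ^ 2) volume α β :=
    (hT.norm.pow 2).intervalIntegrable _ _
  have e1 : ∀ θ, ‖a θ - tp A N θ‖ ^ 2 = ‖a θ‖ ^ 2 - 2 * (a θ * conj (tp A N θ)).re +
      ‖tp A N θ‖ ^ 2 := by
    intro θ
    rw [Complex.sq_norm, Complex.sq_norm, Complex.sq_norm, Complex.normSq_sub]
    ring
  have h0 : 0 ≤ ∫ θ in α..β, ‖a θ - tp A N θ‖ ^ 2 :=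
    intervalIntegral.integral_nonneg hαβ.le fun θ _ => by positivity
  simp only [e1] at h0
  rw [intervalIntegral.integral_add (hi1.sub (hi2.const_mul 2)) hi3,
    intervalIntegral.integral_sub hi1 (hi2.const_mul 2), intervalIntegral.integral_const_mul] at h0
  have e2 : ∫ θ in α..β, (a θ * conj (tp A N θ)).re =
      2 * Real.pi * ∑ n ∈ Finset.range N, ‖A n‖ ^ 2 := by
    have h1 := intervalIntegral.intervalIntegral_re (a_int ham ha (Complex.continuous_conj.comp hT) α β)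
    have h2 : ∫ θ in α..β, (a θ * conj (tp A N θ)).re =
        RCLike.re (∫ θ in α..β, a θ * conj (tp A N θ)) := h1
    rw [h2, atom_pair ham ha A N]
    have h3 : (2 * Real.pi * ∑ n ∈ Finset.range N, An a α β n * conj (A n) : ℂ) =
        ((2 * Real.pi * ∑ n ∈ Finset.range N, ‖A n‖ ^ 2 : ℝ) : ℂ) := by
      push_cast
      congr 1
      apply Finset.sum_congr rfl
      intro n _
      rw [← hA, Complex.mul_conj']
    rw [h3]
    exact Complex.ofReal_re _
  have e3 : ∫ θ in α..β, ‖a θ‖ ^ 2 ≤ 4 * (β - α) := by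
    calc ∫ θ in α..β, ‖a θ‖ ^ 2 ≤ ∫ θ in α..β, (4:ℝ) := by
          apply intervalIntegral.integral_mono hαβ.le hi1 intervalIntegrable_const
          intro θ
          simp only
          nlinarith [ha θ, norm_nonneg (a θ)]
      _ = 4 * (β - α) := by
        rw [intervalIntegral.integral_const, smul_eq_mul]
        ring
  have e4 : ∫ θ in α..β, ‖tp A N θ‖ ^ 2 ≤ 2 * Real.pi * ∑ n ∈ Finset.range N, ‖A n‖ ^ 2 := by
    rw [← sq_int A N, ← per_int (f := fun θ => ‖tp A N θ‖ ^ 2) (fun θ => by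
      simp only [tp_per A N θ]) α]
    apply intervalIntegral.integral_mono_interval le_rfl hαβ.le hβ
    · exact ae_of_all _ fun θ => by positivity
    · exact (hT.norm.pow 2).intervalIntegrable _ _
  rw [e2] at h0
  linarith

/-- the pointwise estimate far from the atom -/
lemma far (hαβ : α < β) (hβ : β - α < Real.pi) (ham : Measurable a) (ha : ∀ θ, ‖a θ‖ ≤ 2)
    (ha0 : ∫ θ in α..β, a θ = 0) {r : ℝ} (hr : 0 < r) (hr1 : r < 1) (N : ℕ) {ψ : ℝ}
    (h1 : β - α < |ψ - (α + β) / 2|) (h2 : |ψ - (α + β) / 2| ≤ Real.pi) :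
    ‖tp (fun n => An a α β n * r ^ n) N ψ‖ ≤
      8 * (β - α) ^ 2 / (ψ - (α + β) / 2) ^ 2 + (β - α) * (r ^ N / (1 - r)) := by
  set c := (α + β) / 2 with hc
  set ℓ := β - α with hℓ
  have hℓ0 : 0 < ℓ := by rw [hℓ]; linarith
  have hpi := Real.pi_gt_three
  have hr1' : 0 < 1 - r := by linarith
  set δ := |ψ - c| with hδ
  have hδ0 : 0 < δ := by linarith
  set w : ℝ → ℂ := fun θ => (r : ℂ) * Complex.exp (((ψ - θ : ℝ) : ℂ) * I) with hw
  have hwn : ∀ θ, ‖w θ‖ = r := by
    intro θ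
    simp only [hw]
    rw [norm_mul, Complex.norm_real, Real.norm_of_nonneg hr.le, Complex.norm_exp_ofReal_mul_I, mul_one]
  have hw1 : ∀ θ, 1 - r ≤ ‖1 - w θ‖ := by
    intro θ
    have := norm_sub_norm_le (1:ℂ) (w θ)
    rw [norm_one, hwn] at this
    exact this
  have hw0 : ∀ θ, 1 - w θ ≠ 0 := fun θ => norm_pos_iff.mp (lt_of_lt_of_le hr1' (hw1 θ))
  have hwc : Continuous w := by
    simp only [hw]
    fun_prop
  -- the representation
  have e1 : tp (fun n => An a α β n * r ^ n) N ψ = (2 * Real.pi : ℂ)⁻¹ * ∫ θ in α..β,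
      a θ * (∑ n ∈ Finset.range N, w θ ^ n) := by
    have e2 : ∀ θ, a θ * (∑ n ∈ Finset.range N, w θ ^ n) = ∑ n ∈ Finset.range N,
        ((r : ℂ) ^ n * Complex.exp (n * ψ * I)) * (a θ * Complex.exp (-(n * θ * I))) := by
      intro θ
      rw [Finset.mul_sum]
      apply Finset.sum_congr rfl
      intro n _
      simp only [hw]
      rw [mul_pow, ← Complex.exp_nat_mul]
      have : (n : ℂ) * (((ψ - θ : ℝ) : ℂ) * I) = n * ψ * I + -(n * θ * I) := by push_cast; ring
      rw [this, Complex.exp_add]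
      ring
    simp only [e2]
    rw [intervalIntegral.integral_finsetSum]
    · unfold tp An
      rw [Finset.mul_sum]
      apply Finset.sum_congr rfl
      intro n _
      rw [intervalIntegral.integral_const_mul]
      ring
    · intro n _
      apply IntervalIntegrable.const_mul
      exact a_int ham ha (by fun_prop) _ _
  have e3 : ∀ θ, a θ * (∑ n ∈ Finset.range N, w θ ^ n) =
      a θ * ((1 - w θ)⁻¹ - (1 - w c)⁻¹ - w θ ^ N * (1 - w θ)⁻¹) + a θ * (1 - w c)⁻¹ := by
    intro θ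
    have : ∑ n ∈ Finset.range N, w θ ^ n = (1 - w θ ^ N) * (1 - w θ)⁻¹ := by
      rw [eq_mul_inv_iff_mul_eq₀ (hw0 θ), mul_comm, mul_neg_geom_sum]
    rw [this]
    ring
  have hci : Continuous fun θ => (1 - w θ)⁻¹ := (continuous_const.sub hwc).inv₀ hw0
  have i1 : IntervalIntegrable (fun θ => a θ * ((1 - w θ)⁻¹ - (1 - w c)⁻¹ - w θ ^ N * (1 - w θ)⁻¹))
      volume α β := a_int ham ha ((hci.sub continuous_const).sub ((hwc.pow N).mul hci)) _ _
  have i2 : IntervalIntegrable (fun θ => a θ * (1 - w c)⁻¹) volume α β :=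
    a_int ham ha continuous_const _ _
  have e4 : ∫ θ in α..β, a θ * (∑ n ∈ Finset.range N, w θ ^ n) =
      ∫ θ in α..β, a θ * ((1 - w θ)⁻¹ - (1 - w c)⁻¹ - w θ ^ N * (1 - w θ)⁻¹) := by
    simp only [e3]
    rw [intervalIntegral.integral_add i1 i2, intervalIntegral.integral_mul_const, ha0, zero_mul,
      add_zero]
  have e5 : ‖∫ θ in α..β, a θ * ((1 - w θ)⁻¹ - (1 - w c)⁻¹ - w θ ^ N * (1 - w θ)⁻¹)‖ ≤
      (2 * (25 * ℓ / δ ^ 2 + r ^ N / (1 - r))) * |β - α| := by
    apply intervalIntegral.norm_integral_le_of_norm_le_const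
    intro θ hθ
    rw [uIoc_of_le hαβ.le] at hθ
    have hθc : |θ - c| ≤ ℓ / 2 := by
      rw [abs_le, hc, hℓ]
      constructor <;> linarith [hθ.1, hθ.2]
    have hψθ1 : |ψ - θ| ≤ δ + ℓ / 2 := by
      have : ψ - θ = (ψ - c) - (θ - c) := by ring
      rw [this]
      refine (abs_sub _ _).trans ?_
      linarith
    have hψθ2 : δ / 2 ≤ |ψ - θ| := by
      have h3 : δ ≤ |ψ - θ| + |θ - c| := by
        have : ψ - c = (ψ - θ) + (θ - c) := by ring
        rw [hδ, this]
        exact abs_add_le _ _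
      linarith
    have k1 : |ψ - θ| / 5 ≤ ‖1 - w θ‖ := ker_low (by linarith) hr.le
    have k2 : |ψ - c| / 5 ≤ ‖1 - w c‖ := ker_low (by linarith) hr.le
    have hn1 : 0 < ‖1 - w θ‖ := lt_of_lt_of_le hr1' (hw1 θ)
    have hn2 : 0 < ‖1 - w c‖ := lt_of_lt_of_le hr1' (hw1 c)
    have k3 : ‖(1 - w θ)⁻¹ - (1 - w c)⁻¹‖ ≤ 25 * ℓ / δ ^ 2 := by
      have e6 : (1 - w θ)⁻¹ - (1 - w c)⁻¹ = (w θ - w c) * ((1 - w θ)⁻¹ * (1 - w c)⁻¹) := by
        have := hw0 θ
        have := hw0 c
        field_simp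
        ring
      have e7 : ‖w θ - w c‖ ≤ ℓ / 2 := by
        have : w θ - w c = (r : ℂ) * Complex.exp (((ψ - c : ℝ) : ℂ) * I) *
            (Complex.exp (I * ((c - θ : ℝ) : ℂ)) - 1) := by
          simp only [hw]
          rw [mul_sub, mul_one, mul_assoc, ← Complex.exp_add]
          congr 3
          push_cast
          ring
        rw [this, norm_mul, norm_mul, Complex.norm_real, Real.norm_of_nonneg hr.le,
          Complex.norm_exp_ofReal_mul_I, mul_one]
        have h4 := Real.norm_exp_I_mul_ofReal_sub_one_le (x := c - θ)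
        have h5 : ‖c - θ‖ ≤ ℓ / 2 := by
          rw [Real.norm_eq_abs, abs_sub_comm]
          exact hθc
        calc r * ‖Complex.exp (I * ((c - θ : ℝ) : ℂ)) - 1‖ ≤ 1 * (ℓ / 2) := by
              gcongr
              exact h4.trans h5
          _ = _ := one_mul _
      rw [e6, norm_mul, norm_mul, norm_inv, norm_inv]
      have k4 : ‖1 - w θ‖⁻¹ ≤ 10 / δ := by
        rw [inv_le_comm₀ hn1 (by positivity), inv_div]
        linarith
      have k5 : ‖1 - w c‖⁻¹ ≤ 5 / δ := by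
        rw [inv_le_comm₀ hn2 (by positivity), inv_div]
        exact k2
      calc ‖w θ - w c‖ * (‖1 - w θ‖⁻¹ * ‖1 - w c‖⁻¹) ≤ ℓ / 2 * (10 / δ * (5 / δ)) := by gcongr
        _ = 25 * ℓ / δ ^ 2 := by field_simp; ring
    have k6 : ‖w θ ^ N * (1 - w θ)⁻¹‖ ≤ r ^ N / (1 - r) := by
      rw [norm_mul, norm_pow, hwn, norm_inv, div_eq_mul_inv]
      gcongr
      exact hw1 θ
    rw [norm_mul]
    have k7 : ‖(1 - w θ)⁻¹ - (1 - w c)⁻¹ - w θ ^ N * (1 - w θ)⁻¹‖ ≤
        25 * ℓ / δ ^ 2 + r ^ N / (1 - r) := (norm_sub_le _ _).trans (add_le_add k3 k6)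
    exact mul_le_mul (ha θ) k7 (norm_nonneg _) (by norm_num)
  rw [e1, e4, norm_mul]
  have e8 : ‖(2 * Real.pi : ℂ)⁻¹‖ = (2 * Real.pi)⁻¹ := by
    rw [norm_inv]
    congr 1
    rw [show (2 * Real.pi : ℂ) = ((2 * Real.pi : ℝ) : ℂ) by push_cast; rfl, Complex.norm_real,
      Real.norm_of_nonneg Real.two_pi_pos.le]
  rw [e8]
  have e9 : |β - α| = ℓ := abs_of_pos hℓ0
  rw [e9] at e5
  have e10 : (ψ - c) ^ 2 = δ ^ 2 := (sq_abs _).symm
  rw [e10]
  have hrN : 0 ≤ r ^ N / (1 - r) := by positivity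
  have hpi2 : (2 * Real.pi)⁻¹ ≤ 4 / 25 := by
    rw [inv_le_comm₀ Real.two_pi_pos (by norm_num)]
    norm_num
    have := Real.pi_gt_d2
    linarith
  calc (2 * Real.pi)⁻¹ * _ ≤ 4 / 25 * (2 * (25 * ℓ / δ ^ 2 + r ^ N / (1 - r)) * ℓ) := by gcongr
    _ = 8 * ℓ ^ 2 / δ ^ 2 + 8 / 25 * (ℓ * (r ^ N / (1 - r))) := by ring
    _ ≤ _ := by
      have : 0 ≤ ℓ * (r ^ N / (1 - r)) := by positivity
      linarith

end atom

end Pool.Agent.V113.KR
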