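import Pool.Agent.V113.KR.N

/-! The mean oscillation of dilates. -/

open MeasureTheory Set Filter Topology Complex
open scoped ComplexConjugate

namespace Pool.Agent.V113.KR

section atom
variable {a : ℝ → ℂ} {α β : ℝ}

lemma inv_sq_int {ℓ x y s : ℝ} (hxy : x ≤ y) (h : ∀ t ∈ Icc x y, t - s ≠ 0) :
    ∫ t in x..y, 8 * ℓ ^ 2 / (t - s) ^ 2 = 8 * ℓ ^ 2 * (1 / (x - s) - 1 / (y - s)) := by
  have h1 : ∀ t ∈ uIcc x y, HasDerivAt (fun t => -(8 * ℓ ^ 2) * (t - s)⁻¹) (8 * ℓ ^ 2 / (t - s) ^ 2) t := by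
    intro t ht
    rw [uIcc_of_le hxy] at ht
    have h2 : HasDerivAt (fun t => t - s) 1 t := (hasDerivAt_id t).sub_const s
    have h3 := (h2.inv (h t ht)).const_mul (-(8 * ℓ ^ 2))
    refine h3.congr_deriv ?_
    ring
  have hc : ContinuousOn (fun t => 8 * ℓ ^ 2 / (t - s) ^ 2) (uIcc x y) := by
    rw [uIcc_of_le hxy]
    apply ContinuousOn.div (by fun_prop) (by fun_prop)
    intro t ht
    exact pow_ne_zero 2 (h t ht)
  rw [intervalIntegral.integral_eq_sub_of_hasDerivAt h1 hc.intervalIntegrable]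
  ring

/-- the `L¹` bound for the projection of an atom -/
lemma atom_L1 (hαβ : α < β) (hβ : β ≤ α + 2 * Real.pi) (ham : Measurable a)
    (ha : ∀ θ, ‖a θ‖ ≤ 2) (ha0 : ∫ θ in α..β, a θ = 0) {r : ℝ} (hr : 0 < r) (hr1 : r < 1) (N : ℕ) :
    ∫ ψ in (0:ℝ)..(2 * Real.pi), ‖tp (fun n => An a α β n * r ^ n) N ψ‖ ≤
      19 * (β - α) + 2 * Real.pi * ((β - α) * (r ^ N / (1 - r))) := by
  set c := (α + β) / 2 with hc
  set ℓ := β - α with hℓ
  have hℓ0 : 0 < ℓ := by rw [hℓ]; linarith
  have hpi := Real.pi_gt_three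
  have hr1' : 0 < 1 - r := by linarith
  set η := ℓ * (r ^ N / (1 - r)) with hη
  have hη0 : 0 ≤ η := by positivity
  set G := tp (fun n => An a α β n * r ^ n) N with hG
  have hGc : Continuous G := tp_cont _ _
  have hGp : Function.Periodic G (2 * Real.pi) := tp_per _ _
  have hsq : ∫ ψ in (0:ℝ)..(2 * Real.pi), ‖G ψ‖ ^ 2 ≤ 4 * ℓ := by
    rw [hG, sq_int]
    refine le_trans ?_ (bessel hαβ hβ ham ha N)
    gcongr with n _
    rw [norm_mul, norm_pow, Complex.norm_real, Real.norm_of_nonneg hr.le]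
    exact mul_le_of_le_one_right (norm_nonneg _) (pow_le_one₀ hr.le hr1.le)
  have hper1 : ∫ ψ in (c - Real.pi)..(c + Real.pi), ‖G ψ‖ = ∫ ψ in (0:ℝ)..(2 * Real.pi), ‖G ψ‖ := by
    have := per_int (f := fun θ => ‖G θ‖) (fun θ => by simp only [hGp θ]) (c - Real.pi)
    rw [show c - Real.pi + 2 * Real.pi = c + Real.pi by ring] at this
    exact this
  have hper2 : ∫ ψ in (c - Real.pi)..(c + Real.pi), ‖G ψ‖ ^ 2 =
      ∫ ψ in (0:ℝ)..(2 * Real.pi), ‖G ψ‖ ^ 2 := by
    have := per_int (f := fun θ => ‖G θ‖ ^ 2) (fun θ => by simp only [hGp θ]) (c - Real.pi)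
    rw [show c - Real.pi + 2 * Real.pi = c + Real.pi by ring] at this
    exact this
  have hii : ∀ x y, IntervalIntegrable (fun ψ => ‖G ψ‖) volume x y := fun x y =>
    hGc.norm.intervalIntegrable x y
  have hii2 : ∀ x y, IntervalIntegrable (fun ψ => ‖G ψ‖ ^ 2) volume x y := fun x y =>
    (hGc.norm.pow 2).intervalIntegrable x y
  have hnear : ∀ x y, x ≤ y → ∫ ψ in x..y, ‖G ψ‖ ≤ ((∫ ψ in x..y, ‖G ψ‖ ^ 2) + (y - x)) / 2 := by
    intro x y hxy
    have h1 : ∫ ψ in x..y, ‖G ψ‖ ≤ ∫ ψ in x..y, (‖G ψ‖ ^ 2 + 1) / 2 := by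
      apply intervalIntegral.integral_mono hxy (hii x y)
        (((hii2 x y).add intervalIntegrable_const).div_const 2)
      intro ψ
      simp only
      nlinarith [sq_nonneg (‖G ψ‖ - 1)]
    rw [intervalIntegral.integral_div, intervalIntegral.integral_add (hii2 x y)
      intervalIntegrable_const, intervalIntegral.integral_const, smul_eq_mul, mul_one] at h1
    exact h1
  rw [← hper1]
  rcases le_or_gt Real.pi ℓ with h | h
  · have h1 := hnear (c - Real.pi) (c + Real.pi) (by linarith)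
    rw [hper2] at h1
    have h2 : 0 ≤ 2 * Real.pi * η := by positivity
    linarith
  · have hsplit : ∫ ψ in (c - Real.pi)..(c + Real.pi), ‖G ψ‖ =
        (∫ ψ in (c - Real.pi)..(c - ℓ), ‖G ψ‖) + (∫ ψ in (c - ℓ)..(c + ℓ), ‖G ψ‖) +
          ∫ ψ in (c + ℓ)..(c + Real.pi), ‖G ψ‖ := by
      rw [intervalIntegral.integral_add_adjacent_intervals (hii _ _) (hii _ _),
        intervalIntegral.integral_add_adjacent_intervals (hii _ _) (hii _ _)]
    have m1 : ∫ ψ in (c - ℓ)..(c + ℓ), ‖G ψ‖ ≤ 3 * ℓ := by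
      have h1 := hnear (c - ℓ) (c + ℓ) (by linarith)
      have h2 : ∫ ψ in (c - ℓ)..(c + ℓ), ‖G ψ‖ ^ 2 ≤
          ∫ ψ in (c - Real.pi)..(c + Real.pi), ‖G ψ‖ ^ 2 := by
        apply intervalIntegral.integral_mono_interval (by linarith) (by linarith) (by linarith)
        · exact ae_of_all _ fun θ => by positivity
        · exact hii2 _ _
      rw [hper2] at h2
      linarith
    have hfar : ∀ x y, x ≤ y → (∀ t ∈ Icc x y, ℓ ≤ |t - c| ∧ |t - c| ≤ Real.pi) →
        ∫ ψ in x..y, ‖G ψ‖ ≤ 8 * ℓ ^ 2 * (1 / (x - c) - 1 / (y - c)) + η * (y - x) := by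
      intro x y hxy hh
      have hne : ∀ t ∈ Icc x y, t - c ≠ 0 := by
        intro t ht h0
        have := (hh t ht).1
        rw [h0, abs_zero] at this
        linarith
      have hcf : ContinuousOn (fun t => 8 * ℓ ^ 2 / (t - c) ^ 2 + η) (Icc x y) := by
        apply ContinuousOn.add _ continuousOn_const
        apply ContinuousOn.div (by fun_prop) (by fun_prop)
        intro t ht
        exact pow_ne_zero 2 (hne t ht)
      have hcf' : ContinuousOn (fun t => 8 * ℓ ^ 2 / (t - c) ^ 2) (uIcc x y) := by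
        rw [uIcc_of_le hxy]
        apply ContinuousOn.div (by fun_prop) (by fun_prop)
        intro t ht
        exact pow_ne_zero 2 (hne t ht)
      have hpt : ∀ t ∈ Icc x y, ‖G t‖ ≤ 8 * ℓ ^ 2 / (t - c) ^ 2 + η := by
        intro t ht
        obtain ⟨h1, h2⟩ := hh t ht
        rcases h1.eq_or_lt with h3 | h3
        · -- by continuity from larger distances
          have hlim : Tendsto (fun s : ℝ => c + s * (t - c)) (𝓝[>] 1) (𝓝 (c + 1 * (t - c))) := by
            apply Tendsto.mono_left _ nhdsWithin_le_nhds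
            exact (continuous_const.add (continuous_id.mul continuous_const)).tendsto 1
          rw [one_mul, add_sub_cancel] at hlim
          have hl1 := (hGc.norm.tendsto t).comp hlim
          have hl2 : Tendsto (fun s : ℝ => 8 * ℓ ^ 2 / (c + s * (t - c) - c) ^ 2 + η) (𝓝[>] 1)
              (𝓝 (8 * ℓ ^ 2 / (t - c) ^ 2 + η)) := by
            apply Tendsto.add_const
            apply Tendsto.div tendsto_const_nhds _ (pow_ne_zero 2 (hne t ht))
            exact (hlim.sub_const c).pow 2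
          refine le_of_tendsto_of_tendsto hl1 hl2 ?_
          have hmem : Ioo (1:ℝ) (Real.pi / ℓ) ∈ 𝓝[>] (1:ℝ) := Ioo_mem_nhdsGT (by
            rw [lt_div_iff₀ hℓ0]
            linarith)
          filter_upwards [hmem] with s hs
          have hs0 : 0 < s := by linarith [hs.1]
          have hd : |c + s * (t - c) - c| = s * ℓ := by
            rw [add_sub_cancel_left, abs_mul, abs_of_pos hs0, ← h3]
          have hs2 : s * ℓ < Real.pi := by
            have := hs.2
            rwa [lt_div_iff₀ hℓ0] at this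
          exact far hαβ h ham ha ha0 hr hr1 N (by rw [← hc, hd]; nlinarith [hs.1])
            (by rw [← hc, hd]; exact hs2.le)
        · exact far hαβ h ham ha ha0 hr hr1 N h3 h2
      have h1 : ∫ ψ in x..y, ‖G ψ‖ ≤ ∫ ψ in x..y, (8 * ℓ ^ 2 / (ψ - c) ^ 2 + η) := by
        apply intervalIntegral.integral_mono_on hxy (hii x y) _ hpt
        exact (hcf'.intervalIntegrable).add intervalIntegrable_const
      rw [intervalIntegral.integral_add hcf'.intervalIntegrable intervalIntegrable_const,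
        inv_sq_int hxy hne, intervalIntegral.integral_const, smul_eq_mul] at h1
      linarith
    have m2 : ∫ ψ in (c + ℓ)..(c + Real.pi), ‖G ψ‖ ≤ 8 * ℓ + Real.pi * η := by
      refine (hfar (c + ℓ) (c + Real.pi) (by linarith) ?_).trans ?_
      · intro t ht
        rw [abs_of_nonneg (by linarith [ht.1])]
        constructor <;> linarith [ht.1, ht.2]
      · rw [show c + ℓ - c = ℓ by ring, show c + Real.pi - c = Real.pi by ring]
        have h1 : 8 * ℓ ^ 2 * (1 / ℓ - 1 / Real.pi) ≤ 8 * ℓ := by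
          have h2 : 0 ≤ 8 * ℓ ^ 2 * (1 / Real.pi) := by positivity
          have h3 : 8 * ℓ ^ 2 * (1 / ℓ) = 8 * ℓ := by field_simp
          rw [mul_sub, h3]
          linarith
        nlinarith
    have m3 : ∫ ψ in (c - Real.pi)..(c - ℓ), ‖G ψ‖ ≤ 8 * ℓ + Real.pi * η := by
      refine (hfar (c - Real.pi) (c - ℓ) (by linarith) ?_).trans ?_
      · intro t ht
        rw [abs_of_nonpos (by linarith [ht.2])]
        constructor <;> linarith [ht.1, ht.2]
      · rw [show c - ℓ - c = -ℓ by ring, show c - Real.pi - c = -Real.pi by ring]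
        have h1 : 8 * ℓ ^ 2 * (1 / (-Real.pi) - 1 / (-ℓ)) ≤ 8 * ℓ := by
          have h2 : 0 ≤ 8 * ℓ ^ 2 * (1 / Real.pi) := by positivity
          have h3 : 8 * ℓ ^ 2 * (1 / ℓ) = 8 * ℓ := by field_simp
          rw [mul_sub, one_div_neg_eq_neg_one_div, one_div_neg_eq_neg_one_div]
          linarith
        nlinarith
    rw [hsplit]
    linarith

/-- the mean oscillation -/
lemma osc {κ : ℕ → ℂ} {r C1 : ℝ} (hr : 0 < r) (hr1 : r < 1) (hC1 : 0 ≤ C1)
    (HB : ∀ (c : ℕ → ℂ) (N : ℕ), ‖∑ n ∈ Finset.range N, c n * conj (κ n)‖ ≤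
      C1 * ∫ θ in (0:ℝ)..(2 * Real.pi), ‖tp c N θ‖)
    {K : ℝ → ℂ} (hKc : Continuous K)
    (hK : ∀ ε > 0, ∀ᶠ N in atTop, ∀ θ, ‖K θ - tp (fun n => κ n * r ^ n) N θ‖ ≤ ε)
    (hαβ : α < β) (hβ : β ≤ α + 2 * Real.pi) :
    ∫ θ in α..β, ‖K θ - ((β - α)⁻¹ : ℝ) • ∫ t in α..β, K t‖ ≤
      2 * Real.pi * C1 * (19 * (β - α)) := by
  set ℓ := β - α with hℓ
  have hℓ0 : 0 < ℓ := by rw [hℓ]; linarith
  set μ : ℂ := (ℓ⁻¹ : ℝ) • ∫ t in α..β, K t with hμ
  set s : ℝ → ℂ := fun θ => (K θ - μ) / (‖K θ - μ‖ : ℂ) with hs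
  have hsm : Measurable s := by
    simp only [hs]
    exact ((hKc.sub continuous_const).measurable).div
      (Complex.measurable_ofReal.comp (hKc.sub continuous_const).norm.measurable)
  have hs1 : ∀ θ, ‖s θ‖ ≤ 1 := by
    intro θ
    simp only [hs]
    rw [norm_div, Complex.norm_real, norm_norm]
    exact div_self_le_one _
  have hsi : IntervalIntegrable s volume α β := by
    have h0 : IntervalIntegrable (fun _ : ℝ => (1:ℝ)) volume α β := intervalIntegrable_const
    exact h0.mono_fun' hsm.aestronglyMeasurable (ae_of_all _ hs1)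
  set ms : ℂ := (ℓ⁻¹ : ℝ) • ∫ t in α..β, s t with hms
  have hms1 : ‖ms‖ ≤ 1 := by
    rw [hms, norm_smul, Real.norm_of_nonneg (by positivity)]
    have h1 : ‖∫ t in α..β, s t‖ ≤ 1 * |β - α| :=
      intervalIntegral.norm_integral_le_of_norm_le_const fun θ _ => hs1 θ
    rw [one_mul, abs_of_pos (by linarith), ← hℓ] at h1
    rw [inv_mul_le_iff₀ hℓ0, mul_one]
    exact h1
  set a : ℝ → ℂ := fun θ => s θ - ms with ha
  have ham : Measurable a := hsm.sub_const ms
  have ha2 : ∀ θ, ‖a θ‖ ≤ 2 := by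
    intro θ
    refine (norm_sub_le _ _).trans ?_
    linarith [hs1 θ]
  have hmean : ∀ f : ℝ → ℂ, IntervalIntegrable f volume α β →
      ∫ θ in α..β, (f θ - (ℓ⁻¹ : ℝ) • ∫ t in α..β, f t) = 0 := by
    intro f hf
    rw [intervalIntegral.integral_sub hf intervalIntegrable_const, intervalIntegral.integral_const,
      smul_smul, ← hℓ, mul_inv_cancel₀ hℓ0.ne', one_smul, sub_self]
  have ha0 : ∫ θ in α..β, a θ = 0 := hmean s hsi
  -- the duality identity
  have hid : ∫ θ in α..β, a θ * conj (K θ) = ((∫ θ in α..β, ‖K θ - μ‖ : ℝ) : ℂ) := by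
    have e1 : ∀ θ, a θ * conj (K θ) = (‖K θ - μ‖ : ℂ) - ms * conj (K θ - μ) + conj μ * a θ := by
      intro θ
      have e2 : s θ * conj (K θ - μ) = (‖K θ - μ‖ : ℂ) := by
        simp only [hs]
        by_cases h0 : K θ - μ = 0
        · rw [h0]
          simp
        · have h1 : (‖K θ - μ‖ : ℂ) ≠ 0 := by
            exact_mod_cast (norm_pos_iff.mpr h0).ne'
          rw [div_mul_eq_mul_div, Complex.mul_conj', div_eq_iff h1]
          ring
      have e3 : conj (K θ) = conj (K θ - μ) + conj μ := by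
        rw [map_sub]
        ring
      rw [e3, ← e2]
      simp only [ha]
      ring
    simp only [e1]
    have i1 : IntervalIntegrable (fun θ => (‖K θ - μ‖ : ℂ)) volume α β := by
      apply Continuous.intervalIntegrable
      exact Complex.continuous_ofReal.comp (hKc.sub continuous_const).norm
    have i2 : IntervalIntegrable (fun θ => ms * conj (K θ - μ)) volume α β := by
      apply Continuous.intervalIntegrable
      exact continuous_const.mul (Complex.continuous_conj.comp (hKc.sub continuous_const))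
    have i3 : IntervalIntegrable (fun θ => conj μ * a θ) volume α β :=
      (hsi.sub intervalIntegrable_const).const_mul _
    rw [intervalIntegral.integral_add (i1.sub i2) i3, intervalIntegral.integral_sub i1 i2,
      intervalIntegral.integral_const_mul, intervalIntegral.integral_const_mul, ha0,
      intervalIntegral.intervalIntegral_conj, hmean K (hKc.intervalIntegrable _ _),
      intervalIntegral.integral_ofReal]
    simp
  have hmain : ∀ ε > 0, ∫ θ in α..β, ‖K θ - μ‖ ≤ 2 * Real.pi * C1 * (19 * ℓ) + ε := by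
    intro ε hε
    have hlim : Tendsto (fun N : ℕ => 2 * Real.pi * C1 * (2 * Real.pi * (ℓ * (r ^ N / (1 - r)))))
        atTop (𝓝 (2 * Real.pi * C1 * (2 * Real.pi * (ℓ * (0 / (1 - r)))))) := by
      have := tendsto_pow_atTop_nhds_zero_of_lt_one hr.le hr1
      exact (((this.div_const _).const_mul _).const_mul _).const_mul _
    rw [zero_div, mul_zero, mul_zero, mul_zero] at hlim
    have hev := hlim.eventually_lt_const (show (0:ℝ) < ε / 2 by positivity)
    obtain ⟨N, hN1, hN2⟩ := (hev.and (hK (ε / (4 * ℓ)) (by positivity))).exists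
    set T := tp (fun n => κ n * r ^ n) N with hT
    have hTc : Continuous T := tp_cont _ _
    have e1 : ∫ θ in α..β, a θ * conj (K θ) =
        (∫ θ in α..β, a θ * conj (K θ - T θ)) + ∫ θ in α..β, a θ * conj (T θ) := by
      have i1 : IntervalIntegrable (fun θ => a θ * conj (K θ - T θ)) volume α β :=
        a_int ham ha2 (Complex.continuous_conj.comp (hKc.sub hTc)) _ _
      have i2 : IntervalIntegrable (fun θ => a θ * conj (T θ)) volume α β :=
        a_int ham ha2 (Complex.continuous_conj.comp hTc) _ _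
      rw [← intervalIntegral.integral_add i1 i2]
      congr 1
      funext θ
      rw [map_sub]
      ring
    have e2 : ‖∫ θ in α..β, a θ * conj (K θ - T θ)‖ ≤ ε / 2 := by
      have h1 : ‖∫ θ in α..β, a θ * conj (K θ - T θ)‖ ≤ (2 * (ε / (4 * ℓ))) * |β - α| := by
        apply intervalIntegral.norm_integral_le_of_norm_le_const
        intro θ _
        rw [norm_mul, RCLike.norm_conj]
        exact mul_le_mul (ha2 θ) (hN2 θ) (norm_nonneg _) (by norm_num)
      rw [abs_of_pos (by linarith), ← hℓ] at h1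
      refine h1.trans (le_of_eq ?_)
      field_simp
      ring
    have e3 : ‖∫ θ in α..β, a θ * conj (T θ)‖ ≤
        2 * Real.pi * C1 * (19 * ℓ + 2 * Real.pi * (ℓ * (r ^ N / (1 - r)))) := by
      rw [hT, atom_pair ham ha2, norm_mul]
      have h1 : ‖(2 * Real.pi : ℂ)‖ = 2 * Real.pi := by
        rw [show (2 * Real.pi : ℂ) = ((2 * Real.pi : ℝ) : ℂ) by push_cast; rfl, Complex.norm_real,
          Real.norm_of_nonneg Real.two_pi_pos.le]
      have h2 : ∑ n ∈ Finset.range N, An a α β n * conj (κ n * (r : ℂ) ^ n) =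
          ∑ n ∈ Finset.range N, (fun n => An a α β n * (r : ℂ) ^ n) n * conj (κ n) := by
        apply Finset.sum_congr rfl
        intro n _
        rw [map_mul, map_pow, Complex.conj_ofReal]
        ring
      rw [h1, h2]
      have h3 := HB (fun n => An a α β n * (r : ℂ) ^ n) N
      have h4 := atom_L1 hαβ hβ ham ha2 ha0 hr hr1 N
      calc 2 * Real.pi * ‖∑ n ∈ Finset.range N, (fun n => An a α β n * (r : ℂ) ^ n) n * conj (κ n)‖
          ≤ 2 * Real.pi * (C1 * (19 * ℓ + 2 * Real.pi * (ℓ * (r ^ N / (1 - r))))) := by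
            apply mul_le_mul_of_nonneg_left _ Real.two_pi_pos.le
            exact h3.trans (mul_le_mul_of_nonneg_left h4 hC1)
        _ = _ := by ring
    have e4 : ∫ θ in α..β, ‖K θ - μ‖ ≤ ‖∫ θ in α..β, a θ * conj (K θ)‖ := by
      rw [hid, Complex.norm_real]
      exact le_abs_self _
    rw [e1] at e4
    have e5 := e4.trans (norm_add_le _ _)
    nlinarith
  exact le_of_forall_pos_le_add hmain

end atom

end Pool.Agent.V113.KR
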