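import Pool.Agent.V113.KR.N

/-! The boundary function of a power series with square summable coefficients. -/

open MeasureTheory Set Filter Topology Complex
open scoped ComplexConjugate ENNReal

namespace Pool.Agent.V113.KR

/-- the circle -/
abbrev TT := AddCircle (2 * Real.pi)

instance factTT : Fact (0 < 2 * Real.pi) := ⟨Real.two_pi_pos⟩

lemma l2_sq (w : Lp ℂ 2 (volume : Measure TT)) : ‖w‖ ^ 2 = ∫ x, ‖w x‖ ^ 2 := by
  have h1 : (inner ℂ w w : ℂ) = ∫ a, inner ℂ (w a) (w a) := MeasureTheory.L2.inner_def w w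
  rw [inner_self_eq_norm_sq_to_K] at h1
  have h2 : ∀ a, (inner ℂ (w a) (w a) : ℂ) = ((‖w a‖ ^ 2 : ℝ) : ℂ) := by
    intro a
    rw [inner_self_eq_norm_sq_to_K]
    push_cast
    rfl
  simp only [h2] at h1
  have h4 := integral_ofReal (𝕜 := ℂ) (μ := (volume : Measure TT)) (f := fun a : TT => ‖w a‖ ^ 2)
  have h5 := h1.trans h4
  have h3 : ((‖w‖ ^ 2 : ℝ) : ℂ) = ((∫ x, ‖w x‖ ^ 2 : ℝ) : ℂ) := by
    refine Eq.trans ?_ h5
    push_cast
    rfl
  exact_mod_cast h3

/-- trigonometric polynomial on the circle -/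
noncomputable def uu (κ : ℕ → ℂ) (N : ℕ) : C(TT, ℂ) :=
  ∑ n ∈ Finset.range N, κ n • (fourier (n : ℤ) : C(TT, ℂ))

lemma uu_coe (κ : ℕ → ℂ) (N : ℕ) (θ : ℝ) : uu κ N (θ : TT) = tp κ N θ := by
  unfold uu tp
  rw [ContinuousMap.coe_sum, Finset.sum_apply]
  apply Finset.sum_congr rfl
  intro j _
  rw [ContinuousMap.coe_smul, Pi.smul_apply, smul_eq_mul, fourier_coe_apply]
  congr 2
  have : (Real.pi : ℂ) ≠ 0 := by exact_mod_cast Real.pi_pos.ne'
  push_cast
  field_simp

/-- the class of a continuous function -/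
noncomputable def UU (f : C(TT, ℂ)) : Lp ℂ 2 (volume : Measure TT) :=
  ContinuousMap.toLp 2 volume ℂ f

lemma UU_sub (f g : C(TT, ℂ)) : UU f - UU g = UU (f - g) := by
  unfold UU
  rw [map_sub]

lemma UU_sq (f : C(TT, ℂ)) : ‖UU f‖ ^ 2 = ∫ θ in (0:ℝ)..(2 * Real.pi), ‖f (θ : TT)‖ ^ 2 := by
  rw [l2_sq]
  have h1 := AddCircle.intervalIntegral_preimage (2 * Real.pi) 0 (fun x : TT => ‖f x‖ ^ 2)
  rw [zero_add] at h1
  rw [h1]
  apply integral_congr_ae
  filter_upwards [ContinuousMap.coeFn_toLp (p := 2) (𝕜 := ℂ) volume f] with x hx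
  unfold UU
  rw [hx]

lemma tp_sub_sq (κ : ℕ → ℂ) {M N : ℕ} (h : M ≤ N) :
    ∫ θ in (0:ℝ)..(2 * Real.pi), ‖tp κ N θ - tp κ M θ‖ ^ 2 =
      2 * Real.pi * (∑ n ∈ Finset.range N, ‖κ n‖ ^ 2 - ∑ n ∈ Finset.range M, ‖κ n‖ ^ 2) := by
  set c : ℕ → ℂ := fun n => if n < M then 0 else κ n with hc
  have h1 : ∀ θ, tp κ N θ - tp κ M θ = tp c N θ := by
    intro θ
    unfold tp
    rw [← Finset.sum_range_add_sum_Ico _ h, add_sub_cancel_left,
      ← Finset.sum_range_add_sum_Ico (fun j => c j * Complex.exp (j * θ * I)) h]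
    rw [Finset.sum_eq_zero (s := Finset.range M), zero_add]
    · apply Finset.sum_congr rfl
      intro n hn
      simp only [hc]
      rw [if_neg (by have := (Finset.mem_Ico.mp hn).1; omega)]
    · intro n hn
      simp only [hc]
      rw [if_pos (Finset.mem_range.mp hn), zero_mul]
  simp only [h1]
  rw [sq_int, ← Finset.sum_range_add_sum_Ico (fun n => ‖κ n‖ ^ 2) h, add_sub_cancel_left,
    ← Finset.sum_range_add_sum_Ico (fun n => ‖c n‖ ^ 2) h]
  congr 1
  rw [Finset.sum_eq_zero (s := Finset.range M), zero_add]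
  · apply Finset.sum_congr rfl
    intro n hn
    simp only [hc]
    rw [if_neg (by have := (Finset.mem_Ico.mp hn).1; omega)]
  · intro n hn
    simp only [hc]
    rw [if_pos (Finset.mem_range.mp hn)]
    simp

lemma exists_bdry {κ : ℕ → ℂ} (h : Summable fun n => ‖κ n‖ ^ 2) :
    ∃ b : ℝ → ℂ, Measurable b ∧ Function.Periodic b (2 * Real.pi) ∧
      (∀ x, IntervalIntegrable (fun θ => ‖b θ‖ ^ 2) volume x (x + 2 * Real.pi)) ∧
      Tendsto (fun N => ∫ θ in (0:ℝ)..(2 * Real.pi), ‖tp κ N θ - b θ‖ ^ 2) atTop (𝓝 0) := by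
  set s : ℕ → ℝ := fun N => ∑ n ∈ Finset.range N, ‖κ n‖ ^ 2 with hs
  have hsc : CauchySeq s := h.hasSum.tendsto_sum_nat.cauchySeq
  have hpi := Real.two_pi_pos
  have hdist : ∀ M N, M ≤ N → ‖UU (uu κ N) - UU (uu κ M)‖ ^ 2 = 2 * Real.pi * (s N - s M) := by
    intro M N hMN
    rw [UU_sub, UU_sq, ← tp_sub_sq κ hMN]
    congr 1
    funext θ
    rw [ContinuousMap.sub_apply, uu_coe, uu_coe]
  have hC : CauchySeq fun N => UU (uu κ N) := by
    rw [Metric.cauchySeq_iff]
    intro ε hε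
    obtain ⟨N0, hN0⟩ := Metric.cauchySeq_iff.mp hsc (ε ^ 2 / (2 * Real.pi)) (by positivity)
    have key : ∀ M N, N0 ≤ M → M ≤ N → ‖UU (uu κ N) - UU (uu κ M)‖ < ε := by
      intro M N h1 h2
      have h3 := hN0 N (h1.trans h2) M h1
      rw [Real.dist_eq] at h3
      have h4 := lt_of_le_of_lt (le_abs_self _) h3
      rw [lt_div_iff₀ hpi] at h4
      have h5 := hdist M N h2
      have h6 : ‖UU (uu κ N) - UU (uu κ M)‖ ^ 2 < ε ^ 2 := by
        rw [h5]
        linarith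
      exact lt_of_pow_lt_pow_left₀ 2 hε.le h6
    refine ⟨N0, fun M hM N hN => ?_⟩
    rw [dist_eq_norm]
    rcases le_total M N with h1 | h1
    · rw [norm_sub_rev]
      exact key M N hM h1
    · exact key N M hN h1
  obtain ⟨w, hw⟩ := cauchySeq_tendsto_of_complete hC
  have hwm : Measurable (w : TT → ℂ) := (Lp.stronglyMeasurable w).measurable
  have hwi : Integrable (fun x : TT => ‖w x‖ ^ 2) := by
    have h1 := (Lp.memLp w).integrable_norm_pow (by norm_num : (2:ℕ) ≠ 0)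
    exact h1
  refine ⟨fun θ => w (θ : TT), hwm.comp (AddCircle.measurable_mk' ), ?_, ?_, ?_⟩
  · intro θ
    simp only
    rw [AddCircle.coe_add_period]
  · intro x
    rw [intervalIntegrable_iff_integrableOn_Ioc_of_le (by linarith)]
    exact (AddCircle.measurePreserving_mk (2 * Real.pi) x).integrable_comp_of_integrable hwi
  · have h1 : Tendsto (fun N => ‖UU (uu κ N) - w‖ ^ 2) atTop (𝓝 0) := by
      have h2 := tendsto_iff_norm_sub_tendsto_zero.mp hw
      have h3 := h2.pow 2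
      simpa using h3
    refine h1.congr fun N => ?_
    rw [l2_sq]
    have h4 := AddCircle.intervalIntegral_preimage (2 * Real.pi) 0
      (fun x : TT => ‖uu κ N x - w x‖ ^ 2)
    rw [zero_add] at h4
    simp only [uu_coe] at h4
    rw [h4]
    apply integral_congr_ae
    filter_upwards [ContinuousMap.coeFn_toLp (p := 2) (𝕜 := ℂ) volume (uu κ N),
      Lp.coeFn_sub (UU (uu κ N)) w] with x hx hx2
    rw [hx2, Pi.sub_apply]
    unfold UU
    rw [hx]

end Pool.Agent.V113.KR
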