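import Pool.Agent.V113.KR.M
import Pool.Agent.V113.KR.O
import Pool.Agent.V113.KR.P

/-! Kernels of bounded extremal functions are in BMOA. -/

open MeasureTheory Set Filter Topology Complex Polynomial
open scoped ComplexConjugate

namespace Pool.Agent.V113.KR

open Pool.Agent.H713R2 (tc)

/-- the functional bound on `H^1` -/
theorem h1_bound {p M : ℝ} (hp : 1 < p) {F k : ℂ → ℂ}
    (hF : DifferentiableOn ℂ F DD) (hk : DifferentiableOn ℂ k DD)
    (hFp : Integrable (fun z => ‖F z‖ ^ p) sg) (hF1 : ∫ z, ‖F z‖ ^ p ∂sg = 1)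
    (hkq : Integrable (fun z => ‖k z‖ ^ (p / (p - 1))) sg)
    (hext : ∀ g : ℂ → ℂ, DifferentiableOn ℂ g DD → Integrable (fun z => ‖g z‖ ^ p) sg →
      ∫ z, ‖g z‖ ^ p ∂sg = 1 →
      (∫ z, g z * conj (k z) ∂sg).re ≤ (∫ z, F z * conj (k z) ∂sg).re)
    (hM : ∀ z ∈ DD, ‖F z‖ ≤ M) :
    ∃ C1 : ℝ, 0 ≤ C1 ∧ ∀ (c : ℕ → ℂ) (N : ℕ), ‖∑ n ∈ Finset.range N, c n * conj (tc k n)‖ ≤
      C1 * ∫ θ in (0:ℝ)..(2 * Real.pi), ‖tp c N θ‖ := by
  have hkm := sg_meas hk.continuousOn
  have ik : Integrable k sg := by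
    refine Integrable.mono' (hkq.add (integrable_const (1:ℝ))) hkm (ae_of_all _ fun z => ?_)
    simp only [Pi.add_apply]
    rcases le_total ‖k z‖ 1 with h | h
    · have : 0 ≤ ‖k z‖ ^ (p / (p - 1)) := by positivity
      linarith
    · have h2 : ‖k z‖ ^ (1:ℝ) ≤ ‖k z‖ ^ (p / (p - 1)) := by
        apply Real.rpow_le_rpow_of_exponent_le h
        rw [le_div_iff₀ (by linarith)]
        linarith
      rw [Real.rpow_one] at h2
      linarith
  have hM0 : 0 ≤ M := (norm_nonneg _).trans (hM 0 (Metric.mem_ball_self one_pos))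
  set D0 : ℝ := |(∫ z, F z * conj (k z) ∂sg).re| * ((Real.pi)⁻¹ * Cst2 p M) with hD0
  have hκ : 0 < min ((p - 1) / 2) 1 := lt_min (by linarith) one_pos
  have hC2 : 0 ≤ Cst2 p M := by
    unfold Cst2
    have : 0 < (p - 1) / 2 := by linarith
    positivity
  have hD00 : 0 ≤ D0 := by positivity
  -- the bound for polynomials, not yet homogeneous
  have HB : ∀ P : ℂ[X], ‖∑ n ∈ P.support, P.coeff n * conj (tc k n)‖ ≤
      D0 * (avg (fun z => ‖P.eval z‖) 0 + 1) := by
    intro P
    rw [← poly_pair hk ik P]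
    have hPd : Differentiable ℂ fun z => P.eval z := P.differentiable
    have hgd : DifferentiableOn ℂ (fun z => P.eval z + D1 (fun z => P.eval z) z) DD :=
      hPd.differentiableOn.add (D1_diff hPd.differentiableOn)
    have hgc : Continuous (fun z => P.eval z + D1 (fun z => P.eval z) z) := by
      unfold D1
      simp only [Polynomial.deriv]
      exact P.continuous.add (continuous_id.mul P.derivative.continuous)
    obtain ⟨Bb, hBb⟩ := (isCompact_closedBall (0:ℂ) 1).exists_bound_of_continuousOn hgc.continuousOn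
    rw [extremal_rel hp hF hk hFp hF1 hkq hext hgd
      (fun z hz => hBb z (Metric.ball_subset_closedBall hz)), norm_mul, Complex.norm_real,
      Real.norm_eq_abs, hD0, mul_assoc]
    gcongr
    rw [sg_int, norm_smul, norm_inv, Real.norm_of_nonneg Real.pi_pos.le, mul_assoc]
    gcongr
    exact disc_bound2 hF hPd hp (sg_integrable.mp hFp) hM
  have HB2 : ∀ (c : ℕ → ℂ) (N : ℕ), ‖∑ n ∈ Finset.range N, c n * conj (tc k n)‖ ≤
      D0 * ((2 * Real.pi)⁻¹ * (∫ θ in (0:ℝ)..(2 * Real.pi), ‖tp c N θ‖) + 1) := by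
    intro c N
    set P : ℂ[X] := ∑ n ∈ Finset.range N, Polynomial.monomial n (c n) with hP
    have hPe : ∀ z, P.eval z = ∑ n ∈ Finset.range N, c n * z ^ n := by
      intro z
      rw [hP, Polynomial.eval_finsetSum]
      apply Finset.sum_congr rfl
      intro n _
      rw [Polynomial.eval_monomial]
    have hPc : ∀ n, P.coeff n = if n < N then c n else 0 := by
      intro n
      rw [hP, Polynomial.finsetSum_coeff]
      simp only [Polynomial.coeff_monomial]
      rw [Finset.sum_ite_eq' (Finset.range N) n]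
      simp [Finset.mem_range]
    have hPt : ∀ θ : ℝ, P.eval (pt 0 θ) = tp c N θ := by
      intro θ
      rw [hPe]
      unfold tp pt
      apply Finset.sum_congr rfl
      intro j _
      rw [← Complex.exp_nat_mul]
      congr 2
      push_cast
      ring
    have hsum : ∑ n ∈ P.support, P.coeff n * conj (tc k n) =
        ∑ n ∈ Finset.range N, c n * conj (tc k n) := by
      have h1 : P.support ⊆ Finset.range N := by
        intro n hn
        rw [Finset.mem_range]
        by_contra h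
        rw [Polynomial.mem_support_iff, hPc, if_neg h] at hn
        exact hn rfl
      rw [Finset.sum_subset h1]
      · apply Finset.sum_congr rfl
        intro n hn
        rw [hPc, if_pos (Finset.mem_range.mp hn)]
      · intro n _ hn
        rw [Polynomial.notMem_support_iff.mp hn, zero_mul]
    have h1 := HB P
    rw [hsum] at h1
    unfold avg at h1
    simp only [hPt, smul_eq_mul] at h1
    exact h1
  refine ⟨D0 * (2 * Real.pi)⁻¹, by positivity, fun c N => ?_⟩
  set A : ℝ := ∫ θ in (0:ℝ)..(2 * Real.pi), ‖tp c N θ‖ with hA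
  apply le_of_forall_pos_le_add
  intro δ hδ
  set lam : ℝ := (D0 + 1) / δ with hlam
  have hlam0 : 0 < lam := by positivity
  have h1 := HB2 (fun n => lam * c n) N
  have e1 : ∑ n ∈ Finset.range N, (fun n => (lam : ℂ) * c n) n * conj (tc k n) =
      lam * ∑ n ∈ Finset.range N, c n * conj (tc k n) := by
    rw [Finset.mul_sum]
    apply Finset.sum_congr rfl
    intro n _
    ring
  have e2 : ∀ θ, ‖tp (fun n => (lam : ℂ) * c n) N θ‖ = lam * ‖tp c N θ‖ := by
    intro θ
    have : tp (fun n => (lam : ℂ) * c n) N θ = lam * tp c N θ := by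
      unfold tp
      rw [Finset.mul_sum]
      apply Finset.sum_congr rfl
      intro n _
      ring
    rw [this, norm_mul, Complex.norm_real, Real.norm_of_nonneg hlam0.le]
  rw [e1, norm_mul, Complex.norm_real, Real.norm_of_nonneg hlam0.le] at h1
  simp only [e2] at h1
  rw [intervalIntegral.integral_const_mul, ← hA] at h1
  have h2 : ‖∑ n ∈ Finset.range N, c n * conj (tc k n)‖ ≤
      D0 * (2 * Real.pi)⁻¹ * A + D0 / lam := by
    have h3 : lam * ‖∑ n ∈ Finset.range N, c n * conj (tc k n)‖ ≤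
        lam * (D0 * (2 * Real.pi)⁻¹ * A + D0 / lam) := by
      refine h1.trans (le_of_eq ?_)
      field_simp
    exact le_of_mul_le_mul_left h3 hlam0
  have h3 : D0 / lam ≤ δ := by
    rw [hlam, div_div_eq_mul_div, div_le_iff₀ (by positivity)]
    nlinarith
  linarith

/-- square summability from a bound for the means -/
lemma sq_summable {κ : ℕ → ℂ} {B0 : ℝ}
    (h : ∀ N, (2 * Real.pi)⁻¹ * ∫ θ in (0:ℝ)..(2 * Real.pi), ‖tp κ N θ‖ ^ (2:ℝ) ≤ B0) :
    Summable fun n => ‖κ n‖ ^ 2 := by
  apply summable_of_sum_range_le (c := B0) (fun n => by positivity)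
  intro N
  have h1 := h N
  have h2 : ∫ θ in (0:ℝ)..(2 * Real.pi), ‖tp κ N θ‖ ^ (2:ℝ) =
      2 * Real.pi * ∑ n ∈ Finset.range N, ‖κ n‖ ^ 2 := by
    rw [← sq_int]
    congr 1
    funext θ
    exact Real.rpow_natCast _ 2
  rw [h2, ← mul_assoc, inv_mul_cancel₀ Real.two_pi_pos.ne', one_mul] at h1
  exact h1

/-- dilates converge uniformly -/
lemma unif {k : ℂ → ℂ} (hk : DifferentiableOn ℂ k DD) {r : ℝ} (hr : 0 < r) (hr1 : r < 1) :
    ∀ ε > 0, ∀ᶠ N in atTop, ∀ θ : ℝ,
      ‖k (r * Complex.exp (θ * I)) - tp (fun n => tc k n * r ^ n) N θ‖ ≤ ε := by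
  intro ε hε
  have hrD : (r : ℂ) ∈ DD := by
    rw [Metric.mem_ball, dist_zero_right, Complex.norm_real, Real.norm_of_nonneg hr.le]
    exact hr1
  have hsm := Pool.Agent.H713R2.summable_norm_tc hk hrD
  have htail := tendsto_sum_nat_add (fun j => ‖tc k j * (r : ℂ) ^ j‖)
  filter_upwards [htail.eventually_lt_const hε] with N hN θ
  have hz : (r : ℂ) * Complex.exp (θ * I) ∈ DD := by
    rw [Metric.mem_ball, dist_zero_right, norm_mul, Complex.norm_real, Real.norm_of_nonneg hr.le,
      Complex.norm_exp_ofReal_mul_I, mul_one]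
    exact hr1
  have h1 := Pool.Agent.H713R2.hasSum_tc hk hz
  have hn : ∀ j, ‖tc k j * ((r : ℂ) * Complex.exp (θ * I)) ^ j‖ = ‖tc k j * (r : ℂ) ^ j‖ := by
    intro j
    rw [mul_pow, ← Complex.exp_nat_mul, norm_mul, norm_mul, norm_mul]
    have : (j : ℂ) * (θ * I) = ((j * θ : ℝ) : ℂ) * I := by push_cast; ring
    rw [this, Complex.norm_exp_ofReal_mul_I, mul_one]
  have h2 : tp (fun n => tc k n * r ^ n) N θ =
      ∑ j ∈ Finset.range N, tc k j * ((r : ℂ) * Complex.exp (θ * I)) ^ j := by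
    unfold tp
    apply Finset.sum_congr rfl
    intro j _
    rw [mul_pow, ← Complex.exp_nat_mul, mul_assoc]
    congr 3
    ring
  have h3 := h1.summable.sum_add_tsum_nat_add N
  rw [h1.tsum_eq] at h3
  rw [h2, ← h3, add_sub_cancel_left]
  have h4 : Summable fun j => ‖tc k (j + N) * ((r : ℂ) * Complex.exp (θ * I)) ^ (j + N)‖ := by
    simp only [hn]
    exact (summable_nat_add_iff N).mpr hsm
  refine (norm_tsum_le_tsum_norm h4).trans ?_
  simp only [hn]
  exact hN.le

end Pool.Agent.V113.KR
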