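import Pool.Agent.V113.KR.Q

/-! Boundary values and their mean oscillation. -/

open MeasureTheory Set Filter Topology Complex
open scoped ComplexConjugate

namespace Pool.Agent.V113.KR

open Pool.Agent.H713R2 (tc)

lemma sum_bound {κ : ℕ → ℂ} {C1 : ℝ} (hC1 : 0 ≤ C1)
    (HB : ∀ (c : ℕ → ℂ) (N : ℕ), ‖∑ n ∈ Finset.range N, c n * conj (κ n)‖ ≤
      C1 * ∫ θ in (0:ℝ)..(2 * Real.pi), ‖tp c N θ‖) (N : ℕ) :
    ∑ n ∈ Finset.range N, ‖κ n‖ ^ 2 ≤ (2 * Real.pi * (C1 + 1)) ^ 2 := by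
  have hpi := Real.two_pi_pos
  set S : ℝ := ∑ n ∈ Finset.range N, ‖κ n‖ ^ 2 with hS
  have hS0 : 0 ≤ S := Finset.sum_nonneg fun n _ => by positivity
  have h1 := HB κ N
  have e1 : ∑ n ∈ Finset.range N, κ n * conj (κ n) = ((S : ℝ) : ℂ) := by
    rw [hS]
    push_cast
    apply Finset.sum_congr rfl
    intro n _
    rw [Complex.mul_conj']
  rw [e1, Complex.norm_real, Real.norm_of_nonneg hS0] at h1
  set lam : ℝ := 2 * Real.pi * (C1 + 1) with hlam
  have hlam0 : 0 < lam := by positivity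
  have hc := tp_cont κ N
  have h2 : ∫ θ in (0:ℝ)..(2 * Real.pi), ‖tp κ N θ‖ ≤
      ∫ θ in (0:ℝ)..(2 * Real.pi), (‖tp κ N θ‖ ^ 2 / lam + lam) / 2 := by
    apply intervalIntegral.integral_mono hpi.le (hc.norm.intervalIntegrable _ _)
    · exact ((((hc.norm.pow 2).div_const lam).add continuous_const).div_const 2).intervalIntegrable _ _
    intro θ
    simp only
    have h3 : 0 ≤ (‖tp κ N θ‖ - lam) ^ 2 / lam := by positivity
    have h4 : (‖tp κ N θ‖ - lam) ^ 2 / lam = ‖tp κ N θ‖ ^ 2 / lam + lam - 2 * ‖tp κ N θ‖ := by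
      field_simp
      ring
    rw [h4] at h3
    linarith
  have i1 : IntervalIntegrable (fun θ => ‖tp κ N θ‖ ^ 2 / lam) volume 0 (2 * Real.pi) :=
    ((hc.norm.pow 2).div_const lam).intervalIntegrable _ _
  rw [intervalIntegral.integral_div, intervalIntegral.integral_add i1 intervalIntegrable_const,
    intervalIntegral.integral_div, sq_int, intervalIntegral.integral_const, ← hS, smul_eq_mul,
    sub_zero] at h2
  have h3 := h1.trans (mul_le_mul_of_nonneg_left h2 hC1)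
  have h4 : C1 * ((2 * Real.pi * S / lam + 2 * Real.pi * lam) / 2) ≤ S / 2 + lam ^ 2 / 2 := by
    have h5 : 2 * Real.pi * C1 ≤ lam := by rw [hlam]; nlinarith
    have h6 : C1 * (2 * Real.pi * S / lam) ≤ S := by
      rw [mul_div_assoc', div_le_iff₀ hlam0]
      nlinarith
    have h7 : C1 * (2 * Real.pi * lam) ≤ lam ^ 2 := by nlinarith
    linarith
  linarith

lemma intg_of_sq {b : ℝ → ℂ} (hb : Measurable b) {x y : ℝ}
    (h2 : IntervalIntegrable (fun θ => ‖b θ‖ ^ 2) volume x y) :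
    IntervalIntegrable b volume x y := by
  have h3 : IntervalIntegrable (fun θ => ‖b θ‖ ^ 2 + 1) volume x y := h2.add intervalIntegrable_const
  refine h3.mono_fun' hb.aestronglyMeasurable (ae_of_all _ fun θ => ?_)
  nlinarith [sq_nonneg (‖b θ‖ - 1)]

lemma sub_sq_intg {b K : ℝ → ℂ} (hb : Measurable b) (hK : Continuous K) {x y : ℝ}
    (h2 : IntervalIntegrable (fun θ => ‖b θ‖ ^ 2) volume x y) :
    IntervalIntegrable (fun θ => ‖K θ - b θ‖ ^ 2) volume x y := by
  have h3 : IntervalIntegrable (fun θ => 2 * ‖K θ‖ ^ 2 + 2 * ‖b θ‖ ^ 2) volume x y :=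
    ((continuous_const.mul (hK.norm.pow 2)).intervalIntegrable _ _).add (h2.const_mul 2)
  refine h3.mono_fun' ((hK.measurable.sub hb).norm.pow_const 2).aestronglyMeasurable
    (ae_of_all _ fun θ => ?_)
  change ‖‖K θ - b θ‖ ^ 2‖ ≤ 2 * ‖K θ‖ ^ 2 + 2 * ‖b θ‖ ^ 2
  rw [Real.norm_of_nonneg (by positivity)]
  have h4 := norm_sub_le (K θ) (b θ)
  have h5 : ‖K θ - b θ‖ ^ 2 ≤ (‖K θ‖ + ‖b θ‖) ^ 2 := pow_le_pow_left₀ (norm_nonneg _) h4 2
  nlinarith [sq_nonneg (‖K θ‖ - ‖b θ‖)]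

lemma circ_cont {k : ℂ → ℂ} (hk : DifferentiableOn ℂ k DD) {r : ℝ} (hr : 0 < r) (hr1 : r < 1) :
    Continuous fun θ : ℝ => k (r * Complex.exp (θ * I)) := by
  apply hk.continuousOn.comp_continuous (by fun_prop)
  intro θ
  rw [Metric.mem_ball, dist_zero_right, norm_mul, Complex.norm_real, Real.norm_of_nonneg hr.le,
    Complex.norm_exp_ofReal_mul_I, mul_one]
  exact hr1

/-- convergence of the dilates to the boundary function -/
lemma l2_conv {k : ℂ → ℂ} (hk : DifferentiableOn ℂ k DD) (hs : Summable fun n => ‖tc k n‖ ^ 2)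
    {b : ℝ → ℂ} (hb : Measurable b)
    (hb2 : IntervalIntegrable (fun θ => ‖b θ‖ ^ 2) volume 0 (2 * Real.pi))
    (hlim : Tendsto (fun N => ∫ θ in (0:ℝ)..(2 * Real.pi), ‖tp (tc k) N θ - b θ‖ ^ 2) atTop (𝓝 0)) :
    Tendsto (fun r : ℝ => ∫ θ in (0:ℝ)..(2 * Real.pi), ‖k (r * Complex.exp (θ * I)) - b θ‖ ^ 2)
      (𝓝[<] 1) (𝓝 0) := by
  have hpi := Real.two_pi_pos
  set S : ℝ := ∑' n, ‖tc k n‖ ^ 2 with hS
  set s : ℕ → ℝ := fun N => ∑ n ∈ Finset.range N, ‖tc k n‖ ^ 2 with hsd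
  set g : ℕ → ℝ → ℝ := fun N r => ∑ n ∈ Finset.range N, ‖tc k n * r ^ n - tc k n‖ ^ 2 with hg
  set βN : ℕ → ℝ := fun N => ∫ θ in (0:ℝ)..(2 * Real.pi), ‖tp (tc k) N θ - b θ‖ ^ 2 with hβ
  have hsS : ∀ N, s N ≤ S := fun N => hs.sum_le_tsum _ fun n _ => by positivity
  have key : ∀ r : ℝ, 0 < r → r < 1 → ∀ N,
      ∫ θ in (0:ℝ)..(2 * Real.pi), ‖k (r * Complex.exp (θ * I)) - b θ‖ ^ 2 ≤
        3 * (4 * Real.pi * (S - s N) + 2 * Real.pi * g N r + βN N) := by
    intro r hr hr1 N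
    set K : ℝ → ℂ := fun θ => k (r * Complex.exp (θ * I)) with hK
    have hKc : Continuous K := circ_cont hk hr hr1
    set T : ℕ → ℝ → ℂ := fun N => tp (fun n => tc k n * r ^ n) N with hT
    have hTc : ∀ N, Continuous (T N) := fun N => tp_cont _ _
    have h1 : ∀ M, N ≤ M → ∫ θ in (0:ℝ)..(2 * Real.pi), ‖T M θ - T N θ‖ ^ 2 ≤
        2 * Real.pi * (S - s N) := by
      intro M hM
      rw [hT]
      simp only
      rw [tp_sub_sq _ hM]
      apply mul_le_mul_of_nonneg_left _ hpi.le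
      have h2 := hsS M
      have h3 : ∑ n ∈ Finset.range M, ‖tc k n * (r : ℂ) ^ n‖ ^ 2 -
          ∑ n ∈ Finset.range N, ‖tc k n * (r : ℂ) ^ n‖ ^ 2 ≤ s M - s N := by
        rw [hsd]
        simp only
        rw [← Finset.sum_range_add_sum_Ico (fun n => ‖tc k n * (r : ℂ) ^ n‖ ^ 2) hM,
          ← Finset.sum_range_add_sum_Ico (fun n => ‖tc k n‖ ^ 2) hM, add_sub_cancel_left,
          add_sub_cancel_left]
        apply Finset.sum_le_sum
        intro n _
        apply pow_le_pow_left₀ (norm_nonneg _)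
        rw [norm_mul, norm_pow, Complex.norm_real, Real.norm_of_nonneg hr.le]
        exact mul_le_of_le_one_right (norm_nonneg _) (pow_le_one₀ hr.le hr1.le)
      linarith
    have h2 : ∫ θ in (0:ℝ)..(2 * Real.pi), ‖K θ - T N θ‖ ^ 2 ≤ 4 * Real.pi * (S - s N) := by
      apply le_of_forall_pos_le_add
      intro ε hε
      set e : ℝ := ε / (4 * Real.pi) with he
      have he0 : 0 < e := by positivity
      have hu := unif hk hr hr1 (Real.sqrt e) (Real.sqrt_pos.mpr he0)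
      obtain ⟨M, hM1, hM2⟩ := (hu.and (eventually_ge_atTop N)).exists
      have h3 : ∫ θ in (0:ℝ)..(2 * Real.pi), ‖K θ - T N θ‖ ^ 2 ≤
          ∫ θ in (0:ℝ)..(2 * Real.pi), (2 * e + 2 * ‖T M θ - T N θ‖ ^ 2) := by
        apply intervalIntegral.integral_mono hpi.le
        · exact ((hKc.sub (hTc N)).norm.pow 2).intervalIntegrable _ _
        · exact (continuous_const.add (continuous_const.mul
            (((hTc M).sub (hTc N)).norm.pow 2))).intervalIntegrable _ _
        intro θ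
        simp only
        have h4 : ‖K θ - T M θ‖ ≤ Real.sqrt e := hM1 θ
        have h5 : ‖K θ - T M θ‖ ^ 2 ≤ e := by
          have := pow_le_pow_left₀ (norm_nonneg _) h4 2
          rwa [Real.sq_sqrt he0.le] at this
        have h6 : ‖K θ - T N θ‖ ≤ ‖K θ - T M θ‖ + ‖T M θ - T N θ‖ := by
          have : K θ - T N θ = (K θ - T M θ) + (T M θ - T N θ) := by ring
          rw [this]
          exact norm_add_le _ _
        have h7 := pow_le_pow_left₀ (norm_nonneg _) h6 2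
        nlinarith [sq_nonneg (‖K θ - T M θ‖ - ‖T M θ - T N θ‖)]
      have i1 : IntervalIntegrable (fun θ => 2 * ‖T M θ - T N θ‖ ^ 2) volume 0 (2 * Real.pi) :=
        (continuous_const.mul (((hTc M).sub (hTc N)).norm.pow 2)).intervalIntegrable _ _
      rw [intervalIntegral.integral_add intervalIntegrable_const i1,
        intervalIntegral.integral_const, intervalIntegral.integral_const_mul, smul_eq_mul,
        sub_zero] at h3
      have h4 := h1 M hM2
      have h5 : 2 * Real.pi * (2 * e) = ε := by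
        rw [he]
        field_simp
        ring
      linarith
    have h3 : ∫ θ in (0:ℝ)..(2 * Real.pi), ‖T N θ - tp (tc k) N θ‖ ^ 2 = 2 * Real.pi * g N r := by
      have e1 : ∀ θ, T N θ - tp (tc k) N θ = tp (fun n => tc k n * r ^ n - tc k n) N θ := by
        intro θ
        rw [hT]
        unfold tp
        rw [← Finset.sum_sub_distrib]
        apply Finset.sum_congr rfl
        intro n _
        ring
      simp only [e1]
      rw [sq_int]
    have h4 : ∫ θ in (0:ℝ)..(2 * Real.pi), ‖K θ - b θ‖ ^ 2 ≤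
        ∫ θ in (0:ℝ)..(2 * Real.pi), (3 * (‖K θ - T N θ‖ ^ 2 + ‖T N θ - tp (tc k) N θ‖ ^ 2 +
          ‖tp (tc k) N θ - b θ‖ ^ 2)) := by
      apply intervalIntegral.integral_mono hpi.le (sub_sq_intg hb hKc hb2)
      · exact ((((hKc.sub (hTc N)).norm.pow 2).add
          (((hTc N).sub (tp_cont _ _)).norm.pow 2)).intervalIntegrable _ _ |>.add
          (sub_sq_intg hb (tp_cont _ _) hb2)).const_mul 3
      intro θ
      simp only
      have h6 : ‖K θ - b θ‖ ≤ ‖K θ - T N θ‖ + ‖T N θ - tp (tc k) N θ‖ + ‖tp (tc k) N θ - b θ‖ := by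
        have : K θ - b θ = (K θ - T N θ) + (T N θ - tp (tc k) N θ) + (tp (tc k) N θ - b θ) := by ring
        rw [this]
        exact (norm_add_le _ _).trans (add_le_add_left (norm_add_le _ _) _)
      have h7 := pow_le_pow_left₀ (norm_nonneg _) h6 2
      nlinarith [sq_nonneg (‖K θ - T N θ‖ - ‖T N θ - tp (tc k) N θ‖),
        sq_nonneg (‖K θ - T N θ‖ - ‖tp (tc k) N θ - b θ‖),
        sq_nonneg (‖T N θ - tp (tc k) N θ‖ - ‖tp (tc k) N θ - b θ‖)]
    have j1 : IntervalIntegrable (fun θ => ‖K θ - T N θ‖ ^ 2) volume 0 (2 * Real.pi) :=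
      ((hKc.sub (hTc N)).norm.pow 2).intervalIntegrable _ _
    have j2 : IntervalIntegrable (fun θ => ‖T N θ - tp (tc k) N θ‖ ^ 2) volume 0 (2 * Real.pi) :=
      (((hTc N).sub (tp_cont _ _)).norm.pow 2).intervalIntegrable _ _
    have j3 : IntervalIntegrable (fun θ => ‖tp (tc k) N θ - b θ‖ ^ 2) volume 0 (2 * Real.pi) :=
      sub_sq_intg hb (tp_cont _ _) hb2
    rw [intervalIntegral.integral_const_mul, intervalIntegral.integral_add (j1.add j2) j3,
      intervalIntegral.integral_add j1 j2, h3] at h4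
    have h5 : βN N = ∫ θ in (0:ℝ)..(2 * Real.pi), ‖tp (tc k) N θ - b θ‖ ^ 2 := rfl
    rw [← h5] at h4
    linarith
  rw [Metric.tendsto_nhds]
  intro ε hε
  have t1 : Tendsto (fun N => 3 * (4 * Real.pi * (S - s N) + βN N)) atTop (𝓝 0) := by
    have h1 : Tendsto s atTop (𝓝 S) := hs.hasSum.tendsto_sum_nat
    have h2 := (((h1.const_sub S).const_mul (4 * Real.pi)).add hlim).const_mul 3
    simpa using h2
  obtain ⟨N, hN⟩ := (t1.eventually_lt_const (show (0:ℝ) < ε / 2 by positivity)).exists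
  have t2 : Tendsto (fun r : ℝ => 3 * (2 * Real.pi * g N r)) (𝓝[<] 1) (𝓝 0) := by
    have h1 : Continuous fun r : ℝ => 3 * (2 * Real.pi * g N r) := by
      rw [hg]
      fun_prop
    have h2 := (h1.tendsto 1).mono_left (nhdsWithin_le_nhds (s := Iio 1))
    have h3 : 3 * (2 * Real.pi * g N 1) = 0 := by
      rw [hg]
      simp
    rwa [h3] at h2
  have hpos : ∀ᶠ r : ℝ in 𝓝[<] 1, 0 < r ∧ r < 1 := by
    have : Ioo (0:ℝ) 1 ∈ 𝓝[<] (1:ℝ) := Ioo_mem_nhdsLT one_pos
    filter_upwards [this] with r hr using hr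
  filter_upwards [t2.eventually_lt_const (show (0:ℝ) < ε / 2 by positivity), hpos] with r h1 h2
  have h3 := key r h2.1 h2.2 N
  have h4 : 0 ≤ ∫ θ in (0:ℝ)..(2 * Real.pi), ‖k (r * Complex.exp (θ * I)) - b θ‖ ^ 2 :=
    intervalIntegral.integral_nonneg hpi.le fun θ _ => by positivity
  rw [Real.dist_eq, sub_zero, abs_of_nonneg h4]
  linarith

end Pool.Agent.V113.KR
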