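import Pool.Agent.V113.KR.R

/-! Kernels of bounded extremal functions are in BMOA: the conclusion. -/

open MeasureTheory Set Filter Topology Complex
open scoped ComplexConjugate

namespace Pool.Agent.V113.KR

open Pool.Agent.H713R2 (tc)

/-- mean oscillation of the boundary function -/
lemma bmo_bdry {k : ℂ → ℂ} (hk : DifferentiableOn ℂ k DD) {C1 : ℝ} (hC1 : 0 ≤ C1)
    (HB : ∀ (c : ℕ → ℂ) (N : ℕ), ‖∑ n ∈ Finset.range N, c n * conj (tc k n)‖ ≤
      C1 * ∫ θ in (0:ℝ)..(2 * Real.pi), ‖tp c N θ‖)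
    {b : ℝ → ℂ} (hb : Measurable b) (hper : Function.Periodic b (2 * Real.pi))
    (hb2 : ∀ x, IntervalIntegrable (fun θ => ‖b θ‖ ^ 2) volume x (x + 2 * Real.pi))
    (hlim : Tendsto (fun r : ℝ => ∫ θ in (0:ℝ)..(2 * Real.pi),
      ‖k (r * Complex.exp (θ * I)) - b θ‖ ^ 2) (𝓝[<] 1) (𝓝 0))
    {α β : ℝ} (hαβ : α < β) (hβ : β ≤ α + 2 * Real.pi) :
    ∫ θ in α..β, ‖b θ - ((β - α)⁻¹ : ℝ) • ∫ t in α..β, b t‖ ≤
      2 * Real.pi * C1 * (19 * (β - α)) := by
  have hpi := Real.two_pi_pos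
  set ℓ := β - α with hℓ
  have hℓ0 : 0 < ℓ := by rw [hℓ]; linarith
  have hb2' : IntervalIntegrable (fun θ => ‖b θ‖ ^ 2) volume α β :=
    (hb2 α).mono_set (by
      rw [uIcc_of_le hαβ.le, uIcc_of_le (by linarith)]
      exact Icc_subset_Icc_right hβ)
  have hbi : IntervalIntegrable b volume α β := intg_of_sq hb hb2'
  set mb : ℂ := (ℓ⁻¹ : ℝ) • ∫ t in α..β, b t with hmb
  -- for each r and δ
  have key : ∀ r : ℝ, 0 < r → r < 1 → ∀ δ : ℝ, 0 < δ →
      ∫ θ in α..β, ‖b θ - mb‖ ≤ 2 * Real.pi * C1 * (19 * ℓ) +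
        2 * ((∫ θ in (0:ℝ)..(2 * Real.pi), ‖k (r * Complex.exp (θ * I)) - b θ‖ ^ 2) / δ +
          2 * Real.pi * δ) := by
    intro r hr hr1 δ hδ
    set K : ℝ → ℂ := fun θ => k (r * Complex.exp (θ * I)) with hK
    have hKc : Continuous K := circ_cont hk hr hr1
    have hKp : Function.Periodic K (2 * Real.pi) := by
      intro θ
      simp only [hK]
      congr 2
      have : ((θ + 2 * Real.pi : ℝ) : ℂ) * I = θ * I + 2 * Real.pi * I := by push_cast; ring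
      rw [this, Complex.exp_add, Complex.exp_two_pi_mul_I, mul_one]
    set mK : ℂ := (ℓ⁻¹ : ℝ) • ∫ t in α..β, K t with hmK
    have hosc : ∫ θ in α..β, ‖K θ - mK‖ ≤ 2 * Real.pi * C1 * (19 * ℓ) :=
      osc hr hr1 hC1 HB hKc (unif hk hr hr1) hαβ hβ
    have hKi : IntervalIntegrable K volume α β := hKc.intervalIntegrable _ _
    have hd : IntervalIntegrable (fun θ => ‖K θ - b θ‖) volume α β := (hKi.sub hbi).norm
    -- the L¹ distance
    have hL1 : ∫ θ in α..β, ‖K θ - b θ‖ ≤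
        (∫ θ in (0:ℝ)..(2 * Real.pi), ‖K θ - b θ‖ ^ 2) / δ + 2 * Real.pi * δ := by
      have i2 : IntervalIntegrable (fun θ => ‖K θ - b θ‖ ^ 2) volume α (α + 2 * Real.pi) :=
        sub_sq_intg hb hKc (hb2 α)
      have i2' : IntervalIntegrable (fun θ => ‖K θ - b θ‖ ^ 2) volume α β :=
        sub_sq_intg hb hKc hb2'
      have h1 : ∫ θ in α..β, ‖K θ - b θ‖ ≤ ∫ θ in α..β, (‖K θ - b θ‖ ^ 2 / δ + δ) := by
        apply intervalIntegral.integral_mono hαβ.le hd ((i2'.div_const δ).add intervalIntegrable_const)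
        intro θ
        simp only
        have h2 : 0 ≤ (‖K θ - b θ‖ - δ) ^ 2 / δ := by positivity
        have h3 : (‖K θ - b θ‖ - δ) ^ 2 / δ = ‖K θ - b θ‖ ^ 2 / δ + δ - 2 * ‖K θ - b θ‖ := by
          field_simp
          ring
        rw [h3] at h2
        linarith [norm_nonneg (K θ - b θ)]
      rw [intervalIntegral.integral_add (i2'.div_const δ) intervalIntegrable_const,
        intervalIntegral.integral_div, intervalIntegral.integral_const, smul_eq_mul] at h1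
      have h2 : ∫ θ in α..β, ‖K θ - b θ‖ ^ 2 ≤ ∫ θ in (0:ℝ)..(2 * Real.pi), ‖K θ - b θ‖ ^ 2 := by
        rw [← per_int (f := fun θ => ‖K θ - b θ‖ ^ 2) (fun θ => by
          simp only [hKp θ, hper θ]) α]
        apply intervalIntegral.integral_mono_interval le_rfl hαβ.le hβ
        · exact ae_of_all _ fun θ => by positivity
        · exact i2
      have h3 : (∫ θ in α..β, ‖K θ - b θ‖ ^ 2) / δ ≤
          (∫ θ in (0:ℝ)..(2 * Real.pi), ‖K θ - b θ‖ ^ 2) / δ := by gcongr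
      have h4 : (β - α) * δ ≤ 2 * Real.pi * δ := by
        apply mul_le_mul_of_nonneg_right _ hδ.le
        linarith
      linarith
    -- the difference of the means
    have hmm : ‖mK - mb‖ ≤ ℓ⁻¹ * ∫ θ in α..β, ‖K θ - b θ‖ := by
      rw [hmK, hmb, ← smul_sub, norm_smul, Real.norm_of_nonneg (by positivity),
        ← intervalIntegral.integral_sub hKi hbi]
      gcongr
      exact intervalIntegral.norm_integral_le_integral_norm hαβ.le
    have i3 : IntervalIntegrable (fun θ => ‖b θ - mb‖) volume α β :=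
      (hbi.sub intervalIntegrable_const).norm
    have i4 : IntervalIntegrable (fun θ => ‖K θ - mK‖) volume α β :=
      (hKi.sub intervalIntegrable_const).norm
    have h5 : ∫ θ in α..β, ‖b θ - mb‖ ≤
        ∫ θ in α..β, (‖K θ - b θ‖ + ‖K θ - mK‖ + ‖mK - mb‖) := by
      apply intervalIntegral.integral_mono hαβ.le i3 ((hd.add i4).add intervalIntegrable_const)
      intro θ
      simp only
      have : b θ - mb = -(K θ - b θ) + (K θ - mK) + (mK - mb) := by ring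
      rw [this]
      refine (norm_add_le _ _).trans (add_le_add_left ((norm_add_le _ _).trans ?_) _)
      rw [norm_neg]
    rw [intervalIntegral.integral_add (hd.add i4) intervalIntegrable_const,
      intervalIntegral.integral_add hd i4, intervalIntegral.integral_const, smul_eq_mul] at h5
    have h6 : (β - α) * ‖mK - mb‖ ≤ ∫ θ in α..β, ‖K θ - b θ‖ := by
      have := mul_le_mul_of_nonneg_left hmm hℓ0.le
      rwa [← mul_assoc, mul_inv_cancel₀ hℓ0.ne', one_mul] at this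
    linarith
  -- pass to the limit
  have hpos : ∀ᶠ r : ℝ in 𝓝[<] 1, 0 < r ∧ r < 1 := by
    have : Ioo (0:ℝ) 1 ∈ 𝓝[<] (1:ℝ) := Ioo_mem_nhdsLT one_pos
    filter_upwards [this] with r hr using hr
  have key2 : ∀ δ : ℝ, 0 < δ → ∫ θ in α..β, ‖b θ - mb‖ ≤
      2 * Real.pi * C1 * (19 * ℓ) + 4 * Real.pi * δ := by
    intro δ hδ
    have h1 := (((hlim.div_const δ).add_const (2 * Real.pi * δ)).const_mul 2).const_add
      (2 * Real.pi * C1 * (19 * ℓ))
    have h2 : ∀ᶠ r : ℝ in 𝓝[<] 1, ∫ θ in α..β, ‖b θ - mb‖ ≤ 2 * Real.pi * C1 * (19 * ℓ) +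
        2 * ((∫ θ in (0:ℝ)..(2 * Real.pi), ‖k (r * Complex.exp (θ * I)) - b θ‖ ^ 2) / δ +
          2 * Real.pi * δ) := by
      filter_upwards [hpos] with r hr using key r hr.1 hr.2 δ hδ
    have h3 := ge_of_tendsto h1 h2
    rw [zero_div, zero_add] at h3
    linarith
  apply le_of_forall_pos_le_add
  intro ε hε
  have h1 := key2 (ε / (4 * Real.pi)) (by positivity)
  have h2 : 4 * Real.pi * (ε / (4 * Real.pi)) = ε := by field_simp
  rwa [h2] at h1

/-- **the BMOA theorem** -/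
theorem main2 {p M : ℝ} (hp : 1 < p) {F k : ℂ → ℂ}
    (hF : DifferentiableOn ℂ F DD) (hk : DifferentiableOn ℂ k DD)
    (hFp : Integrable (fun z => ‖F z‖ ^ p) sg) (hF1 : ∫ z, ‖F z‖ ^ p ∂sg = 1)
    (hkq : Integrable (fun z => ‖k z‖ ^ (p / (p - 1))) sg)
    (hext : ∀ g : ℂ → ℂ, DifferentiableOn ℂ g DD → Integrable (fun z => ‖g z‖ ^ p) sg →
      ∫ z, ‖g z‖ ^ p ∂sg = 1 →
      (∫ z, g z * conj (k z) ∂sg).re ≤ (∫ z, F z * conj (k z) ∂sg).re)
    (hM : ∀ z ∈ DD, ‖F z‖ ≤ M) :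
    (∃ B0, ∀ t < 0, avg (fun z => ‖k z‖ ^ (2:ℝ)) t ≤ B0) ∧
    ∃ b : ℝ → ℂ, Measurable b ∧ Function.Periodic b (2 * Real.pi) ∧
      IntervalIntegrable (fun θ => ‖b θ‖ ^ 2) volume 0 (2 * Real.pi) ∧
      Tendsto (fun r : ℝ => ∫ θ in (0:ℝ)..(2 * Real.pi), ‖k (r * Complex.exp (θ * I)) - b θ‖ ^ 2)
        (𝓝[<] 1) (𝓝 0) ∧
      ∃ C : ℝ, ∀ α β : ℝ, α < β → β ≤ α + 2 * Real.pi →
        (β - α)⁻¹ * ∫ θ in α..β, ‖b θ - ((β - α)⁻¹ : ℝ) • ∫ t in α..β, b t‖ ≤ C := by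
  obtain ⟨C1, hC1, HB⟩ := h1_bound hp hF hk hFp hF1 hkq hext hM
  have hsb := sum_bound hC1 HB
  have hs : Summable fun n => ‖tc k n‖ ^ 2 :=
    summable_of_sum_range_le (fun n => by positivity) hsb
  refine ⟨⟨(2 * Real.pi * (C1 + 1)) ^ 2, fun t ht => ?_⟩, ?_⟩
  · apply hardy_of_partial hk (by norm_num) _ ht
    intro N
    have h2 : ∫ θ in (0:ℝ)..(2 * Real.pi), ‖tp (tc k) N θ‖ ^ (2:ℝ) =
        2 * Real.pi * ∑ n ∈ Finset.range N, ‖tc k n‖ ^ 2 := by
      rw [← sq_int]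
      congr 1
      funext θ
      exact Real.rpow_natCast _ 2
    rw [h2, ← mul_assoc, inv_mul_cancel₀ Real.two_pi_pos.ne', one_mul]
    exact hsb N
  · obtain ⟨b, hb, hper, hb2, hlimN⟩ := exists_bdry hs
    have hb0 : IntervalIntegrable (fun θ => ‖b θ‖ ^ 2) volume 0 (2 * Real.pi) := by
      have := hb2 0
      rwa [zero_add] at this
    have hlim := l2_conv hk hs hb hb0 hlimN
    refine ⟨b, hb, hper, hb0, hlim, 2 * Real.pi * C1 * 19, fun α β hαβ hβ => ?_⟩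
    have h1 := bmo_bdry hk hC1 HB hb hper hb2 hlim hαβ hβ
    have hℓ0 : 0 < β - α := by linarith
    rw [inv_mul_le_iff₀ hℓ0]
    linarith

end Pool.Agent.V113.KR
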